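import Pool.Agent.N811.IS.Inst

set_option autoImplicit false

/-! Iterated sumsets. -/

namespace Pool.Agent.N811.IS

open Finset
open scoped Pointwise

universe u

section
variable {R : Type u} [CommRing R] [DecidableEq R]

/-- `k`-fold sumset -/
def sumset (k : ℕ) (A : Finset R) : Finset R :=
  (Fintype.piFinset fun _ : Fin k => A).image fun f => ∑ i, f i

lemma sumset_zero (A : Finset R) : sumset 0 A = {0} := by
  unfold sumset
  ext x
  simp [eq_comm]

lemma sumset_succ (k : ℕ) (A : Finset R) : sumset (k + 1) A = A + sumset k A := by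
  ext x
  unfold sumset
  simp only [Finset.mem_image, Fintype.mem_piFinset, Finset.mem_add]
  constructor
  · rintro ⟨f, hf, rfl⟩
    refine ⟨f 0, hf 0, ∑ i : Fin k, f i.succ, ⟨fun i => f i.succ, fun i => hf _, rfl⟩, ?_⟩
    rw [Fin.sum_univ_succ]
  · rintro ⟨a, ha, _, ⟨g, hg, rfl⟩, rfl⟩
    refine ⟨Fin.cons a g, fun i => ?_, ?_⟩
    · refine Fin.cases ?_ (fun j => ?_) i
      · simpa using ha
      · simpa using hg j
    · rw [Fin.sum_univ_succ]
      simp

lemma sumset_nonempty (k : ℕ) {A : Finset R} (hA : A.Nonempty) : (sumset k A).Nonempty := by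
  induction k with
  | zero => rw [sumset_zero]; exact Finset.singleton_nonempty 0
  | succ k ih => rw [sumset_succ]; exact hA.add ih

lemma card_le_sumset {k : ℕ} (hk : 1 ≤ k) {A : Finset R} (hA : A.Nonempty) :
    A.card ≤ (sumset k A).card := by
  obtain ⟨j, rfl⟩ : ∃ j, k = j + 1 := ⟨k - 1, by omega⟩
  rw [sumset_succ]
  exact Finset.card_le_card_add_right (sumset_nonempty j hA)

variable (V : VR R)

/-- the chain of isoperimetric inequalities -/
theorem chain {n : ℕ} (hn : 2 ≤ n) {θ c β : ℝ} (hθ : 1 / 2 ≤ θ) (hθ1 : θ < 1)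
    (hc : 0 < c) (hcθ : c ≤ 2 ^ (1 - θ) - 1)
    (hcβ : 1 / c ≤ ((n : ℝ) - (n - 1) * c) ^ β)
    (A : Finset R) (hA : A.Nonempty) (hAp : ∀ a ∈ A, a ∈ V.S) (k : ℕ) :
    (A.card : ℝ) ^ ((1 + β) * ((1 - θ ^ k) / (1 - θ))) ≤
      ((sumset k A).card : ℝ) *
        ((prodset fun _ : Fin n => A).card : ℝ) ^ (β * ((1 - θ ^ k) / (1 - θ))) := by
  have hcard : (1:ℝ) ≤ A.card := by exact_mod_cast hA.card_pos
  have hPle : (A.card : ℝ) ≤ (prodset fun _ : Fin n => A).card := by
    exact_mod_cast card_le_prodset V (fun _ : Fin n => A) (fun _ => hA) (fun _ => hAp)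
      ⟨0, by omega⟩
  set P : ℝ := ((prodset fun _ : Fin n => A).card : ℝ) with hP
  have hP1 : 1 ≤ P := hcard.trans hPle
  have h1θ : 0 < 1 - θ := by linarith
  have hθ0 : 0 < θ := by linarith
  induction k with
  | zero =>
    rw [sumset_zero]
    simp
  | succ k ih =>
    have h := iso_one V hn hθ hθ1 hc hcθ hcβ A hA hAp (sumset k A) (sumset_nonempty k hA)
    rw [← sumset_succ] at h
    set e : ℝ := (1 - θ ^ k) / (1 - θ) with he
    have he' : (1 - θ ^ (k + 1)) / (1 - θ) = 1 + θ * e := by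
      rw [he, pow_succ]; field_simp; ring
    rw [he']
    have e1 : (A.card : ℝ) ^ ((1 + β) * (1 + θ * e)) =
        (A.card : ℝ) ^ (1 + β) * ((A.card : ℝ) ^ ((1 + β) * e)) ^ θ := by
      rw [← Real.rpow_mul (by linarith), ← Real.rpow_add (by linarith)]
      congr 1; ring
    have e2 : P ^ (β * (1 + θ * e)) = P ^ β * (P ^ (β * e)) ^ θ := by
      rw [← Real.rpow_mul (by linarith), ← Real.rpow_add (by linarith)]
      congr 1; ring
    have h2 := Real.rpow_le_rpow (by positivity) ih hθ0.le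
    rw [Real.mul_rpow (by positivity) (by positivity)] at h2
    rw [e1, e2]
    calc (A.card : ℝ) ^ (1 + β) * ((A.card : ℝ) ^ ((1 + β) * e)) ^ θ
        ≤ (A.card : ℝ) ^ (1 + β) * (((sumset k A).card : ℝ) ^ θ * (P ^ (β * e)) ^ θ) :=
          mul_le_mul_of_nonneg_left h2 (by positivity)
      _ = ((A.card : ℝ) ^ (1 + β) * ((sumset k A).card : ℝ) ^ θ) * (P ^ (β * e)) ^ θ := by ring
      _ ≤ (((sumset (k + 1) A).card : ℝ) * P ^ β) * (P ^ (β * e)) ^ θ :=
          mul_le_mul_of_nonneg_right h (by positivity)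
      _ = _ := by ring

/-- the resulting exponent for the maximum -/
theorem max_chain {n : ℕ} (hn : 2 ≤ n) {θ c β : ℝ} (hθ : 1 / 2 ≤ θ) (hθ1 : θ < 1)
    (hc : 0 < c) (hcθ : c ≤ 2 ^ (1 - θ) - 1) (hβ : 0 ≤ β)
    (hcβ : 1 / c ≤ ((n : ℝ) - (n - 1) * c) ^ β)
    (A : Finset R) (hA : A.Nonempty) (hAp : ∀ a ∈ A, a ∈ V.S) (k : ℕ) {s e : ℝ}
    (hs : s = (1 - θ ^ k) / (1 - θ)) (he : e * (1 + β * s) ≤ (1 + β) * s) :
    (A.card : ℝ) ^ e ≤
      max ((sumset k A).card : ℝ) ((prodset fun _ : Fin n => A).card : ℝ) := by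
  have hcard : (1:ℝ) ≤ A.card := by exact_mod_cast hA.card_pos
  have hPle : (A.card : ℝ) ≤ (prodset fun _ : Fin n => A).card := by
    exact_mod_cast card_le_prodset V (fun _ : Fin n => A) (fun _ => hA) (fun _ => hAp)
      ⟨0, by omega⟩
  have h := chain V hn hθ hθ1 hc hcθ hcβ A hA hAp k
  rw [← hs] at h
  set P : ℝ := ((prodset fun _ : Fin n => A).card : ℝ) with hP
  set M := max ((sumset k A).card : ℝ) P with hM
  have hM1 : 1 ≤ M := le_max_of_le_right (hcard.trans hPle)
  have hs0 : 0 ≤ s := by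
    rw [hs]
    apply div_nonneg _ (by linarith)
    have : θ ^ k ≤ 1 := pow_le_one₀ (by linarith) hθ1.le
    linarith
  have hp : 0 < 1 + β * s := by positivity
  have h2 : (A.card : ℝ) ^ ((1 + β) * s) ≤ M ^ (1 + β * s) := by
    calc _ ≤ _ := h
      _ ≤ M * M ^ (β * s) := by
          apply mul_le_mul (le_max_left _ _) _ (by positivity) (by linarith)
          exact Real.rpow_le_rpow (by linarith) (le_max_right _ _) (by positivity)
      _ = _ := by rw [Real.rpow_add (by linarith), Real.rpow_one]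
  have h3 : ((A.card : ℝ) ^ e) ^ (1 + β * s) ≤ M ^ (1 + β * s) := by
    rw [← Real.rpow_mul (by linarith)]
    exact (Real.rpow_le_rpow_of_exponent_le hcard he).trans h2
  exact (Real.rpow_le_rpow_iff (by positivity) (by linarith) hp).1 h3

end

end Pool.Agent.N811.IS
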