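import Pool.Agent.N811.IS.Low

set_option autoImplicit false

/-! Examples: the exponent is sharp. -/

namespace Pool.Agent.N811.IS

open Finset
open scoped Pointwise

/-- the numbers `2^i 3^j`, `i, j < M` -/
def ex (M : ℕ) : Finset ℤ := (Finset.range M ×ˢ Finset.range M).image fun p => 2 ^ p.1 * 3 ^ p.2

lemma ex_inj {i j i' j' : ℕ} (h : (2:ℤ) ^ i * 3 ^ j = 2 ^ i' * 3 ^ j') : i = i' ∧ j = j' := by
  have h' : 2 ^ i * 3 ^ j = 2 ^ i' * 3 ^ j' := by exact_mod_cast h
  have c1 : ∀ a b c : ℕ, 2 ^ a ∣ 2 ^ b * 3 ^ c → a ≤ b := by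
    intro a b c hd
    have hco : Nat.Coprime (2 ^ a) (3 ^ c) := Nat.Coprime.pow _ _ (by norm_num)
    exact (Nat.pow_dvd_pow_iff_le_right (by norm_num)).1 (hco.dvd_of_dvd_mul_right hd)
  have c2 : ∀ a b c : ℕ, 3 ^ a ∣ 2 ^ b * 3 ^ c → a ≤ c := by
    intro a b c hd
    have hco : Nat.Coprime (3 ^ a) (2 ^ b) := Nat.Coprime.pow _ _ (by norm_num)
    exact (Nat.pow_dvd_pow_iff_le_right (by norm_num)).1 (hco.dvd_of_dvd_mul_left hd)
  refine ⟨le_antisymm (c1 i i' j' ?_) (c1 i' i j ?_), le_antisymm (c2 j i' j' ?_) (c2 j' i j ?_)⟩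
  · rw [← h']; exact dvd_mul_right _ _
  · rw [h']; exact dvd_mul_right _ _
  · rw [← h']; exact dvd_mul_left _ _
  · rw [h']; exact dvd_mul_left _ _

lemma ex_card (M : ℕ) : (ex M).card = M ^ 2 := by
  unfold ex
  rw [Finset.card_image_of_injOn, Finset.card_product, Finset.card_range, sq]
  rintro ⟨i, j⟩ _ ⟨i', j'⟩ _ h
  obtain ⟨h1, h2⟩ := ex_inj h
  exact Prod.ext h1 h2

lemma ex_pos {M : ℕ} {a : ℤ} (ha : a ∈ ex M) : 0 < a := by
  unfold ex at ha
  obtain ⟨p, _, rfl⟩ := Finset.mem_image.1 ha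
  positivity

lemma ex_le {M : ℕ} {a : ℤ} (ha : a ∈ ex M) : a ≤ 6 ^ (M - 1) := by
  unfold ex at ha
  obtain ⟨p, hp, rfl⟩ := Finset.mem_image.1 ha
  rw [Finset.mem_product, Finset.mem_range, Finset.mem_range] at hp
  have e : (6:ℤ) ^ (M - 1) = 2 ^ (M - 1) * 3 ^ (M - 1) := by rw [← mul_pow]; norm_num
  rw [e]
  have h1 : (2:ℤ) ^ p.1 ≤ 2 ^ (M - 1) := pow_le_pow_right₀ (by norm_num) (by omega)
  have h2 : (3:ℤ) ^ p.2 ≤ 3 ^ (M - 1) := pow_le_pow_right₀ (by norm_num) (by omega)
  exact mul_le_mul h1 h2 (by positivity) (by positivity)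

lemma ex_sum (M : ℕ) {k : ℕ} (hk : 1 ≤ k) : (sumset k (ex M)).card ≤ k * 6 ^ (M - 1) := by
  have hsub : sumset k (ex M) ⊆ Finset.Icc (1:ℤ) ((k * 6 ^ (M - 1) : ℕ) : ℤ) := by
    intro x hx
    unfold sumset at hx
    obtain ⟨f, hf, rfl⟩ := Finset.mem_image.1 hx
    rw [Fintype.mem_piFinset] at hf
    rw [Finset.mem_Icc]
    constructor
    · have h1 : ∑ _i : Fin k, (1:ℤ) ≤ ∑ i, f i := Finset.sum_le_sum fun i _ => ex_pos (hf i)
      simp at h1
      have : (1:ℤ) ≤ k := by exact_mod_cast hk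
      linarith
    · have h1 : ∑ i, f i ≤ ∑ _i : Fin k, (6:ℤ) ^ (M - 1) :=
        Finset.sum_le_sum fun i _ => ex_le (hf i)
      simp at h1
      push_cast
      exact h1
  have := Finset.card_le_card hsub
  rw [Int.card_Icc] at this
  generalize k * 6 ^ (M - 1) = K at *
  omega

lemma ex_prod (M : ℕ) {k : ℕ} (hk : 1 ≤ k) :
    (prodset fun _ : Fin k => ex M).card ≤ (k * M) ^ 2 := by
  have hsub : (prodset fun _ : Fin k => ex M) ⊆ ex (k * M) := by
    intro x hx
    obtain ⟨f, hf, rfl⟩ := (mem_prodset _ _).1 hx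
    have hch : ∀ i, ∃ p : ℕ × ℕ, p.1 < M ∧ p.2 < M ∧ (2:ℤ) ^ p.1 * 3 ^ p.2 = f i := by
      intro i
      have := hf i
      unfold ex at this
      obtain ⟨p, hp, he⟩ := Finset.mem_image.1 this
      rw [Finset.mem_product, Finset.mem_range, Finset.mem_range] at hp
      exact ⟨p, hp.1, hp.2, he⟩
    choose p h1 h2 h3 using hch
    have e : ∏ i, f i = 2 ^ (∑ i, (p i).1) * 3 ^ (∑ i, (p i).2) := by
      rw [← Finset.prod_pow_eq_pow_sum, ← Finset.prod_pow_eq_pow_sum, ← Finset.prod_mul_distrib]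
      exact Finset.prod_congr rfl fun i _ => (h3 i).symm
    rw [e]
    unfold ex
    apply Finset.mem_image.2
    refine ⟨(∑ i, (p i).1, ∑ i, (p i).2), ?_, rfl⟩
    rw [Finset.mem_product, Finset.mem_range, Finset.mem_range]
    have hne : (Finset.univ : Finset (Fin k)).Nonempty := ⟨⟨0, by omega⟩, Finset.mem_univ _⟩
    have s1 : ∑ i, (p i).1 < ∑ _i : Fin k, M :=
      Finset.sum_lt_sum_of_nonempty hne fun i _ => h1 i
    have s2 : ∑ i, (p i).2 < ∑ _i : Fin k, M :=
      Finset.sum_lt_sum_of_nonempty hne fun i _ => h2 i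
    simp at s1 s2
    exact ⟨s1, s2⟩
  have := Finset.card_le_card hsub
  rwa [ex_card] at this

lemma log6 : Real.log 6 ≤ 1.7918 := by
  have h1 := Real.log_two_lt_d9
  have e : Real.log 6 = Real.log 2 + Real.log 3 := by
    rw [← Real.log_mul (by norm_num) (by norm_num)]; norm_num
  have h3 : Real.log 3 ≤ 1.09862 := by
    rw [Real.log_le_iff_le_exp (by norm_num)]
    have h := Real.sum_le_exp_of_nonneg (x := 1.09862) (by norm_num) 13
    simp only [Finset.sum_range_succ, Finset.sum_range_zero, Nat.factorial] at h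
    norm_num at h
    norm_num
    linarith
  rw [e]
  linarith

lemma log6_pos : 1.79 ≤ Real.log 6 := by
  have h1 := Real.log_two_gt_d9
  -- 6^5 = 7776, 2^12 = 4096 ; use 6^12 ≥ 2^31
  have h : Real.log ((2:ℝ) ^ 31) ≤ Real.log ((6 : ℝ) ^ 12) :=
    Real.log_le_log (by norm_num) (by norm_num)
  rw [Real.log_pow, Real.log_pow] at h
  push_cast at h
  linarith

/-- the real inequality of the upper bound -/
lemma up_real {x : ℝ} (hx : 12 ≤ x) :
    1 < Real.log x ∧ 1 + x / Real.log (x / 1.7918 - 1) ≤ x / (Real.log x - 1) ∧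
      0 < Real.log (x / 1.7918 - 1) := by
  have hx0 : 0 < x := by linarith
  set z := Real.log x with hz
  have hz1 : 2.4848 ≤ z := by
    have h12 : Real.log 12 ≤ z := Real.log_le_log (by norm_num) hx
    have e : Real.log 12 = Real.log 2 + Real.log 6 := by
      rw [← Real.log_mul (by norm_num) (by norm_num)]; norm_num
    have e6 : Real.log 6 = Real.log 2 + Real.log 3 := by
      rw [← Real.log_mul (by norm_num) (by norm_num)]; norm_num
    have l2 := Real.log_two_gt_d9
    -- log 3 ≥ 1.0986 from 3^? ; 3^41 ≥ 2^? : 41 log2(3) = 64.98; use 3^53 vs 2^84: 53*1.58496=84.003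
    have h : Real.log ((2:ℝ) ^ 84) ≤ Real.log ((3 : ℝ) ^ 53) :=
      Real.log_le_log (by norm_num) (by norm_num)
    rw [Real.log_pow, Real.log_pow] at h
    push_cast at h
    linarith
  set w := z - 1 with hw
  have hw1 : 1.4848 ≤ w := by linarith
  have hxe : x = Real.exp 1 * Real.exp w := by
    rw [← Real.exp_add, hw]
    have : 1 + (z - 1) = z := by ring
    rw [this, hz, Real.exp_log hx0]
  have he1 := Real.exp_one_gt_d9
  have hew := Real.sum_le_exp_of_nonneg (x := w) (by linarith) 5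
  simp only [Finset.sum_range_succ, Finset.sum_range_zero, Nat.factorial] at hew
  norm_num at hew
  -- lower bound for the logarithm
  have hu0 : 0 < x / 1.7918 - 1 := by
    rw [sub_pos, lt_div_iff₀ (by norm_num)]; linarith
  have hlow : z - 0.7453 ≤ Real.log (x / 1.7918 - 1) := by
    have h1 : x * 0.4746 ≤ x / 1.7918 - 1 := by
      rw [le_sub_iff_add_le, le_div_iff₀ (by norm_num)]
      nlinarith
    have h2 : Real.log (x * 0.4746) ≤ Real.log (x / 1.7918 - 1) :=
      Real.log_le_log (by positivity) h1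
    rw [Real.log_mul hx0.ne' (by norm_num), ← hz] at h2
    have h3 : -0.7453 ≤ Real.log 0.4746 := by
      rw [Real.le_log_iff_exp_le (by norm_num), Real.exp_neg]
      have h := Real.sum_le_exp_of_nonneg (x := 0.7453) (by norm_num) 8
      simp only [Finset.sum_range_succ, Finset.sum_range_zero, Nat.factorial] at h
      norm_num at h
      have h4 : (2.10705 : ℝ) ≤ Real.exp 0.7453 := by norm_num; linarith
      calc (Real.exp 0.7453)⁻¹ ≤ (2.10705 : ℝ)⁻¹ := inv_anti₀ (by norm_num) h4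
        _ ≤ 0.4746 := by norm_num
    linarith
  have hpos : 0 < Real.log (x / 1.7918 - 1) := by linarith
  -- polynomial inequality
  have hpoly : w ^ 2 + 0.2547 * w ≤ 0.2547 * x := by
    rw [hxe]
    have h1 : 2.718 * (1 + w + w ^ 2 / 2 + w ^ 3 / 6 + w ^ 4 / 24) ≤
        Real.exp 1 * Real.exp w := by
      apply mul_le_mul (by linarith) _ (by positivity) (by positivity)
      linarith
    nlinarith [sq_nonneg (w ^ 2 + 2 * w - 7), sq_nonneg (w - 1.9), sq_nonneg (w ^ 2 - 4)]
  refine ⟨by linarith, ?_, hpos⟩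
  have hden : 0 < x + 1 - z := by
    have : w ^ 2 ≤ 0.2547 * (x - w) := by linarith
    nlinarith [sq_nonneg w]
  have hkey : x * w ≤ (x + 1 - z) * Real.log (x / 1.7918 - 1) := by
    have h1 : (x + 1 - z) * (z - 0.7453) ≤ (x + 1 - z) * Real.log (x / 1.7918 - 1) :=
      mul_le_mul_of_nonneg_left hlow hden.le
    refine le_trans ?_ h1
    have e1 : x + 1 - z = x - w := by rw [hw]; ring
    have e2 : z - 0.7453 = w + 0.2547 := by rw [hw]; ring
    rw [e1, e2]
    nlinarith
  have hw0 : 0 < z - 1 := by linarith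
  rw [← le_sub_iff_add_le', div_le_iff₀ hpos]
  have e3 : x / (z - 1) - 1 = (x + 1 - z) / w := by rw [hw]; field_simp; ring
  rw [e3, div_mul_eq_mul_div, le_div_iff₀ (by linarith)]
  exact hkey

/-- the exponent is sharp: positive integers -/
theorem up {N : ℕ} (hN : Real.exp 12 ≤ N) : ∃ A : Finset ℤ, 2 ≤ A.card ∧ (∀ a ∈ A, 0 < a) ∧
    max ((sumset N A).card : ℝ) ((prodset fun _ : Fin N => A).card : ℝ) ≤
      (A.card : ℝ) ^ (Real.log N / (Real.log (Real.log N) - 1)) := by
  have hN0 : (0:ℝ) < N := lt_of_lt_of_le (Real.exp_pos 12) hN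
  have hN1 : 1 ≤ N := by
    have : 0 < N := by exact_mod_cast hN0
    omega
  set x := Real.log N with hx
  have hx12 : 12 ≤ x := by rw [hx, Real.le_log_iff_exp_le hN0]; exact hN
  obtain ⟨h1, h2, h3⟩ := up_real hx12
  have hl6 := log6
  have hl6' := log6_pos
  have hl60 : 0 < Real.log 6 := by linarith
  set M := ⌊x / Real.log 6⌋₊ with hM
  have hMle : (M:ℝ) * Real.log 6 ≤ x := by
    have := Nat.floor_le (show 0 ≤ x / Real.log 6 by positivity)
    rwa [le_div_iff₀ hl60] at this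
  have hMge : x / 1.7918 - 1 ≤ M := by
    have h4 := Nat.lt_floor_add_one (x / Real.log 6)
    have h5 : x / 1.7918 ≤ x / Real.log 6 := div_le_div_of_nonneg_left (by linarith) hl60 hl6
    rw [← hM] at h4
    linarith
  have hM5 : (5:ℝ) ≤ M := by
    refine le_trans ?_ hMge
    rw [le_sub_iff_add_le, le_div_iff₀ (by norm_num)]
    linarith
  have hM5' : 5 ≤ M := by exact_mod_cast hM5
  have h6N : (6:ℝ) ^ M ≤ N := by
    have : (6:ℝ) ^ M = Real.exp (M * Real.log 6) := by
      rw [← Real.log_pow, Real.exp_log (by positivity)]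
    rw [this]
    calc Real.exp (M * Real.log 6) ≤ Real.exp x := Real.exp_le_exp.2 hMle
      _ = N := by rw [hx, Real.exp_log hN0]
  have hcard : ((ex M).card : ℝ) = (M:ℝ) ^ 2 := by rw [ex_card]; push_cast; ring
  refine ⟨ex M, by rw [ex_card]; nlinarith, fun a ha => ex_pos ha, ?_⟩
  have hlogM : 0 < Real.log M := by
    refine lt_of_lt_of_le h3 (Real.log_le_log ?_ hMge)
    by_contra hcon
    push Not at hcon
    have : x / 1.7918 - 1 ≥ 5 := by
      rw [ge_iff_le, le_sub_iff_add_le, le_div_iff₀ (by norm_num)]; linarith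
    linarith
  have hM0 : (0:ℝ) < M := by linarith
  -- everything is at most (N M)^2
  have hb : ((N:ℝ) * M) ^ 2 ≤ ((ex M).card : ℝ) ^ (x / (Real.log x - 1)) := by
    have e1 : ((N:ℝ) * M) ^ 2 = ((ex M).card : ℝ) ^ (1 + x / Real.log M) := by
      rw [hcard, ← Real.rpow_natCast, ← Real.rpow_natCast, ← Real.rpow_mul hM0.le,
        Real.rpow_def_of_pos (by positivity), Real.rpow_def_of_pos hM0,
        Real.log_mul hN0.ne' hM0.ne', ← hx]
      congr 1
      push_cast
      field_simp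
      ring
    rw [e1]
    apply Real.rpow_le_rpow_of_exponent_le
    · rw [hcard]; nlinarith
    · refine le_trans ?_ h2
      have hu0 : 0 < x / 1.7918 - 1 := by
        rw [sub_pos, lt_div_iff₀ (by norm_num)]; linarith
      have h7 : Real.log (x / 1.7918 - 1) ≤ Real.log M := Real.log_le_log hu0 hMge
      have : x / Real.log M ≤ x / Real.log (x / 1.7918 - 1) :=
        div_le_div_of_nonneg_left (by linarith) h3 h7
      linarith
  refine le_trans ?_ hb
  apply max_le
  · have h8 := ex_sum M hN1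
    have h9 : ((sumset N (ex M)).card : ℝ) ≤ (N:ℝ) * 6 ^ (M - 1) := by exact_mod_cast h8
    have h10 : (6:ℝ) ^ (M - 1) ≤ 6 ^ M := pow_le_pow_right₀ (by norm_num) (by omega)
    calc _ ≤ _ := h9
      _ ≤ (N:ℝ) * N := mul_le_mul_of_nonneg_left (h10.trans h6N) hN0.le
      _ ≤ ((N:ℝ) * M) ^ 2 := by
          have : (1:ℝ) ≤ M ^ 2 := by nlinarith
          have : (N:ℝ) * N * 1 ≤ N * N * M ^ 2 := mul_le_mul_of_nonneg_left this (by positivity)
          nlinarith
  · have h8 := ex_prod M hN1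
    exact_mod_cast h8

end Pool.Agent.N811.IS
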