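import Pool.Agent.N811.IS.Kap
import Pool.Agent.N811.SP.Final2

set_option autoImplicit false

/-! The threshold for the number of factors. -/

namespace Pool.Agent.N811.IS

open Finset
open scoped Pointwise

lemma sumset_card_le (A : Finset ℤ) (k : ℕ) :
    (sumset k A).card ≤ (A.card + k - 1).choose k := by
  have hsub : sumset k A ⊆ (Finset.univ : Finset (Sym A k)).image
      fun s => (s.1.map fun a : A => (a : ℤ)).sum := by
    intro x hx
    unfold sumset at hx
    obtain ⟨f, hf, rfl⟩ := Finset.mem_image.1 hx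
    rw [Fintype.mem_piFinset] at hf
    refine Finset.mem_image.2 ⟨⟨Multiset.map (fun i => ⟨f i, hf i⟩) Finset.univ.val, by simp⟩,
      Finset.mem_univ _, ?_⟩
    simp [Finset.sum]
    rfl
  have h := Finset.card_le_card hsub
  refine h.trans (Finset.card_image_le.trans ?_)
  rw [Finset.card_univ, Sym.card_sym_eq_choose, Fintype.card_coe]

/-- geometric progressions -/
def gp (M : ℕ) : Finset ℤ := (Finset.range M).image fun i => 2 ^ i

lemma gp_card (M : ℕ) : (gp M).card = M := by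
  unfold gp
  rw [Finset.card_image_of_injective _ (pow_right_injective₀ (by norm_num) (by norm_num)),
    Finset.card_range]

lemma gp_pos {M : ℕ} {a : ℤ} (ha : a ∈ gp M) : 0 < a := by
  unfold gp at ha
  obtain ⟨i, _, rfl⟩ := Finset.mem_image.1 ha
  positivity

lemma gp_prod (M n : ℕ) (hM : 1 ≤ M) :
    (prodset fun _ : Fin n => gp M).card ≤ n * (M - 1) + 1 := by
  have hsub : (prodset fun _ : Fin n => gp M) ⊆ gp (n * (M - 1) + 1) := by
    intro x hx
    obtain ⟨f, hf, rfl⟩ := (mem_prodset _ _).1 hx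
    have hch : ∀ i, ∃ p : ℕ, p < M ∧ (2:ℤ) ^ p = f i := by
      intro i
      have := hf i
      unfold gp at this
      obtain ⟨p, hp, he⟩ := Finset.mem_image.1 this
      exact ⟨p, Finset.mem_range.1 hp, he⟩
    choose p h1 h2 using hch
    have e : ∏ i, f i = 2 ^ (∑ i, p i) := by
      rw [← Finset.prod_pow_eq_pow_sum]
      exact Finset.prod_congr rfl fun i _ => (h2 i).symm
    rw [e]
    unfold gp
    refine Finset.mem_image.2 ⟨∑ i, p i, ?_, rfl⟩
    rw [Finset.mem_range]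
    have s1 : ∑ i, p i ≤ ∑ _i : Fin n, (M - 1) :=
      Finset.sum_le_sum fun i _ => by have := h1 i; omega
    simp at s1
    omega
  have := Finset.card_le_card hsub
  rwa [gp_card] at this

/-- many factors suffice -/
theorem thr_up {k n : ℕ} (hk : 4 ≤ k) {α b : ℝ} (hα : α < 1) (hb : 1 < b)
    (hn : (2 * k - 1 : ℝ) ^ ((b - 1) / (1 - α)) ≤ n) (A : Finset ℤ) (hA : A.Nonempty)
    (hAp : ∀ a ∈ A, 0 < a) :
    (A.card : ℝ) ^ (α * k) ≤ ((sumset k A).card : ℝ) ∨
      (A.card : ℝ) ^ b ≤ ((prodset fun _ : Fin n => A).card : ℝ) := by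
  by_contra hcon
  push Not at hcon
  obtain ⟨h1, h2⟩ := hcon
  have hk4 : (4:ℝ) ≤ k := by exact_mod_cast hk
  have hK : (1:ℝ) < 2 * k - 1 := by linarith
  have hexp : 0 < (b - 1) / (1 - α) := div_pos (by linarith) (by linarith)
  have hn1 : (1:ℝ) < n := lt_of_lt_of_le (Real.one_lt_rpow hK hexp) hn
  have hn2 : 2 ≤ n := by
    have : 1 < n := by exact_mod_cast hn1
    omega
  have hlogn : 0 < Real.log n := Real.log_pos hn1
  have hlogK : 0 < Real.log (2 * k - 1) := Real.log_pos hK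
  set β : ℝ := Real.log (2 * k - 1) / Real.log n with hβ
  have hβ0 : 0 < β := by positivity
  have hβe : (2 * k - 1 : ℝ) ≤ (n:ℝ) ^ β := by
    rw [Real.rpow_def_of_pos (by linarith), hβ, mul_div_cancel₀ _ hlogn.ne',
      Real.exp_log (by linarith)]
  have hmain := Pool.Agent.N811.SP.single2 (by omega : 3 ≤ k) hn2 (by omega) hβe A hA hAp
  have hcard : (1:ℝ) ≤ A.card := by exact_mod_cast hA.card_pos
  have hP1 : (1:ℝ) ≤ ((prodset fun _ : Fin n => A).card : ℝ) := by
    have := card_le_prodset vrInt (fun _ : Fin n => A) (fun _ => hA) (fun _ => hAp) ⟨0, by omega⟩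
    have h3 : (A.card : ℝ) ≤ ((prodset fun _ : Fin n => A).card : ℝ) := by exact_mod_cast this
    linarith
  have hcard2 : (1:ℝ) < A.card := by
    rcases hcard.eq_or_lt with h | h
    · rw [← h, Real.one_rpow] at h2
      linarith
    · exact h
  have hlogA : 0 < Real.log A.card := Real.log_pos hcard2
  have hkβ : 0 < (k:ℝ) * β := by positivity
  have h3 : (A.card : ℝ) ^ ((k : ℝ) * (1 + β)) <
      (A.card : ℝ) ^ (α * k) * ((A.card : ℝ) ^ b) ^ ((k : ℝ) * β) := by
    refine lt_of_le_of_lt hmain ?_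
    have hs1 : (0:ℝ) < ((Pool.Agent.H384R3.SPk.sumset k A).card : ℝ) := by
      exact_mod_cast (sumset_nonempty k hA).card_pos
    apply mul_lt_mul'' h1 _ hs1.le (by positivity)
    exact Real.rpow_lt_rpow (by positivity) h2 hkβ
  rw [← Real.rpow_mul (by linarith), ← Real.rpow_add (by linarith)] at h3
  have h4 := (Real.rpow_lt_rpow_left_iff hcard2).1 h3
  have h5 : (1 - α) < β * (b - 1) := by
    have : (k:ℝ) * (1 - α) < k * (β * (b - 1)) := by nlinarith
    exact lt_of_mul_lt_mul_left this (by linarith)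
  have h6 : (b - 1) / (1 - α) * Real.log (2 * k - 1) ≤ Real.log n := by
    rw [← Real.log_rpow (by linarith)]
    exact Real.log_le_log (by positivity) hn
  rw [hβ, div_mul_eq_mul_div, lt_div_iff₀ hlogn] at h5
  have h7 : (1 - α) * ((b - 1) / (1 - α) * Real.log (2 * k - 1)) ≤ (1 - α) * Real.log n :=
    mul_le_mul_of_nonneg_left h6 (by linarith)
  have e : (1 - α) * ((b - 1) / (1 - α) * Real.log (2 * k - 1)) =
      Real.log (2 * k - 1) * (b - 1) := by
    have : (1 - α) ≠ 0 := by linarith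
    field_simp
  linarith

/-- fewer factors do not -/
theorem thr_low {k n : ℕ} (hn1 : 1 ≤ n) {α b : ℝ} (hα0 : 0 < α) (hα : α < 1) (hb : 1 < b)
    (hk : (11:ℝ) ≤ (k:ℝ) ^ α) (hn : (n:ℝ) ≤ ((k:ℝ) / 11) ^ ((b - 1) / (1 - α))) :
    ∃ A : Finset ℤ, A.Nonempty ∧ (∀ a ∈ A, 0 < a) ∧
      ((sumset k A).card : ℝ) < (A.card : ℝ) ^ (α * k) ∧
      ((prodset fun _ : Fin n => A).card : ℝ) < (A.card : ℝ) ^ b := by
  have h1α : 0 < 1 - α := by linarith
  -- `k ≥ 11`
  have hk11 : (11:ℝ) ≤ k := by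
    by_contra hcon
    push Not at hcon
    have hk1 : (1:ℝ) ≤ k := by
      by_contra h
      push Not at h
      have : (k:ℝ) ^ α ≤ 1 := Real.rpow_le_one (by positivity) h.le hα0.le
      linarith
    have : (k:ℝ) ^ α ≤ (k:ℝ) ^ (1:ℝ) := Real.rpow_le_rpow_of_exponent_le hk1 hα.le
    rw [Real.rpow_one] at this
    linarith
  have hk0 : (0:ℝ) < k := by linarith
  have he1 := Real.exp_one_lt_d9
  have he0 := Real.exp_pos 1
  set e := Real.exp 1 with he
  set y : ℝ := ((k:ℝ) / (2 * e)) ^ (1 / (1 - α)) with hy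
  have hy0 : 0 < y := by positivity
  have hyp : y ^ (1 - α) = (k:ℝ) / (2 * e) := by
    rw [hy, ← Real.rpow_mul (by positivity)]
    have : 1 / (1 - α) * (1 - α) = 1 := by field_simp
    rw [this, Real.rpow_one]
  -- `y ≥ k + 1`
  have hyk : (k:ℝ) + 1 ≤ y := by
    by_contra hcon
    push Not at hcon
    have h1 : y ^ (1 - α) < ((k:ℝ) + 1) ^ (1 - α) := Real.rpow_lt_rpow hy0.le hcon h1α
    rw [hyp] at h1
    have h2 : ((k:ℝ) + 1) ^ (1 - α) ≤ (2 * k) ^ (1 - α) :=
      Real.rpow_le_rpow (by positivity) (by linarith) h1α.le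
    rw [Real.mul_rpow (by norm_num) hk0.le] at h2
    have h3 : (2:ℝ) ^ (1 - α) ≤ 2 := by
      have : (2:ℝ) ^ (1 - α) ≤ 2 ^ (1:ℝ) :=
        Real.rpow_le_rpow_of_exponent_le (by norm_num) (by linarith)
      rwa [Real.rpow_one] at this
    have hkk : (k:ℝ) ^ (1 - α) * (k:ℝ) ^ α = k := by
      rw [← Real.rpow_add hk0]; norm_num
    have hkp : 0 < (k:ℝ) ^ (1 - α) := by positivity
    have h4 : (k:ℝ) / (2 * e) < 2 * (k:ℝ) ^ (1 - α) := by nlinarith
    rw [div_lt_iff₀ (by positivity)] at h4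
    have h5 : (k:ℝ) ^ (1 - α) * 11 ≤ k := by
      calc (k:ℝ) ^ (1 - α) * 11 ≤ (k:ℝ) ^ (1 - α) * (k:ℝ) ^ α :=
            mul_le_mul_of_nonneg_left hk hkp.le
        _ = k := hkk
    have h6 : (k:ℝ) < (k:ℝ) ^ (1 - α) * (4 * e) := by
      calc (k:ℝ) < 2 * (k:ℝ) ^ (1 - α) * (2 * e) := h4
        _ = _ := by ring
    have h7 : (k:ℝ) ^ (1 - α) * (4 * e) ≤ (k:ℝ) ^ (1 - α) * 11 :=
      mul_le_mul_of_nonneg_left (by linarith) hkp.le
    linarith
  set M := ⌈y⌉₊ - 1 with hM
  have hc1 : y ≤ ⌈y⌉₊ := Nat.le_ceil y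
  have hc2 : (⌈y⌉₊ : ℝ) < y + 1 := Nat.ceil_lt_add_one hy0.le
  have hcpos : 1 ≤ ⌈y⌉₊ := Nat.one_le_ceil_iff.2 hy0
  have hMr : (M:ℝ) = (⌈y⌉₊ : ℝ) - 1 := by rw [hM]; push_cast [Nat.cast_sub hcpos]; ring
  have hMy : (M:ℝ) < y := by rw [hMr]; linarith
  have hMy2 : y - 1 ≤ M := by rw [hMr]; linarith
  have hMk : (k:ℝ) ≤ M := by linarith
  have hM0 : (0:ℝ) < M := by linarith
  have hMn : 1 ≤ M := by
    have : 0 < M := by exact_mod_cast hM0
    omega
  have hMα : (M:ℝ) ^ (1 - α) < (k:ℝ) / (2 * e) := by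
    rw [← hyp]
    exact Real.rpow_lt_rpow hM0.le hMy h1α
  refine ⟨gp M, ?_, fun a ha => gp_pos ha, ?_, ?_⟩
  · rw [← Finset.card_pos, gp_card]; omega
  · rw [gp_card]
    have h1 : ((sumset k (gp M)).card : ℝ) ≤ ((M + k - 1).choose k : ℝ) := by
      have := sumset_card_le (gp M) k
      rw [gp_card] at this
      exact_mod_cast this
    have h2 : ((M + k - 1).choose k : ℝ) ≤ ((M + k - 1 : ℕ) : ℝ) ^ k / (k.factorial : ℝ) :=
      Nat.choose_le_pow_div k (M + k - 1)
    have h3 : ((M + k - 1 : ℕ) : ℝ) ≤ 2 * M := by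
      have : M + k - 1 ≤ 2 * M := by
        have : k ≤ M := by exact_mod_cast hMk
        omega
      exact_mod_cast this
    have h4 : ((k:ℝ) / e) ^ k ≤ k.factorial := by
      have h5 := Real.pow_div_factorial_le_exp (k:ℝ) hk0.le k
      have h6 : Real.exp k = e ^ k := by rw [he, ← Real.exp_nat_mul, mul_one]
      rw [h6, div_le_iff₀ (by positivity)] at h5
      rw [div_pow, div_le_iff₀ (by positivity)]
      linarith
    have hf : (0:ℝ) < k.factorial := by positivity
    have h7 : ((M + k - 1 : ℕ) : ℝ) ^ k / (k.factorial : ℝ) ≤ (2 * M / (k / e)) ^ k := by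
      rw [div_pow]
      exact div_le_div₀ (by positivity) (pow_le_pow_left₀ (by positivity) h3 k)
        (by positivity) h4
    have h8 : 2 * (M:ℝ) / (k / e) < (M:ℝ) ^ α := by
      have hsplit : (M:ℝ) ^ (1 - α) * (M:ℝ) ^ α = M := by
        rw [← Real.rpow_add hM0]; norm_num
      have hMαp : 0 < (M:ℝ) ^ α := by positivity
      have h9 : (M:ℝ) < (k:ℝ) / (2 * e) * (M:ℝ) ^ α := by
        calc (M:ℝ) = (M:ℝ) ^ (1 - α) * (M:ℝ) ^ α := hsplit.symm
          _ < _ := mul_lt_mul_of_pos_right hMα hMαp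
      rw [div_lt_iff₀ (by positivity)]
      calc 2 * (M:ℝ) < 2 * ((k:ℝ) / (2 * e) * (M:ℝ) ^ α) := by linarith
        _ = _ := by field_simp
    calc ((sumset k (gp M)).card : ℝ) ≤ (2 * M / (k / e)) ^ k := h1.trans (h2.trans h7)
      _ < ((M:ℝ) ^ α) ^ k := by
          apply pow_lt_pow_left₀ h8 (by positivity)
          have : 0 < k := by exact_mod_cast hk0
          omega
      _ = _ := by rw [← Real.rpow_natCast, ← Real.rpow_mul hM0.le]
  · rw [gp_card]
    have h1 : ((prodset fun _ : Fin n => gp M).card : ℝ) ≤ (n:ℝ) * (M - 1) + 1 := by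
      have := gp_prod M n hMn
      have h2 : ((prodset fun _ : Fin n => gp M).card : ℝ) ≤ ((n * (M - 1) + 1 : ℕ) : ℝ) := by
        exact_mod_cast this
      push_cast [Nat.cast_sub hMn] at h2
      exact h2
    have hn1' : (1:ℝ) ≤ n := by exact_mod_cast hn1
    -- `n ≤ M^(b-1)`
    have h2 : (n:ℝ) ≤ (M:ℝ) ^ (b - 1) := by
      have h3 : ((k:ℝ) / 11) ^ (1 / (1 - α)) ≤ M := by
        have h4 : ((k:ℝ) / 11) ^ (1 / (1 - α)) ≤ ((k:ℝ) / (2 * e) / 2) ^ (1 / (1 - α)) := by
          apply Real.rpow_le_rpow (by positivity) _ (by positivity)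
          rw [div_div]
          exact div_le_div_of_nonneg_left hk0.le (by positivity) (by linarith)
        have h5 : ((k:ℝ) / (2 * e) / 2) ^ (1 / (1 - α)) = y / 2 ^ (1 / (1 - α)) := by
          rw [Real.div_rpow (by positivity) (by norm_num)]
        have h6 : (2:ℝ) ≤ 2 ^ (1 / (1 - α)) := by
          have : (2:ℝ) ^ (1:ℝ) ≤ 2 ^ (1 / (1 - α)) := by
            apply Real.rpow_le_rpow_of_exponent_le (by norm_num)
            rw [le_div_iff₀ h1α]; linarith
          rwa [Real.rpow_one] at this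
        have h7 : y / 2 ^ (1 / (1 - α)) ≤ y / 2 :=
          div_le_div_of_nonneg_left hy0.le (by norm_num) h6
        rw [h5] at h4
        linarith
      have h8 : ((k:ℝ) / 11) ^ ((b - 1) / (1 - α)) =
          (((k:ℝ) / 11) ^ (1 / (1 - α))) ^ (b - 1) := by
        rw [← Real.rpow_mul (by positivity)]; congr 1; ring
      rw [h8] at hn
      exact hn.trans (Real.rpow_le_rpow (by positivity) h3 (by linarith))
    have h9 : (M:ℝ) ^ b = (M:ℝ) ^ (b - 1) * M := by
      have : (M:ℝ) ^ b = (M:ℝ) ^ (b - 1 + 1) := by congr 1; ring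
      rw [this, Real.rpow_add hM0, Real.rpow_one]
    refine lt_of_le_of_lt h1 ?_
    rcases hn1'.eq_or_lt with h10 | h10
    · have hMb : (1:ℝ) < (M:ℝ) ^ (b - 1) := Real.one_lt_rpow (by linarith) (by linarith)
      rw [h9, ← h10]
      nlinarith
    · rw [h9]
      have := mul_le_mul_of_nonneg_right h2 hM0.le
      nlinarith

end Pool.Agent.N811.IS
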