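import Pool.Agent.N811.IS.Step
import Pool.Agent.H384R3.SPk.Asm
import Pool.Agent.H384R3.SPk.E

set_option autoImplicit false

/-! The induction over valuation classes in an abstract ring with valuations. -/

namespace Pool.Agent.N811.IS

open Finset
open scoped Pointwise

universe u

/-- a commutative ring with a set `S` of elements which are determined by their valuations, such
that the elements of valuation at least `j` lie in a subgroup `H` -/
structure VR (R : Type u) [CommRing R] where
  /-- index set of the valuations -/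
  ι : Type
  /-- the elements considered -/
  S : Set R
  /-- the valuations -/
  v : ι → R → ℕ
  /-- the subgroups -/
  H : ι → ℕ → AddSubgroup R
  one_mem : (1 : R) ∈ S
  mul_mem : ∀ a ∈ S, ∀ b ∈ S, a * b ∈ S
  v_one : ∀ i, v i 1 = 0
  v_mul : ∀ i, ∀ a ∈ S, ∀ b ∈ S, v i (a * b) = v i a + v i b
  mem_H : ∀ i j, ∀ a ∈ S, a ∈ H i j ↔ j ≤ v i a
  sep : ∀ a ∈ S, ∀ b ∈ S, (∀ i, v i a = v i b) → a = b
  /-- translations by products are injective -/
  inj : ∀ c ∈ S, ∀ a ∈ S, ∀ b ∈ S, a * c = b * c → a = b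

section
variable {R : Type u} [CommRing R] [DecidableEq R] (V : VR R)

/-- product set of a family of sets -/
def prodset {n : ℕ} (A : Fin n → Finset R) : Finset R :=
  (Fintype.piFinset A).image fun f => ∏ i, f i

lemma mem_prodset {n : ℕ} (A : Fin n → Finset R) (x : R) :
    x ∈ prodset A ↔ ∃ f : Fin n → R, (∀ i, f i ∈ A i) ∧ ∏ i, f i = x := by
  simp [prodset, Fintype.mem_piFinset]

lemma prodset_mono {n : ℕ} {A B : Fin n → Finset R} (h : ∀ i, A i ⊆ B i) :
    prodset A ⊆ prodset B := by
  intro x hx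
  rw [mem_prodset] at hx ⊢
  obtain ⟨f, hf, rfl⟩ := hx
  exact ⟨f, fun i => h i (hf i), rfl⟩

variable {V} in
lemma prod_memS {n : ℕ} (s : Finset (Fin n)) (f : Fin n → R) (h : ∀ i, f i ∈ V.S) :
    ∏ i ∈ s, f i ∈ V.S := by
  classical
  induction s using Finset.induction_on with
  | empty => simpa using V.one_mem
  | insert a s ha ih =>
    rw [Finset.prod_insert ha]
    exact V.mul_mem _ (h a) _ ih

variable {V} in
lemma val_prod (i : V.ι) {n : ℕ} (s : Finset (Fin n)) (f : Fin n → R) (h : ∀ j, f j ∈ V.S) :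
    V.v i (∏ j ∈ s, f j) = ∑ j ∈ s, V.v i (f j) := by
  classical
  induction s using Finset.induction_on with
  | empty => simpa using V.v_one i
  | insert a s ha ih =>
    rw [Finset.prod_insert ha, Finset.sum_insert ha, V.v_mul i _ (h a) _ (prod_memS s f h), ih]

/-- the product set induction -/
theorem ind {n : ℕ} (hn : 1 ≤ n) (P : Finset R → ℝ) (hP0 : ∀ A, 0 ≤ P A)
    (hsplit : ∀ (i : V.ι) (A A₀ A' : Finset R) (j : ℕ), (∀ a ∈ A, a ∈ V.S) → A₀.Nonempty →
      A'.Nonempty → Disjoint A₀ A' → A₀ ∪ A' = A → (∀ a ∈ A₀, V.v i a = j) →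
      (∀ a ∈ A', j < V.v i a) → P A ^ n ≤ P A₀ ^ n + P A' * P A ^ (n - 1))
    (hone : ∀ a : R, a ∈ V.S → P {a} ≤ 1) (A : Fin n → Finset R) (hne : ∀ i, (A i).Nonempty)
    (hpos : ∀ i, ∀ a ∈ A i, a ∈ V.S) : ∏ i, P (A i) ≤ ((prodset A).card : ℝ) := by
  classical
  suffices H : ∀ N : ℕ, ∀ A : Fin n → Finset R, ∑ i, (A i).card ≤ N → (∀ i, (A i).Nonempty) →
      (∀ i, ∀ a ∈ A i, a ∈ V.S) → ∏ i, P (A i) ≤ ((prodset A).card : ℝ) from
    H _ A le_rfl hne hpos
  intro N
  induction N with
  | zero =>
    intro A hN hne _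
    exfalso
    have h1 : (A ⟨0, hn⟩).card ≤ ∑ i, (A i).card :=
      Finset.single_le_sum (f := fun i => (A i).card) (fun i _ => Nat.zero_le _)
        (Finset.mem_univ _)
    have h2 := (hne ⟨0, hn⟩).card_pos
    omega
  | succ N ih =>
    intro A hN hne hpos
    by_cases hcase : ∀ p : V.ι, ∀ i, ∀ a ∈ A i, ∀ a' ∈ A i, V.v p a = V.v p a'
    · have h1 : ∀ i, P (A i) ≤ 1 := by
        intro i
        obtain ⟨a, ha⟩ := hne i
        have hs : A i = {a} := by
          refine Finset.eq_singleton_iff_unique_mem.2 ⟨ha, fun b hb => ?_⟩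
          exact V.sep b (hpos i b hb) a (hpos i a ha) (fun p => hcase p i b hb a ha)
        rw [hs]
        exact hone a (hpos i a ha)
      have h2 : ∏ i, P (A i) ≤ 1 := Finset.prod_le_one (fun i _ => hP0 _) (fun i _ => h1 i)
      have h3 : (prodset A).Nonempty := by
        choose f hf using hne
        exact ⟨∏ i, f i, (mem_prodset A _).2 ⟨f, hf, rfl⟩⟩
      have h4 : (1 : ℝ) ≤ ((prodset A).card : ℝ) := by exact_mod_cast h3.card_pos
      linarith
    · push Not at hcase
      obtain ⟨p, i₀, a, ha, a', ha', hne'⟩ := hcase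
      have hch : ∀ i, ∃ (j : ℕ) (A₀ A₁ : Finset R), A₀.Nonempty ∧ Disjoint A₀ A₁ ∧
          A₀ ∪ A₁ = A i ∧ (∀ a ∈ A₀, V.v p a = j) ∧ (∀ a ∈ A₁, j < V.v p a) := by
        intro i
        obtain ⟨b, hb, hmin⟩ := Finset.exists_min_image (A i) (V.v p) (hne i)
        refine ⟨V.v p b, (A i).filter (fun a => V.v p a = V.v p b),
          (A i).filter (fun a => ¬ V.v p a = V.v p b),
          ⟨b, Finset.mem_filter.2 ⟨hb, rfl⟩⟩, Finset.disjoint_filter_filter_not _ _ _,
          Finset.filter_union_filter_not_eq _ _,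
          fun a ha => (Finset.mem_filter.1 ha).2, fun a ha => ?_⟩
        rw [Finset.mem_filter] at ha
        exact lt_of_le_of_ne (hmin a ha.1) (Ne.symm ha.2)
      choose j A₀ A₁ hA₀ hdis hun hv0 hv1 using hch
      have hs0 : ∀ i, A₀ i ⊆ A i := fun i => (hun i) ▸ Finset.subset_union_left
      have hs1 : ∀ i, A₁ i ⊆ A i := fun i => (hun i) ▸ Finset.subset_union_right
      have hcard : ∀ i, (A₀ i).card + (A₁ i).card = (A i).card := fun i => by
        rw [← hun i, Finset.card_union_of_disjoint (hdis i)]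
      -- the set of indices which split
      have hI : (Finset.univ.filter fun i => (A₁ i).Nonempty).Nonempty := by
        refine ⟨i₀, Finset.mem_filter.2 ⟨Finset.mem_univ _, ?_⟩⟩
        by_contra hemp
        rw [Finset.not_nonempty_iff_eq_empty] at hemp
        have h0 : A₀ i₀ = A i₀ := by rw [← hun i₀, hemp, Finset.union_empty]
        apply hne'
        rw [hv0 i₀ a (h0 ▸ ha), hv0 i₀ a' (h0 ▸ ha')]
      by_cases hzero : ∃ i, P (A i) = 0
      · obtain ⟨i, hi⟩ := hzero
        rw [Finset.prod_eq_zero (Finset.mem_univ i) hi]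
        exact Nat.cast_nonneg _
      push Not at hzero
      have hPpos : ∀ i, 0 < P (A i) := fun i => lt_of_le_of_ne (hP0 _) (hzero i).symm
      obtain ⟨k, hk, hmax⟩ := Finset.exists_max_image
        (Finset.univ.filter fun i => (A₁ i).Nonempty) (fun i => P (A₁ i) / P (A i)) hI
      have hk1 : (A₁ k).Nonempty := (Finset.mem_filter.1 hk).2
      set b : ℝ := P (A₁ k) / P (A k) with hb
      have hb0 : 0 ≤ b := div_nonneg (hP0 _) (hPpos k).le
      -- the lower bound
      have hlow : ∀ i, (1 - b) * P (A i) ^ n ≤ P (A₀ i) ^ n := by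
        intro i
        by_cases hi : (A₁ i).Nonempty
        · have h1 := hsplit p (A i) (A₀ i) (A₁ i) (j i) (hpos i) (hA₀ i) hi (hdis i) (hun i)
            (hv0 i) (hv1 i)
          have h2 : P (A₁ i) / P (A i) ≤ b :=
            hmax i (Finset.mem_filter.2 ⟨Finset.mem_univ _, hi⟩)
          have h3 : P (A₁ i) * P (A i) ^ (n - 1) = P (A₁ i) / P (A i) * P (A i) ^ n := by
            have e : P (A i) ^ n = P (A i) ^ (n - 1) * P (A i) := by
              rw [← pow_succ, Nat.sub_add_cancel hn]
            rw [e]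
            have := (hPpos i).ne'
            field_simp
          have h4 : P (A₁ i) / P (A i) * P (A i) ^ n ≤ b * P (A i) ^ n :=
            mul_le_mul_of_nonneg_right h2 (pow_nonneg (hP0 _) _)
          rw [h3] at h1
          linarith
        · rw [Finset.not_nonempty_iff_eq_empty] at hi
          have h0 : A₀ i = A i := by rw [← hun i, hi, Finset.union_empty]
          rw [h0]
          have := mul_nonneg hb0 (pow_nonneg (hP0 (A i)) n)
          linarith
      -- the two subsets of the product set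
      set A' : Fin n → Finset R := Function.update A k (A₁ k) with hA'
      have hA's : ∀ i, A' i ⊆ A i := by
        intro i
        by_cases hik : i = k
        · subst hik; rw [hA', Function.update_self]; exact hs1 i
        · rw [hA', Function.update_of_ne hik]
      have hA'ne : ∀ i, (A' i).Nonempty := by
        intro i
        by_cases hik : i = k
        · subst hik; rw [hA', Function.update_self]; exact hk1
        · rw [hA', Function.update_of_ne hik]; exact hne i
      have hprodA' : ∏ i, P (A' i) = b * ∏ i, P (A i) := by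
        rw [← Finset.mul_prod_erase Finset.univ (fun i => P (A' i)) (Finset.mem_univ k),
          ← Finset.mul_prod_erase Finset.univ (fun i => P (A i)) (Finset.mem_univ k)]
        have e1 : P (A' k) = b * P (A k) := by
          rw [hA', Function.update_self, hb]
          have := (hPpos k).ne'
          field_simp
        have e2 : ∏ i ∈ Finset.univ.erase k, P (A' i) = ∏ i ∈ Finset.univ.erase k, P (A i) := by
          apply Finset.prod_congr rfl
          intro i hi
          rw [hA', Function.update_of_ne (Finset.ne_of_mem_erase hi)]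
        rw [e1, e2]
        ring
      have hc0 := hA₀ k
      have hlt0 : ∑ i, (A₀ i).card < ∑ i, (A i).card := by
        apply Finset.sum_lt_sum (fun i _ => Finset.card_le_card (hs0 i))
        refine ⟨k, Finset.mem_univ _, ?_⟩
        have := hcard k
        have := hk1.card_pos
        omega
      have hlt1 : ∑ i, (A' i).card < ∑ i, (A i).card := by
        apply Finset.sum_lt_sum (fun i _ => Finset.card_le_card (hA's i))
        refine ⟨k, Finset.mem_univ _, ?_⟩
        rw [hA', Function.update_self]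
        have := hcard k
        have := hc0.card_pos
        omega
      have ih0 := ih A₀ (by omega) hA₀ (fun i a ha => hpos i a (hs0 i ha))
      have ih1 := ih A' (by omega) hA'ne (fun i a ha => hpos i a (hA's i ha))
      rw [hprodA'] at ih1
      have hcardle : ((prodset A₀).card : ℝ) + ((prodset A').card : ℝ) ≤
          ((prodset A).card : ℝ) := by
        have hd : Disjoint (prodset A₀) (prodset A') := by
          rw [Finset.disjoint_left]
          intro x hx hx'
          rw [mem_prodset] at hx hx'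
          obtain ⟨f, hf, hfx⟩ := hx
          obtain ⟨g, hg, hgx⟩ := hx'
          have v1 : V.v p x = ∑ i, j i := by
            rw [← hfx, val_prod p Finset.univ f (fun i => hpos i _ (hs0 i (hf i)))]
            exact Finset.sum_congr rfl fun i _ => hv0 i _ (hf i)
          have v2 : ∑ i, j i < V.v p x := by
            rw [← hgx, val_prod p Finset.univ g (fun i => hpos i _ (hA's i (hg i)))]
            apply Finset.sum_lt_sum
            · intro i _
              have := hA's i (hg i)
              rw [← hun i, Finset.mem_union] at this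
              rcases this with h | h
              · exact (hv0 i _ h).ge
              · exact (hv1 i _ h).le
            · refine ⟨k, Finset.mem_univ _, ?_⟩
              have := hg k
              rw [hA', Function.update_self] at this
              exact hv1 k _ this
          omega
        have hle : (prodset A₀).card + (prodset A').card ≤ (prodset A).card := by
          rw [← Finset.card_union_of_disjoint hd]
          exact Finset.card_le_card (Finset.union_subset (prodset_mono hs0) (prodset_mono hA's))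
        exact_mod_cast hle
      have hprodpos : 0 ≤ ∏ i, P (A i) := Finset.prod_nonneg fun i _ => hP0 _
      have hprod0pos : 0 ≤ ∏ i, P (A₀ i) := Finset.prod_nonneg fun i _ => hP0 _
      rcases le_or_gt (1 - b) 0 with h1b | h1b
      · have : ∏ i, P (A i) ≤ b * ∏ i, P (A i) := by nlinarith
        have : (0 : ℝ) ≤ ((prodset A₀).card : ℝ) := Nat.cast_nonneg _
        linarith
      · have hpow : ((1 - b) * ∏ i, P (A i)) ^ n ≤ (∏ i, P (A₀ i)) ^ n := by
          have e1 : ((1 - b) * ∏ i, P (A i)) ^ n = ∏ i, ((1 - b) * P (A i) ^ n) := by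
            rw [mul_pow, ← Finset.prod_pow, Finset.prod_mul_distrib, Finset.prod_const,
              Finset.card_univ, Fintype.card_fin]
          have e2 : (∏ i, P (A₀ i)) ^ n = ∏ i, P (A₀ i) ^ n := by
            rw [← Finset.prod_pow]
          rw [e1, e2]
          apply Finset.prod_le_prod
          · intro i _
            exact mul_nonneg h1b.le (pow_nonneg (hP0 _) _)
          · intro i _
            exact hlow i
        have h2 : (1 - b) * ∏ i, P (A i) ≤ ∏ i, P (A₀ i) :=
          le_of_pow_le_pow_left₀ (by omega) hprod0pos hpow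
        linarith

/-- one set embeds in the product set of a family -/
lemma card_le_prodset {n : ℕ} (A : Fin n → Finset R) (hA : ∀ i, (A i).Nonempty)
    (hAp : ∀ i, ∀ a ∈ A i, a ∈ V.S) (j : Fin n) : (A j).card ≤ (prodset A).card := by
  classical
  choose b hb using hA
  apply Finset.card_le_card_of_injOn (fun x => ∏ i, Function.update b j x i)
  · intro x hx
    unfold prodset
    simp only [Finset.coe_image, Set.mem_image, Finset.mem_coe, Fintype.mem_piFinset]
    refine ⟨Function.update b j x, fun i => ?_, rfl⟩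
    by_cases h : i = j
    · subst h; simpa using hx
    · rw [Function.update_of_ne h]; exact hb i
  · intro x hx y hy hxy
    simp only [Finset.prod_update_of_mem (Finset.mem_univ j)] at hxy
    exact V.inj _ (prod_memS _ b fun i => hAp i _ (hb i)) x (hAp j x hx) y (hAp j y hy) hxy

open Pool.Agent.H384R3.SPk in
/-- the isoperimetric form of the main theorem, at the critical exponent -/
theorem main_crit {n : ℕ} (hn : 2 ≤ n) {θ c β : ℝ} (hθ : 1 / 2 ≤ θ) (hθ1 : θ < 1)
    (hc : 0 < c) (hcθ : c ≤ 2 ^ (1 - θ) - 1) (hβ : 0 < β)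
    (hcβ : ((n : ℝ) - (n - 1) * c) ^ β = 1 / c)
    (A : Fin n → Finset R) (hAn : ∀ i, (A i).Nonempty) (hAp : ∀ i, ∀ a ∈ A i, a ∈ V.S) :
    ∏ i, q n β ((A i).card : ℝ) (rho θ (A i)) ≤ ((prodset A).card : ℝ) := by
  have hn1 : 1 ≤ n := by omega
  have hX2 : (2:ℝ) ^ (1 - θ) < 2 := by
    have : (2:ℝ) ^ (1 - θ) < 2 ^ (1:ℝ) :=
      Real.rpow_lt_rpow_of_exponent_lt (by norm_num) (by linarith)
    rwa [Real.rpow_one] at this
  have hc1 : c < 1 := by linarith
  refine ind V hn1 (fun A => q n β ((A.card : ℝ)) (rho θ A)) ?_ ?_ ?_ A hAn hAp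
  · intro A
    exact q_nonneg n β (Nat.cast_nonneg _) (rho_nonneg θ A)
  · intro p A A₀ A' j hA0 hne0 hne' hdisj hun hv0 hv'
    have hcard : (A.card : ℝ) = A₀.card + A'.card := by
      rw [← hun, Finset.card_union_of_disjoint hdisj]; push_cast; ring
    have s0 : A₀ ⊆ A := by rw [← hun]; exact Finset.subset_union_left
    have s1 : A' ⊆ A := by rw [← hun]; exact Finset.subset_union_right
    have r0 := one_le_rho hθ1.le hne0
    have r1 := one_le_rho hθ1.le hne'
    have hR0 : rho θ A₀ ≤ rho θ A := rho_mono θ s0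
    have hstep := rho_step hθ hθ1 (V.H p (j + 1)) s0 s1
      (fun a ha h => by
        have := (V.mem_H p (j + 1) a (hA0 a (s0 ha))).1 h
        rw [hv0 a ha] at this
        omega)
      (fun a ha => (V.mem_H p (j + 1) a (hA0 a (s1 ha))).2 (hv' a ha))
    have hstep' : rho θ A' + c * rho θ A₀ ≤ rho θ A := by
      have : c * rho θ A₀ ≤ (2 ^ (1 - θ) - 1) * rho θ A₀ :=
        mul_le_mul_of_nonneg_right hcθ (by linarith)
      linarith
    have := os taskE hn hc hc1 hβ hcβ (a₀ := (A₀.card : ℝ)) (a' := (A'.card : ℝ))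
      (by exact_mod_cast hne0.card_pos) (by exact_mod_cast hne'.card_pos)
      (by linarith) (by linarith) hR0 hstep'
    rw [← hcard] at this
    exact this
  · intro a ha
    have h1 := one_le_rho (θ := θ) hθ1.le (Finset.singleton_nonempty a)
    have : (({a} : Finset R).card : ℝ) ^ (1 + β) / rho θ {a} ≤ 1 := by
      rw [Finset.card_singleton, Nat.cast_one, Real.one_rpow, div_le_one (by linarith)]
      exact h1
    have h0 : 0 ≤ (({a} : Finset R).card : ℝ) ^ (1 + β) / rho θ {a} :=
      div_nonneg (Real.rpow_nonneg (Nat.cast_nonneg _) _) (by linarith)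
    exact Real.rpow_le_one h0 this (by positivity)

end

/-- the critical exponent -/
theorem exists_crit {n : ℕ} (hn : 2 ≤ n) {c β : ℝ} (hc : 0 < c) (hc1 : c < 1)
    (h : 1 / c ≤ ((n : ℝ) - (n - 1) * c) ^ β) :
    ∃ β₀ : ℝ, 0 < β₀ ∧ β₀ ≤ β ∧ ((n : ℝ) - (n - 1) * c) ^ β₀ = 1 / c := by
  have hn2 : (2:ℝ) ≤ n := by exact_mod_cast hn
  set n' : ℝ := (n : ℝ) - (n - 1) * c with hn'
  have hn'1 : 1 < n' := by rw [hn']; nlinarith
  have hlog : 0 < Real.log n' := Real.log_pos hn'1
  have hc2 : 1 < 1 / c := by rw [lt_div_iff₀ hc]; linarith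
  have hlk : 0 < Real.log (1 / c) := Real.log_pos hc2
  refine ⟨Real.log (1 / c) / Real.log n', by positivity, ?_, ?_⟩
  · rw [div_le_iff₀ hlog, ← Real.log_rpow (by linarith)]
    exact Real.log_le_log (by linarith) h
  · rw [Real.rpow_def_of_pos (by linarith), mul_div_cancel₀ _ hlog.ne', Real.exp_log (by linarith)]

section
variable {R : Type u} [CommRing R] [DecidableEq R] (V : VR R)

open Pool.Agent.H384R3.SPk in
/-- the isoperimetric inequality for several sets -/
theorem iso_family {n : ℕ} (hn : 2 ≤ n) {θ c β : ℝ} (hθ : 1 / 2 ≤ θ) (hθ1 : θ < 1)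
    (hc : 0 < c) (hcθ : c ≤ 2 ^ (1 - θ) - 1)
    (hcβ : 1 / c ≤ ((n : ℝ) - (n - 1) * c) ^ β)
    (A : Fin n → Finset R) (hA : ∀ i, (A i).Nonempty) (hAp : ∀ i, ∀ a ∈ A i, a ∈ V.S)
    (X : Fin n → Finset R) (hX : ∀ i, (X i).Nonempty) :
    ∏ i, (((A i).card : ℝ) ^ (1 + β) * ((X i).card : ℝ) ^ θ) ≤
      (∏ i, ((A i + X i).card : ℝ)) * ((prodset A).card : ℝ) ^ ((n : ℝ) * β) := by
  have hn1 : 1 ≤ n := by omega
  have hn0 : (0:ℝ) < n := by exact_mod_cast (show 0 < n by omega)
  have hX2 : (2:ℝ) ^ (1 - θ) < 2 := by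
    have : (2:ℝ) ^ (1 - θ) < 2 ^ (1:ℝ) :=
      Real.rpow_lt_rpow_of_exponent_lt (by norm_num) (by linarith)
    rwa [Real.rpow_one] at this
  have hc1 : c < 1 := by linarith
  obtain ⟨β₀, hβ₀, hle, hcrit⟩ := exists_crit hn hc hc1 hcβ
  have hm := main_crit V hn hθ hθ1 hc hcθ hβ₀ hcrit A hA hAp
  have hR : ∀ i, 1 ≤ rho θ (A i) := fun i => one_le_rho hθ1.le (hA i)
  have hR0 : ∀ i, 0 < rho θ (A i) := fun i => by have := hR i; linarith
  have hcard : ∀ i, (1:ℝ) ≤ (A i).card := fun i => by exact_mod_cast (hA i).card_pos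
  have hPpos : (1:ℝ) ≤ (prodset A).card := by
    have := card_le_prodset V A hA hAp ⟨0, by omega⟩
    have h2 := (hA ⟨0, by omega⟩).card_pos
    exact_mod_cast (by omega : 1 ≤ (prodset A).card)
  set P : ℝ := ((prodset A).card : ℝ) with hP
  have h2 := Real.rpow_le_rpow (Finset.prod_nonneg fun i _ => q_nonneg n β₀ (Nat.cast_nonneg _)
    (hR0 i).le) hm (show 0 ≤ (n:ℝ) * β₀ by positivity)
  rw [← Real.finsetProd_rpow _ _ (fun i _ => q_nonneg n β₀ (Nat.cast_nonneg _) (hR0 i).le)] at h2
  have e1 : ∀ i ∈ (Finset.univ : Finset (Fin n)),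
      q n β₀ ((A i).card : ℝ) (rho θ (A i)) ^ ((n:ℝ) * β₀) =
        ((A i).card : ℝ) ^ (1 + β₀) / rho θ (A i) := by
    intro i _
    have := hcard i
    exact q_rpow n hn1 hβ₀ (by linarith) (hR0 i)
  rw [Finset.prod_congr rfl e1, Finset.prod_div_distrib,
    div_le_iff₀ (Finset.prod_pos fun i _ => hR0 i)] at h2
  have h3 : ∏ i, ((A i).card : ℝ) ^ (β - β₀) ≤ P ^ ((n:ℝ) * (β - β₀)) := by
    calc ∏ i, ((A i).card : ℝ) ^ (β - β₀) ≤ ∏ _i : Fin n, P ^ (β - β₀) := by
          apply Finset.prod_le_prod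
          · intro i _; have := hcard i; positivity
          · intro i _
            apply Real.rpow_le_rpow (by positivity) _ (by linarith)
            rw [hP]
            exact_mod_cast card_le_prodset V A hA hAp i
      _ = _ := by
          rw [Finset.prod_const, Finset.card_univ, Fintype.card_fin, ← Real.rpow_natCast,
            ← Real.rpow_mul (by positivity), mul_comm]
  have h4 : ∏ i, ((A i).card : ℝ) ^ (1 + β) ≤ P ^ ((n:ℝ) * β) * ∏ i, rho θ (A i) := by
    have e2 : ∏ i, ((A i).card : ℝ) ^ (1 + β) =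
        (∏ i, ((A i).card : ℝ) ^ (1 + β₀)) * ∏ i, ((A i).card : ℝ) ^ (β - β₀) := by
      rw [← Finset.prod_mul_distrib]
      refine Finset.prod_congr rfl fun i _ => ?_
      have := hcard i
      rw [← Real.rpow_add (by linarith)]
      congr 1; ring
    have e3 : P ^ ((n:ℝ) * β) = P ^ ((n:ℝ) * β₀) * P ^ ((n:ℝ) * (β - β₀)) := by
      rw [← Real.rpow_add (by linarith)]; congr 1; ring
    rw [e2, e3]
    calc _ ≤ (P ^ ((n:ℝ) * β₀) * ∏ i, rho θ (A i)) * P ^ ((n:ℝ) * (β - β₀)) := by
          apply mul_le_mul h2 h3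
          · exact Finset.prod_nonneg fun i _ => by have := hcard i; positivity
          · have : 0 ≤ ∏ i, rho θ (A i) := Finset.prod_nonneg fun i _ => (hR0 i).le
            positivity
      _ = _ := by ring
  rw [Finset.prod_mul_distrib]
  have hPn : 0 ≤ P ^ ((n:ℝ) * β) := by positivity
  calc (∏ i, ((A i).card : ℝ) ^ (1 + β)) * ∏ i, ((X i).card : ℝ) ^ θ
      ≤ (P ^ ((n:ℝ) * β) * ∏ i, rho θ (A i)) * ∏ i, ((X i).card : ℝ) ^ θ :=
        mul_le_mul_of_nonneg_right h4 (Finset.prod_nonneg fun i _ => by positivity)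
    _ = P ^ ((n:ℝ) * β) * ∏ i, (rho θ (A i) * ((X i).card : ℝ) ^ θ) := by
        rw [Finset.prod_mul_distrib]; ring
    _ ≤ P ^ ((n:ℝ) * β) * ∏ i, ((A i + X i).card : ℝ) := by
        apply mul_le_mul_of_nonneg_left _ hPn
        apply Finset.prod_le_prod
        · intro i _; have := hR0 i; positivity
        · intro i _; exact rho_mul_le θ (A i) (hX i)
    _ = _ := mul_comm _ _

/-- the isoperimetric inequality for one set -/
theorem iso_one {n : ℕ} (hn : 2 ≤ n) {θ c β : ℝ} (hθ : 1 / 2 ≤ θ) (hθ1 : θ < 1)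
    (hc : 0 < c) (hcθ : c ≤ 2 ^ (1 - θ) - 1)
    (hcβ : 1 / c ≤ ((n : ℝ) - (n - 1) * c) ^ β)
    (A : Finset R) (hA : A.Nonempty) (hAp : ∀ a ∈ A, a ∈ V.S) (X : Finset R) (hX : X.Nonempty) :
    (A.card : ℝ) ^ (1 + β) * (X.card : ℝ) ^ θ ≤
      ((A + X).card : ℝ) * ((prodset fun _ : Fin n => A).card : ℝ) ^ β := by
  have hn0 : (0:ℝ) < n := by exact_mod_cast (show 0 < n by omega)
  have h := iso_family V hn hθ hθ1 hc hcθ hcβ (fun _ => A) (fun _ => hA) (fun _ => hAp)
    (fun _ => X) (fun _ => hX)
  rw [Finset.prod_const, Finset.prod_const, Finset.card_univ, Fintype.card_fin] at h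
  have e : ((prodset fun _ : Fin n => A).card : ℝ) ^ ((n : ℝ) * β) =
      (((prodset fun _ : Fin n => A).card : ℝ) ^ β) ^ n := by
    rw [← Real.rpow_natCast, ← Real.rpow_mul (Nat.cast_nonneg _), mul_comm]
  rw [e, ← mul_pow] at h
  exact le_of_pow_le_pow_left₀ (by omega) (by positivity) h

end

end Pool.Agent.N811.IS
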