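import Pool.Agent.N811.IS.Ind

set_option autoImplicit false

/-! Rings with valuations: unique factorisation domains and powers. -/

namespace Pool.Agent.N811.IS

open Finset

section
variable {R : Type} [CommRing R] [IsDomain R] [UniqueFactorizationMonoid R]

lemma dvd_of_mult (a : R) : ∀ b : R, a ≠ 0 → b ≠ 0 →
    (∀ p, Prime p → multiplicity p a ≤ multiplicity p b) → a ∣ b := by
  induction a using UniqueFactorizationMonoid.induction_on_prime with
  | h₁ => intro b h; exact absurd rfl h
  | h₂ x hx => intro b _ _ _; exact hx.dvd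
  | h₃ a p ha hp ih =>
    intro b hpa hb h
    have f1 : FiniteMultiplicity p (p * a) := FiniteMultiplicity.of_prime_left hp hpa
    have h1 : 1 ≤ multiplicity p (p * a) := by
      rw [← f1.pow_dvd_iff_le_multiplicity]
      simp
    have h2 : p ∣ b := by
      have f2 : FiniteMultiplicity p b := FiniteMultiplicity.of_prime_left hp hb
      have := f2.pow_dvd_iff_le_multiplicity.2 (h1.trans (h p hp))
      simpa using this
    obtain ⟨b', rfl⟩ := h2
    have hb' : b' ≠ 0 := right_ne_zero_of_mul hb
    apply mul_dvd_mul_left p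
    apply ih b' ha hb'
    intro r hr
    have h3 := h r hr
    rw [multiplicity_mul hr (FiniteMultiplicity.of_prime_left hr hpa),
      multiplicity_mul hr (FiniteMultiplicity.of_prime_left hr hb)] at h3
    omega

/-- the valuations of a unique factorisation domain, on a set of pairwise non-associated nonzero
elements closed under multiplication -/
noncomputable def vrUFD (S : Set R) (h1 : (1:R) ∈ S) (hm : ∀ a ∈ S, ∀ b ∈ S, a * b ∈ S)
    (h0 : ∀ a ∈ S, a ≠ 0) (ha : ∀ a ∈ S, ∀ b ∈ S, Associated a b → a = b) : VR R where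
  ι := {p : R // Prime p}
  S := S
  v p a := multiplicity p.1 a
  H p j := (Ideal.span {p.1 ^ j}).toAddSubgroup
  one_mem := h1
  mul_mem := hm
  v_one p := (FiniteMultiplicity.of_prime_left p.2 one_ne_zero).one_right
  v_mul p a ha b hb := multiplicity_mul p.2
    (FiniteMultiplicity.of_prime_left p.2 (mul_ne_zero (h0 a ha) (h0 b hb)))
  mem_H p j a ha := by
    rw [Submodule.mem_toAddSubgroup, Ideal.mem_span_singleton]
    exact (FiniteMultiplicity.of_prime_left p.2 (h0 a ha)).pow_dvd_iff_le_multiplicity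
  sep a haS b hbS h := ha a haS b hbS (associated_of_dvd_dvd
    (dvd_of_mult a b (h0 a haS) (h0 b hbS) fun p hp => (h ⟨p, hp⟩).le)
    (dvd_of_mult b a (h0 b hbS) (h0 a haS) fun p hp => (h ⟨p, hp⟩).ge))
  inj c hc a _ b _ h := mul_right_cancel₀ (h0 c hc) h

end

/-- positive integers -/
noncomputable def vrInt : VR ℤ := vrUFD {a : ℤ | 0 < a} (by simp)
  (fun a ha b hb => by
    simp only [Set.mem_setOf_eq] at ha hb ⊢
    exact mul_pos ha hb) (fun a ha => ne_of_gt ha)
  (fun a ha b hb h => by
    have := Int.associated_iff.1 h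
    simp only [Set.mem_setOf_eq] at ha hb
    omega)

/-- monic polynomials over a field -/
noncomputable def vrPoly (K : Type) [Field K] : VR (Polynomial K) :=
  vrUFD {f | f.Monic} Polynomial.monic_one (fun a ha b hb => ha.mul hb) (fun a ha => ha.ne_zero)
  (fun _ ha _ hb h => Polynomial.eq_of_monic_of_associated ha hb h)

/-- powers of a ring -/
def vrPi {R : Type} [CommRing R] (V : VR R) (m : ℕ) : VR (Fin m → R) where
  ι := Fin m × V.ι
  S := {f | ∀ i, f i ∈ V.S}
  v p f := V.v p.2 (f p.1)
  H p j := (V.H p.2 j).comap (Pi.evalAddMonoidHom (fun _ : Fin m => R) p.1)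
  one_mem := fun _ => V.one_mem
  mul_mem _ ha _ hb i := V.mul_mem _ (ha i) _ (hb i)
  v_one p := V.v_one p.2
  v_mul p _ ha _ hb := V.v_mul p.2 _ (ha p.1) _ (hb p.1)
  mem_H p j _ ha := V.mem_H p.2 j _ (ha p.1)
  sep _ ha _ hb h := funext fun i => V.sep _ (ha i) _ (hb i) fun p => h (i, p)
  inj _ hc _ ha _ hb h := funext fun i => V.inj _ (hc i) _ (ha i) _ (hb i) (congrFun h i)

/-- tuples of positive integers -/
noncomputable def vrIntPi (m : ℕ) : VR (Fin m → ℤ) := vrPi vrInt m

end Pool.Agent.N811.IS
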