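import Pool.Agent.N811.IS.Ex

set_option autoImplicit false

/-! The Bourgain-Chang function, and the sharpness in the rings `ℤ^m`. -/

namespace Pool.Agent.N811.IS

open Finset
open scoped Pointwise

lemma exp52 : Real.exp (5 / 2) ≤ 12.19 := by
  have h1 := Real.exp_one_lt_d9
  have h2 : Real.exp (5 / 2) ^ 2 = Real.exp 1 ^ 5 := by
    rw [← Real.exp_nat_mul, ← Real.exp_nat_mul]; congr 1; norm_num
  have h3 : Real.exp 1 ^ 5 ≤ 2.7182818286 ^ 5 :=
    pow_le_pow_left₀ (Real.exp_pos 1).le h1.le 5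
  by_contra hcon
  push Not at hcon
  have h4 : (12.19:ℝ) ^ 2 < Real.exp (5 / 2) ^ 2 := pow_lt_pow_left₀ hcon (by norm_num) (by norm_num)
  rw [h2] at h4
  norm_num at h3 h4
  linarith

/-- upper bound for the Bourgain-Chang function -/
theorem kappa_up {b : ℝ} (hb : 2 ≤ b) {k : ℕ} (hk : (100 * (b * Real.log b)) ^ b ≤ k)
    (A : Finset ℤ) (hA : A.Nonempty) :
    (A.card : ℝ) ^ b ≤
      max ((sumset k A).card : ℝ) ((prodset fun _ : Fin k => A).card : ℝ) := by
  have hL1 := Real.log_two_gt_d9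
  have hL2 := Real.log_two_lt_d9
  have hcard : (1:ℝ) ≤ A.card := by exact_mod_cast hA.card_pos
  set l := Real.log b with hl
  have hl1 : 0.693 ≤ l := by
    have : Real.log 2 ≤ l := Real.log_le_log (by norm_num) hb
    linarith
  have hl0 : 0 < l := by linarith
  set B := 100 * (b * l) with hB
  have hB1 : 2 ≤ B := by nlinarith
  have hBb : (2:ℝ) ≤ B ^ b := by
    calc (2:ℝ) ≤ B := hB1
      _ = B ^ (1:ℝ) := (Real.rpow_one B).symm
      _ ≤ B ^ b := Real.rpow_le_rpow_of_exponent_le (by linarith) (by linarith)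
  have hk2 : 2 ≤ k := by
    have : (2:ℝ) ≤ k := hBb.trans hk
    exact_mod_cast this
  have hk0 : (0:ℝ) < k := by linarith
  refine le_trans ?_ (low_int hk2 A hA)
  apply Real.rpow_le_rpow_of_exponent_le hcard
  set x := Real.log k with hx
  set Λ := Real.log B with hΛ
  have hx1 : b * Λ ≤ x := by
    have := Real.log_le_log (by positivity) hk
    rwa [Real.log_rpow (by linarith)] at this
  have hx0 : Real.log 2 ≤ x := Real.log_le_log (by norm_num) (by exact_mod_cast hk2)
  have hD := den_pos (by linarith : 0.69 ≤ x)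
  rw [le_div_iff₀ (by linarith)]
  -- bounds for Λ
  have h100 : Real.log 100 ≤ 7 * Real.log 2 := by
    have : Real.log 100 ≤ Real.log ((2:ℝ) ^ 7) := Real.log_le_log (by norm_num) (by norm_num)
    rw [Real.log_pow] at this
    push_cast at this
    linarith
  have hΛe : Λ = Real.log 100 + (l + Real.log l) := by
    rw [hΛ, hB, Real.log_mul (by norm_num) (by positivity), Real.log_mul (by positivity) hl0.ne']
  have hll : Real.log l ≤ l - 1 := Real.log_le_sub_one_of_pos hl0
  have hΛ2 : Λ ≤ 8.2 * l := by linarith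
  have hΛ1 : 1 ≤ Λ := by
    rw [hΛ, Real.le_log_iff_exp_le (by linarith)]
    have := Real.exp_one_lt_d9
    nlinarith
  have hkey : 5 / 2 + l + Real.log Λ ≤ Λ := by
    have h1 : Real.log Λ ≤ Real.log (8.2 * l) := Real.log_le_log (by linarith) hΛ2
    rw [Real.log_mul (by norm_num) hl0.ne'] at h1
    have h2 : 5 / 2 + Real.log 8.2 ≤ Real.log 100 := by
      rw [Real.le_log_iff_exp_le (by norm_num), Real.exp_add, Real.exp_log (by norm_num)]
      have := exp52
      nlinarith
    rw [hΛe]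
    rw [hΛe] at h1
    linarith
  -- monotonicity
  have hb0 : 0 < b := by linarith
  have hΛ0 : 0 < Λ := by linarith
  have hxp : 0 < x := by linarith
  have hbΛ : 0 < b * Λ := mul_pos hb0 hΛ0
  have hlx : Real.log x ≤ Real.log (b * Λ) + (x / (b * Λ) - 1) := by
    have h1 : Real.log (x / (b * Λ)) ≤ x / (b * Λ) - 1 :=
      Real.log_le_sub_one_of_pos (div_pos hxp hbΛ)
    rw [Real.log_div hxp.ne' hbΛ.ne'] at h1
    linarith
  have h3 : b * (x / (b * Λ) - 1) ≤ x - b * Λ := by
    have e : b * (x / (b * Λ) - 1) = (x - b * Λ) / Λ := by field_simp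
    rw [e, div_le_iff₀ (by linarith)]
    nlinarith
  have h4 : Real.log (b * Λ) = l + Real.log Λ := by
    rw [Real.log_mul hb0.ne' (by linarith)]
  rw [h4] at hlx
  have h5 : b * Real.log x ≤ b * (l + Real.log Λ) + b * (x / (b * Λ) - 1) := by nlinarith
  nlinarith

lemma log7 : 1.94 ≤ Real.log 7 := by
  have h1 := Real.log_two_gt_d9
  have h : Real.log ((2:ℝ) ^ 14) ≤ Real.log ((7 : ℝ) ^ 5) :=
    Real.log_le_log (by norm_num) (by norm_num)
  rw [Real.log_pow, Real.log_pow] at h
  push_cast at h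
  linarith

/-- lower bound for the Bourgain-Chang function -/
theorem kappa_low {b : ℝ} (hb : 2 ≤ b) {k : ℕ} (hk1 : 1 ≤ k)
    (hk : (k : ℝ) ≤ (b * Real.log b / 16) ^ b) :
    ∃ A : Finset ℤ, A.Nonempty ∧ (∀ a ∈ A, 0 < a) ∧
      max ((sumset k A).card : ℝ) ((prodset fun _ : Fin k => A).card : ℝ) < (A.card : ℝ) ^ b := by
  have hb0 : 0 < b := by linarith
  set l := Real.log b with hl
  have hl0 : 0 < l := Real.log_pos (by linarith)
  set T := b * l / 4 with hT
  have hT0 : 0 < T := by positivity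
  have hkR : (1:ℝ) ≤ k := by exact_mod_cast hk1
  have hT4 : 4 ≤ T := by
    by_contra hcon
    push Not at hcon
    have h1 : b * l / 16 < 1 := by rw [hT] at hcon; linarith
    have h2 : (b * l / 16) ^ b < 1 := Real.rpow_lt_one (by positivity) h1 hb0
    linarith
  have hb7 : 7 ≤ b := by
    by_contra hcon
    push Not at hcon
    have he : (7:ℝ) ≤ Real.exp 2 := by
      have h := Real.sum_le_exp_of_nonneg (x := 2) (by norm_num) 7
      simp only [Finset.sum_range_succ, Finset.sum_range_zero, Nat.factorial] at h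
      norm_num at h
      linarith
    have h1 : l ≤ 2 := by
      calc l ≤ Real.log (Real.exp 2) := Real.log_le_log hb0 (by linarith)
        _ = 2 := Real.log_exp 2
    rw [hT] at hT4
    nlinarith
  have hl1 : 1.94 ≤ l := log7.trans (Real.log_le_log (by norm_num) hb7)
  set M := ⌈T⌉₊ with hM
  have hM1 : T ≤ M := Nat.le_ceil T
  have hM2 : (M:ℝ) < T + 1 := Nat.ceil_lt_add_one hT0.le
  have hM0 : (0:ℝ) < M := by linarith
  have hMn : 1 ≤ M := by
    have : 0 < M := by exact_mod_cast hM0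
    omega
  have hcard : ((ex M).card : ℝ) = (M:ℝ) ^ 2 := by rw [ex_card]; push_cast; ring
  have hcb : ((ex M).card : ℝ) ^ b = (M:ℝ) ^ b * (M:ℝ) ^ b := by
    rw [hcard, ← Real.rpow_natCast, ← Real.rpow_mul hM0.le, ← Real.rpow_add hM0]
    congr 1; push_cast; ring
  -- `k M < M^b`
  have h4b : (M:ℝ) < 4 ^ b := by
    have h1 := Real.quadratic_le_exp_of_nonneg (x := b * 1.38) (by positivity)
    have h2 : Real.exp (b * 1.38) ≤ 4 ^ b := by
      rw [Real.rpow_def_of_pos (by norm_num)]
      apply Real.exp_le_exp.2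
      have h3 : Real.log 4 = 2 * Real.log 2 := by
        have : (4:ℝ) = 2 ^ 2 := by norm_num
        rw [this, Real.log_pow]; norm_num
      have h4 := Real.log_two_gt_d9
      rw [h3]
      nlinarith
    have h5 : l ≤ b - 1 := Real.log_le_sub_one_of_pos hb0
    have h6 : T ≤ b * (b - 1) / 4 := by
      rw [hT]
      have := mul_le_mul_of_nonneg_left h5 hb0.le
      linarith
    nlinarith
  have hkM : (k:ℝ) * M < (M:ℝ) ^ b := by
    have h1 : (k:ℝ) ≤ ((M:ℝ) / 4) ^ b := by
      refine hk.trans (Real.rpow_le_rpow (by positivity) ?_ hb0.le)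
      rw [hT] at hM1; linarith
    rw [Real.div_rpow hM0.le (by norm_num)] at h1
    have h4p : (0:ℝ) < 4 ^ b := by positivity
    have hMb : (0:ℝ) < (M:ℝ) ^ b := by positivity
    calc (k:ℝ) * M ≤ (M:ℝ) ^ b / 4 ^ b * M := mul_le_mul_of_nonneg_right h1 hM0.le
      _ < (M:ℝ) ^ b / 4 ^ b * 4 ^ b := mul_lt_mul_of_pos_left h4b (by positivity)
      _ = _ := by field_simp
  -- `6^(M-1) ≤ M^(b+1)`
  have h6 : (6:ℝ) ^ (M - 1) ≤ (M:ℝ) ^ (b + 1) := by
    have hlogT : l + 1 - 4 / l ≤ Real.log T := by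
      have h1 := Real.one_sub_inv_le_log_of_pos (show 0 < l / 4 by positivity)
      have e : T = b * (l / 4) := by rw [hT]; ring
      rw [e, Real.log_mul hb0.ne' (by positivity)]
      have e2 : (l / 4)⁻¹ = 4 / l := by field_simp
      rw [e2] at h1
      linarith
    have h2 : 4 / l ≤ 1 + 0.55205 * l := by
      rw [div_le_iff₀ hl0]; nlinarith
    have h3 : 0.44795 * l ≤ Real.log M := by
      have := Real.log_le_log hT0 hM1
      linarith
    rw [← Real.log_le_log_iff (by positivity) (by positivity), Real.log_pow,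
      Real.log_rpow hM0]
    have e : ((M - 1 : ℕ) : ℝ) = (M:ℝ) - 1 := by push_cast [Nat.cast_sub hMn]; ring
    rw [e]
    have h5 : ((M:ℝ) - 1) * Real.log 6 ≤ T * 1.7918 := by
      apply mul_le_mul (by linarith) log6 (by have := log6_pos; linarith) hT0.le
    have h6 : b * (0.44795 * l) ≤ (b + 1) * Real.log M := by
      have : 0 ≤ Real.log M := Real.log_nonneg (by linarith)
      nlinarith
    rw [hT] at h5
    linarith
  refine ⟨ex M, ?_, fun a ha => ex_pos ha, ?_⟩
  · rw [← Finset.card_pos, ex_card]; positivity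
  apply max_lt
  · have h8 := ex_sum M hk1
    have h9 : ((sumset k (ex M)).card : ℝ) ≤ (k:ℝ) * 6 ^ (M - 1) := by exact_mod_cast h8
    refine lt_of_le_of_lt h9 ?_
    rw [hcb]
    have e : (M:ℝ) ^ (b + 1) = (M:ℝ) ^ b * M := by rw [Real.rpow_add hM0, Real.rpow_one]
    have hMb : (0:ℝ) < (M:ℝ) ^ b := by positivity
    calc (k:ℝ) * 6 ^ (M - 1) ≤ k * ((M:ℝ) ^ b * M) := by
          rw [← e]; exact mul_le_mul_of_nonneg_left h6 (by linarith)
      _ = (k * M) * (M:ℝ) ^ b := by ring
      _ < (M:ℝ) ^ b * (M:ℝ) ^ b := mul_lt_mul_of_pos_right hkM hMb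
  · have h8 := ex_prod M hk1
    have h9 : ((prodset fun _ : Fin k => ex M).card : ℝ) ≤ ((k:ℝ) * M) ^ 2 := by exact_mod_cast h8
    refine lt_of_le_of_lt h9 ?_
    rw [hcb, ← sq]
    exact pow_lt_pow_left₀ hkM (by positivity) (by norm_num)

/-! powers of a ring -/

/-- the `m`-th Cartesian power of a set -/
def pw (m : ℕ) (A : Finset ℤ) : Finset (Fin m → ℤ) := Fintype.piFinset fun _ => A

lemma pw_card (m : ℕ) (A : Finset ℤ) : (pw m A).card = A.card ^ m := by
  unfold pw
  rw [Fintype.card_piFinset, Finset.prod_const, Finset.card_univ, Fintype.card_fin]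

lemma pw_sum (m k : ℕ) (A : Finset ℤ) : (sumset k (pw m A)).card ≤ (sumset k A).card ^ m := by
  rw [← pw_card]
  apply Finset.card_le_card
  intro x hx
  unfold sumset at hx
  obtain ⟨f, hf, rfl⟩ := Finset.mem_image.1 hx
  rw [Fintype.mem_piFinset] at hf
  unfold pw
  rw [Fintype.mem_piFinset]
  intro i
  unfold sumset
  refine Finset.mem_image.2 ⟨fun j => f j i, ?_, ?_⟩
  · rw [Fintype.mem_piFinset]
    intro j
    exact Fintype.mem_piFinset.1 (hf j) i
  · simp

lemma pw_prod (m k : ℕ) (A : Finset ℤ) :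
    (prodset fun _ : Fin k => pw m A).card ≤ (prodset fun _ : Fin k => A).card ^ m := by
  rw [← pw_card]
  apply Finset.card_le_card
  intro x hx
  obtain ⟨f, hf, rfl⟩ := (mem_prodset _ _).1 hx
  unfold pw
  rw [Fintype.mem_piFinset]
  intro i
  refine (mem_prodset _ _).2 ⟨fun j => f j i, ?_, ?_⟩
  · intro j
    exact Fintype.mem_piFinset.1 (hf j) i
  · simp

/-- in the rings `ℤ^m` the exponent is sharp even up to constants -/
theorem up_pi {N : ℕ} (hN : Real.exp 12 ≤ N) {e C : ℝ}
    (he : Real.log N / (Real.log (Real.log N) - 1) < e) (hC : 0 < C) :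
    ∃ (m : ℕ) (A : Finset (Fin m → ℤ)), A.Nonempty ∧ (∀ a ∈ A, ∀ i, 0 < a i) ∧
      max ((sumset N A).card : ℝ) ((prodset fun _ : Fin N => A).card : ℝ) <
        C * (A.card : ℝ) ^ e := by
  obtain ⟨A, hA2, hAp, hmax⟩ := up hN
  set b := Real.log N / (Real.log (Real.log N) - 1) with hb
  have hA2' : (2:ℝ) ≤ A.card := by exact_mod_cast hA2
  have hgt : 1 < (A.card : ℝ) ^ (e - b) := Real.one_lt_rpow (by linarith) (by linarith)
  obtain ⟨m, hm⟩ := pow_unbounded_of_one_lt (1 / C) hgt
  refine ⟨m, pw m A, ?_, ?_, ?_⟩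
  · rw [← Finset.card_pos, pw_card]
    exact pow_pos (by omega) m
  · intro a ha i
    exact hAp _ (Fintype.mem_piFinset.1 ha i)
  · have h1 : ((sumset N (pw m A)).card : ℝ) ≤ ((A.card : ℝ) ^ b) ^ m := by
      calc ((sumset N (pw m A)).card : ℝ) ≤ ((sumset N A).card : ℝ) ^ m := by
            exact_mod_cast pw_sum m N A
        _ ≤ _ := pow_le_pow_left₀ (by positivity) ((le_max_left _ _).trans hmax) m
    have h2 : ((prodset fun _ : Fin N => pw m A).card : ℝ) ≤ ((A.card : ℝ) ^ b) ^ m := by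
      calc ((prodset fun _ : Fin N => pw m A).card : ℝ) ≤
            ((prodset fun _ : Fin N => A).card : ℝ) ^ m := by exact_mod_cast pw_prod m N A
        _ ≤ _ := pow_le_pow_left₀ (by positivity) ((le_max_right _ _).trans hmax) m
    refine lt_of_le_of_lt (max_le h1 h2) ?_
    have e1 : ((pw m A).card : ℝ) ^ e = ((A.card : ℝ) ^ b) ^ m * ((A.card : ℝ) ^ (e - b)) ^ m := by
      rw [pw_card, ← mul_pow, ← Real.rpow_add (by linarith)]
      have : b + (e - b) = e := by ring
      rw [this]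
      push_cast
      rw [← Real.rpow_natCast, ← Real.rpow_natCast, ← Real.rpow_mul (by linarith),
        ← Real.rpow_mul (by linarith), mul_comm]
    rw [e1]
    have h3 : 1 < C * ((A.card : ℝ) ^ (e - b)) ^ m := by
      rw [div_lt_iff₀ hC] at hm
      linarith
    have h4 : 0 < ((A.card : ℝ) ^ b) ^ m := by positivity
    nlinarith

end Pool.Agent.N811.IS
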