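import Pool.Agent.N811.IS.Chain
import Pool.Agent.H201R3.SPk.G

set_option autoImplicit false

/-! The exponent `log N / (log log N + 7/5)`. -/

namespace Pool.Agent.N811.IS

open Finset
open scoped Pointwise

universe u

lemma exp38 : (44 : ℝ) ≤ Real.exp (19 / 5) := by
  have h := Real.sum_le_exp_of_nonneg (x := 19 / 5) (by norm_num) 11
  simp only [Finset.sum_range_succ, Finset.sum_range_zero, Nat.factorial] at h
  norm_num at h
  linarith

lemma loglog2 : -(37 / 100 : ℝ) ≤ Real.log (Real.log 2) := by
  have h1 := Real.log_two_gt_d9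
  rw [Real.le_log_iff_exp_le (by linarith), Real.exp_neg]
  have h := Real.sum_le_exp_of_nonneg (x := 37 / 100) (by norm_num) 4
  simp only [Finset.sum_range_succ, Finset.sum_range_zero, Nat.factorial] at h
  norm_num at h
  have h2 : (1.4467 : ℝ) ≤ Real.exp (37 / 100) := by linarith
  calc (Real.exp (37 / 100))⁻¹ ≤ (1.4467 : ℝ)⁻¹ := inv_anti₀ (by norm_num) h2
    _ ≤ 0.6931 := by norm_num
    _ ≤ Real.log 2 := by linarith

lemma log3 : Real.log 3 ≤ 11 / 10 := by
  rw [Real.log_le_iff_le_exp (by norm_num)]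
  have h := Real.sum_le_exp_of_nonneg (x := 11 / 10) (by norm_num) 7
  simp only [Finset.sum_range_succ, Finset.sum_range_zero, Nat.factorial] at h
  norm_num at h
  linarith

/-- the denominator is positive -/
lemma den_pos {x : ℝ} (hx : 0.69 ≤ x) : 0 < Real.log x + 7 / 5 := by
  have h := Real.one_sub_inv_le_log_of_pos (show 0 < x by linarith)
  have h2 : x⁻¹ ≤ (0.69 : ℝ)⁻¹ := inv_anti₀ (by norm_num) hx
  have h3 : ((0.69 : ℝ))⁻¹ ≤ 1.45 := by norm_num
  linarith

/-- small values -/
lemma small {x : ℝ} (hx : 0.69 ≤ x) (hx2 : x ≤ 2) : x ≤ Real.log x + 7 / 5 := by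
  have hx0 : 0 < x := by linarith
  rcases le_or_gt x (9 / 5) with h | h
  · have h1 := Real.one_sub_inv_le_log_of_pos hx0
    have h2 : x + x⁻¹ ≤ 12 / 5 := by
      have : x * (x + x⁻¹) ≤ x * (12 / 5) := by
        have : x * (x + x⁻¹) = x * x + 1 := by field_simp
        rw [this]; nlinarith
      exact le_of_mul_le_mul_left this hx0
    linarith
  · have h1 := Real.one_sub_inv_le_log_of_pos (show 0 < x / (3 / 2) by positivity)
    rw [Real.log_div hx0.ne' (by norm_num)] at h1
    have h32 : (0.4 : ℝ) ≤ Real.log (3 / 2) := by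
      rw [Real.le_log_iff_exp_le (by norm_num)]
      have := Real.exp_bound' (x := 0.4) (by norm_num) (by norm_num) (n := 4) (by norm_num)
      simp only [Finset.sum_range_succ, Finset.sum_range_zero, Nat.factorial] at this
      norm_num at this
      norm_num
      linarith
    have h2 : x + (x / (3 / 2))⁻¹ ≤ 14 / 5 := by
      have : x * (x + (x / (3 / 2))⁻¹) ≤ x * (14 / 5) := by
        have : x * (x + (x / (3 / 2))⁻¹) = x * x + 3 / 2 := by field_simp
        rw [this]; nlinarith
      exact le_of_mul_le_mul_left this hx0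
    linarith

section
variable {R : Type u} [CommRing R] [DecidableEq R] (V : VR R)

/-- the exponent `log N / (log log N + 7/5)` -/
theorem low {N : ℕ} (hN : 2 ≤ N) (A : Finset R) (hA : A.Nonempty) (hAp : ∀ a ∈ A, a ∈ V.S) :
    (A.card : ℝ) ^ (Real.log N / (Real.log (Real.log N) + 7 / 5)) ≤
      max ((sumset N A).card : ℝ) ((prodset fun _ : Fin N => A).card : ℝ) := by
  have hL1 := Real.log_two_gt_d9
  have hL2 := Real.log_two_lt_d9
  have hN2 : (2:ℝ) ≤ N := by exact_mod_cast hN
  have hcard : (1:ℝ) ≤ A.card := by exact_mod_cast hA.card_pos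
  set x := Real.log N with hx
  have hx0 : Real.log 2 ≤ x := Real.log_le_log (by norm_num) hN2
  have hD : 0 < Real.log x + 7 / 5 := den_pos (by linarith)
  rcases lt_or_ge N 8 with h8 | h8
  · -- exponent at most one
    have hx2 : x ≤ 2 := by
      have h7 : (N:ℝ) ≤ 7 := by exact_mod_cast (by omega : N ≤ 7)
      have he : (7:ℝ) ≤ Real.exp 2 := by
        have h := Real.sum_le_exp_of_nonneg (x := 2) (by norm_num) 7
        simp only [Finset.sum_range_succ, Finset.sum_range_zero, Nat.factorial] at h
        norm_num at h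
        linarith
      calc x ≤ Real.log (Real.exp 2) := Real.log_le_log (by linarith) (h7.trans he)
        _ = 2 := Real.log_exp 2
    have hs := small (by linarith : 0.69 ≤ x) hx2
    have he : x / (Real.log x + 7 / 5) ≤ 1 := by rw [div_le_one hD]; exact hs
    calc (A.card : ℝ) ^ (x / (Real.log x + 7 / 5)) ≤ (A.card : ℝ) ^ (1:ℝ) :=
          Real.rpow_le_rpow_of_exponent_le hcard he
      _ = A.card := Real.rpow_one _
      _ ≤ _ := le_max_of_le_left (by exact_mod_cast card_le_sumset (by omega) hA)
  have hN8 : (8:ℝ) ≤ N := by exact_mod_cast h8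
  have hlog8 : Real.log 8 = 3 * Real.log 2 := by
    have : (8:ℝ) = 2 ^ 3 := by norm_num
    rw [this, Real.log_pow]; norm_num
  have hx2 : 2 ≤ x := by
    have : Real.log 8 ≤ x := Real.log_le_log (by norm_num) hN8
    linarith
  have hxN : x * (19 / 5) ≤ N := by
    have h1 : Real.log (N / 8) ≤ N / 8 - 1 := Real.log_le_sub_one_of_pos (by positivity)
    rw [Real.log_div (by positivity) (by norm_num), ← hx, hlog8] at h1
    linarith
  set L := Real.log x with hL
  set l2 := Real.log 2 with hl2
  have hl20 : 0 < l2 := by linarith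
  set c := l2 / x with hc
  have hxpos : 0 < x := by linarith
  have hc0 : 0 < c := by positivity
  have hcx : c * x = l2 := by rw [hc]; field_simp
  have hc1 : c ≤ 0.3466 := by rw [hc, div_le_iff₀ hxpos]; nlinarith
  have h1c : 0 < 1 - c := by linarith
  set θ := 1 - 1 / x with hθ
  have h1x : 1 / x ≤ 1 / 2 := one_div_le_one_div_of_le (by norm_num) hx2
  have h1x0 : 0 < 1 / x := by positivity
  have hθ2 : 1 / 2 ≤ θ := by linarith
  have hθ1 : θ < 1 := by linarith
  have hcθ : c ≤ 2 ^ (1 - θ) - 1 := by
    have e : 1 - θ = 1 / x := by rw [hθ]; ring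
    rw [e, Real.rpow_def_of_pos (by norm_num)]
    have := Real.add_one_le_exp (Real.log 2 * (1 / x))
    have e2 : Real.log 2 * (1 / x) = c := by rw [hc]; ring
    rw [e2] at this ⊢
    linarith
  set δ := c / (1 - c) with hδ
  have hδ0 : 0 ≤ δ := by positivity
  have hδ1 : δ ≤ 1 := by rw [hδ, div_le_one h1c]; linarith
  set y := Real.log (x / l2) with hy
  have hyL : y = L - Real.log l2 := by rw [hy, Real.log_div hxpos.ne' hl20.ne']
  have hy0 : 0 ≤ y := Real.log_nonneg (by rw [le_div_iff₀ hl20]; linarith)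
  have hxd : 0 < x - δ := by linarith
  set β := y / (x - δ) with hβ
  have hβ0 : 0 ≤ β := by positivity
  have hβx : β * (x - δ) = y := by rw [hβ]; field_simp
  have hcβ : 1 / c ≤ ((N : ℝ) - (N - 1) * c) ^ β := by
    have hn' : (N:ℝ) * (1 - c) ≤ (N : ℝ) - (N - 1) * c := by linarith
    have hNc : 0 < (N:ℝ) * (1 - c) := by positivity
    have hlog : x - δ ≤ Real.log ((N : ℝ) - (N - 1) * c) := by
      refine le_trans ?_ (Real.log_le_log hNc hn')
      rw [Real.log_mul (by positivity) h1c.ne', ← hx]
      have h3 := Real.one_sub_inv_le_log_of_pos h1c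
      have h4 : 1 - (1 - c)⁻¹ = -δ := by rw [hδ]; field_simp; ring
      linarith
    rw [Real.rpow_def_of_pos (by linarith)]
    have e : 1 / c = Real.exp y := by
      rw [hy, Real.exp_log (by positivity), hc]; field_simp
    rw [e]
    apply Real.exp_le_exp.2
    calc y = (x - δ) * β := by rw [mul_comm, hβx]
      _ ≤ _ := mul_le_mul_of_nonneg_right hlog hβ0
  -- the power
  have hpow : θ ^ N ≤ 1 / 44 := by
    have hθe : θ ≤ Real.exp (-(1 / x)) := by
      have := Real.add_one_le_exp (-(1 / x))
      linarith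
    calc θ ^ N ≤ (Real.exp (-(1 / x))) ^ N := pow_le_pow_left₀ (by linarith) hθe N
      _ = Real.exp (-(N / x)) := by rw [← Real.exp_nat_mul]; congr 1; ring
      _ ≤ Real.exp (-(19 / 5)) := by
          apply Real.exp_le_exp.2
          have : (19 / 5 : ℝ) ≤ N / x := by rw [le_div_iff₀ hxpos]; linarith
          linarith
      _ ≤ 1 / 44 := by
          rw [Real.exp_neg, one_div]
          exact inv_anti₀ (by norm_num) exp38
  have hpow0 : 0 ≤ θ ^ N := pow_nonneg (by linarith) N
  apply max_chain V (by omega) hθ2 hθ1 hc0 hcθ hβ0 hcβ A hA hAp N rfl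
  set ε := θ ^ N with hε
  have e1 : (1 - ε) / (1 - θ) = x * (1 - ε) := by
    have : 1 - θ = 1 / x := by rw [hθ]; ring
    rw [this]; field_simp
  rw [e1, div_mul_eq_mul_div, div_le_iff₀ hD]
  have hLL := loglog2
  have hD2 : 0.69 ≤ L := by
    have : Real.log 2 ≤ L := Real.log_le_log (by norm_num) hx2
    linarith
  -- main inequality, divided by x
  have key : 1 + β * x * (1 - ε) ≤ (1 + β) * (1 - ε) * (L + 7 / 5) := by
    have hβx' : β * x = y + β * δ := by linarith
    rw [hβx']
    have h5 : 1.03 ≤ L + 7 / 5 - y := by rw [hyL]; linarith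
    have h6 : 0 ≤ β * (L + 7 / 5 - δ) := mul_nonneg hβ0 (by linarith)
    have h7 : 1 ≤ (1 - ε) * (L + 7 / 5 - y + β * (L + 7 / 5 - δ)) := by nlinarith
    nlinarith
  calc x * (1 + β * (x * (1 - ε))) = x * (1 + β * x * (1 - ε)) := by ring
    _ ≤ x * ((1 + β) * (1 - ε) * (L + 7 / 5)) := mul_le_mul_of_nonneg_left key hxpos.le
    _ = _ := by ring

end

/-- growth of iterated sumsets in the integers -/
lemma sumset_int_card {A : Finset ℤ} (hA : A.Nonempty) (k : ℕ) :
    k * (A.card - 1) + 1 ≤ (sumset k A).card := by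
  induction k with
  | zero => rw [sumset_zero]; simp
  | succ k ih =>
    rw [sumset_succ]
    have h := cauchy_davenport_add_of_linearOrder_isCancelAdd hA (sumset_nonempty k hA)
    have := hA.card_pos
    have e : (k + 1) * (A.card - 1) = k * (A.card - 1) + (A.card - 1) := by ring
    omega

/-- all finite sets of integers -/
theorem low_int {N : ℕ} (hN : 2 ≤ N) (A : Finset ℤ) (hA : A.Nonempty) :
    (A.card : ℝ) ^ (Real.log N / (Real.log (Real.log N) + 5 / 2)) ≤
      max ((sumset N A).card : ℝ) ((prodset fun _ : Fin N => A).card : ℝ) := by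
  have hL1 := Real.log_two_gt_d9
  have hN2 : (2:ℝ) ≤ N := by exact_mod_cast hN
  have hcard1 : 1 ≤ A.card := hA.card_pos
  have hcard : (1:ℝ) ≤ A.card := by exact_mod_cast hcard1
  set x := Real.log N with hx
  have hx0 : Real.log 2 ≤ x := Real.log_le_log (by norm_num) hN2
  have hD : 0 < Real.log x + 7 / 5 := den_pos (by linarith)
  have hxpos : 0 < x := by linarith
  set b := x / (Real.log x + 5 / 2) with hb
  have hb0 : 0 ≤ b := by
    have : 0 < Real.log x + 5 / 2 := by linarith
    positivity
  rcases hcard1.eq_or_lt with h1 | h2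
  · have e : (A.card : ℝ) = 1 := by exact_mod_cast h1.symm
    rw [e, Real.one_rpow]
    exact le_max_of_le_left (by exact_mod_cast (sumset_nonempty N hA).card_pos)
  have hs := sumset_int_card hA N
  have hsN : N + 1 ≤ (sumset N A).card := by
    have : N * 1 ≤ N * (A.card - 1) := Nat.mul_le_mul_left N (by omega)
    omega
  have hsN' : (N:ℝ) + 1 ≤ (sumset N A).card := by exact_mod_cast hsN
  rcases le_or_gt ((A.card : ℝ) ^ b) N with hle | hlt
  · exact le_max_of_le_left (by linarith)
  -- large sets
  have hΛ : Real.log x + 5 / 2 < Real.log A.card := by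
    have h3 := Real.log_lt_log (by linarith) hlt
    rw [Real.log_rpow (by linarith), ← hx, hb, div_mul_eq_mul_div,
      lt_div_iff₀ (by linarith)] at h3
    nlinarith
  have hA0 : A ≠ {0} := by
    rintro rfl
    simp at h2
  obtain ⟨B, hB, hBp, hAB, hsum, hprod⟩ := Pool.Agent.H201R3.SPk.taskG A hA hA0
  have h3 := low vrInt hN B hB hBp
  have hB1 : (1:ℝ) ≤ B.card := by exact_mod_cast hB.card_pos
  have hAB' : (A.card : ℝ) ≤ 3 * B.card := by exact_mod_cast hAB
  set e := x / (Real.log x + 7 / 5) with he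
  have he0 : 0 ≤ e := by positivity
  have h4 : (A.card : ℝ) ^ b ≤ (B.card : ℝ) ^ e := by
    have h5 : (A.card : ℝ) ^ b ≤ ((A.card : ℝ) / 3) ^ e := by
      rw [← Real.log_le_log_iff (by positivity) (by positivity), Real.log_rpow (by linarith),
        Real.log_rpow (by positivity), Real.log_div (by linarith) (by norm_num), hb, he,
        div_mul_eq_mul_div, div_mul_eq_mul_div, div_le_div_iff₀ (by linarith) hD]
      have h3' := log3
      have : Real.log A.card * (Real.log x + 7 / 5) ≤
          (Real.log A.card - Real.log 3) * (Real.log x + 5 / 2) := by nlinarith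
      nlinarith
    refine h5.trans (Real.rpow_le_rpow (by positivity) ?_ he0)
    linarith
  refine h4.trans (h3.trans ?_)
  apply max_le_max
  · exact_mod_cast hsum N
  · exact_mod_cast hprod N

end Pool.Agent.N811.IS
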