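import Pool.Agent.N811.IS.Chain

set_option autoImplicit false

/-! Partners in larger groups. -/

namespace Pool.Agent.N811.IS

open Finset
open scoped Pointwise

universe u

lemma sum_rpow_ge {ι : Type*} (s : Finset ι) (f : ι → ℝ) (hf : ∀ i ∈ s, 0 ≤ f i) {θ : ℝ}
    (h0 : 0 < θ) (h1 : θ ≤ 1) : (∑ i ∈ s, f i) ^ θ ≤ ∑ i ∈ s, f i ^ θ := by
  classical
  induction s using Finset.induction_on with
  | empty => simp [Real.zero_rpow h0.ne']
  | insert a s ha ih =>
    rw [Finset.sum_insert ha, Finset.sum_insert ha]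
    have h2 := ih (fun i hi => hf i (Finset.mem_insert_of_mem hi))
    have h3 := Real.rpow_add_le_add_rpow (hf a (Finset.mem_insert_self _ _))
      (Finset.sum_nonneg fun i hi => hf i (Finset.mem_insert_of_mem hi)) h0.le h1
    linarith

section
variable {G G' : Type*} [AddCommGroup G] [DecidableEq G] [AddCommGroup G'] [DecidableEq G']

/-- one coset -/
lemma rho_coset (j : G →+ G') (hj : Function.Injective j) (θ : ℝ) (A : Finset G)
    {Y : Finset G'} {x₀ : G'} (hY : Y.Nonempty) (h : ∀ x ∈ Y, x - x₀ ∈ j.range) :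
    rho θ A * (Y.card : ℝ) ^ θ ≤ ((A.image j + Y).card : ℝ) := by
  classical
  set Z : Finset G := (Y.image fun x => x - x₀).preimage j hj.injOn with hZ
  have hZj : Z.image j = Y.image fun x => x - x₀ := by
    rw [hZ, Finset.image_preimage]
    apply Finset.filter_true_of_mem
    intro x hx
    obtain ⟨y, hy, rfl⟩ := Finset.mem_image.1 hx
    exact h y hy
  have hZc : Z.card = Y.card := by
    rw [← Finset.card_image_of_injective Z hj, hZj,
      Finset.card_image_of_injective _ (sub_left_injective (b := x₀))]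
  have hZne : Z.Nonempty := by
    rw [← Finset.card_pos, hZc]; exact hY.card_pos
  have hsub : (A + Z).image (fun g => j g + x₀) ⊆ A.image j + Y := by
    intro z hz
    obtain ⟨g, hg, rfl⟩ := Finset.mem_image.1 hz
    obtain ⟨a, ha, b, hb, rfl⟩ := Finset.mem_add.1 hg
    have h1 : j b ∈ Z.image j := Finset.mem_image_of_mem j hb
    rw [hZj] at h1
    obtain ⟨y, hy, hyb⟩ := Finset.mem_image.1 h1
    rw [Finset.mem_add]
    refine ⟨j a, Finset.mem_image_of_mem j ha, y, hy, ?_⟩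
    rw [map_add, ← hyb]; abel
  have hcard := Finset.card_le_card hsub
  rw [Finset.card_image_of_injective _ (fun a b hab => hj (add_right_cancel hab))] at hcard
  have := rho_mul_le θ A hZne
  rw [hZc] at this
  refine this.trans ?_
  exact_mod_cast hcard

/-- a partner in a larger group -/
theorem rho_emb (j : G →+ G') (hj : Function.Injective j) {θ : ℝ} (h0 : 0 < θ) (h1 : θ ≤ 1)
    (A : Finset G) (X : Finset G') :
    rho θ A * (X.card : ℝ) ^ θ ≤ ((A.image j + X).card : ℝ) := by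
  classical
  set q : G' → G' ⧸ j.range := fun g => (QuotientAddGroup.mk g : G' ⧸ j.range) with hq
  have hqadd : ∀ a b, q (a + b) = q a + q b := fun a b => rfl
  have hq0 : ∀ a, q a = 0 ↔ a ∈ j.range := fun a => by
    rw [hq]; exact QuotientAddGroup.eq_zero_iff a
  have hqj : ∀ a, q (j a) = 0 := fun a => (hq0 _).2 ⟨a, rfl⟩
  set J := X.image q with hJ
  set Y : G' ⧸ j.range → Finset G' := fun c => X.filter fun x => q x = c with hY
  have hYne : ∀ c ∈ J, (Y c).Nonempty := by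
    intro c hc
    obtain ⟨x, hx, hxc⟩ := Finset.mem_image.1 hc
    exact ⟨x, Finset.mem_filter.2 ⟨hx, hxc⟩⟩
  have hsum : X.card = ∑ c ∈ J, (Y c).card := Finset.card_eq_sum_card_image q X
  have hpart : ∀ c ∈ J, rho θ A * ((Y c).card : ℝ) ^ θ ≤ ((A.image j + Y c).card : ℝ) := by
    intro c hc
    obtain ⟨x₀, hx₀⟩ := hYne c hc
    refine rho_coset j hj θ A (x₀ := x₀) ⟨x₀, hx₀⟩ fun x hx => ?_
    rw [← hq0]
    have e1 : q x = c := (Finset.mem_filter.1 hx).2
    have e2 : q x₀ = c := (Finset.mem_filter.1 hx₀).2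
    have e3 : q x = q (x - x₀) + q x₀ := by rw [← hqadd, sub_add_cancel]
    rw [e1, e2] at e3
    exact (right_eq_add.1 e3)
  have hd : Set.PairwiseDisjoint (↑J) fun c => A.image j + Y c := by
    intro c _ d _ hcd
    simp only [Function.onFun]
    rw [Finset.disjoint_left]
    intro z hz hz'
    obtain ⟨a, ha, y, hy, rfl⟩ := Finset.mem_add.1 hz
    obtain ⟨a', ha', y', hy', hzz⟩ := Finset.mem_add.1 hz'
    obtain ⟨b, _, rfl⟩ := Finset.mem_image.1 ha
    obtain ⟨b', _, rfl⟩ := Finset.mem_image.1 ha'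
    apply hcd
    have q1 : q (j b + y) = c := by
      rw [hqadd, hqj, zero_add]
      exact (Finset.mem_filter.1 hy).2
    have q2 : q (j b' + y') = d := by
      rw [hqadd, hqj, zero_add]
      exact (Finset.mem_filter.1 hy').2
    rw [← q1, ← q2, hzz]
  have hsub : J.biUnion (fun c => A.image j + Y c) ⊆ A.image j + X := by
    intro z hz
    obtain ⟨c, _, hz⟩ := Finset.mem_biUnion.1 hz
    exact Finset.add_subset_add_left (Finset.filter_subset _ _) hz
  have h2 := Finset.card_le_card hsub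
  rw [Finset.card_biUnion hd] at h2
  have h3 : (∑ c ∈ J, ((A.image j + Y c).card : ℝ)) ≤ ((A.image j + X).card : ℝ) := by
    exact_mod_cast h2
  have h4 := sum_rpow_ge J (fun c => ((Y c).card : ℝ)) (fun c _ => Nat.cast_nonneg _) h0 h1
  have h5 : (X.card : ℝ) = ∑ c ∈ J, ((Y c).card : ℝ) := by rw [hsum]; push_cast; rfl
  rw [h5]
  calc rho θ A * (∑ c ∈ J, ((Y c).card : ℝ)) ^ θ
      ≤ rho θ A * ∑ c ∈ J, ((Y c).card : ℝ) ^ θ :=
        mul_le_mul_of_nonneg_left h4 (rho_nonneg θ A)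
    _ = ∑ c ∈ J, rho θ A * ((Y c).card : ℝ) ^ θ := Finset.mul_sum _ _ _
    _ ≤ ∑ c ∈ J, ((A.image j + Y c).card : ℝ) := Finset.sum_le_sum hpart
    _ ≤ _ := h3

end

section
variable {R : Type u} [CommRing R] [DecidableEq R] (V : VR R)

open Pool.Agent.H384R3.SPk in
/-- the product of the isoperimetric constants -/
theorem rho_family {n : ℕ} (hn : 2 ≤ n) {θ c β : ℝ} (hθ : 1 / 2 ≤ θ) (hθ1 : θ < 1)
    (hc : 0 < c) (hcθ : c ≤ 2 ^ (1 - θ) - 1)
    (hcβ : 1 / c ≤ ((n : ℝ) - (n - 1) * c) ^ β)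
    (A : Fin n → Finset R) (hA : ∀ i, (A i).Nonempty) (hAp : ∀ i, ∀ a ∈ A i, a ∈ V.S) :
    ∏ i, ((A i).card : ℝ) ^ (1 + β) ≤
      ((prodset A).card : ℝ) ^ ((n : ℝ) * β) * ∏ i, rho θ (A i) := by
  have hn1 : 1 ≤ n := by omega
  have hn0 : (0:ℝ) < n := by exact_mod_cast (show 0 < n by omega)
  have hX2 : (2:ℝ) ^ (1 - θ) < 2 := by
    have : (2:ℝ) ^ (1 - θ) < 2 ^ (1:ℝ) :=
      Real.rpow_lt_rpow_of_exponent_lt (by norm_num) (by linarith)
    rwa [Real.rpow_one] at this
  have hc1 : c < 1 := by linarith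
  obtain ⟨β₀, hβ₀, hle, hcrit⟩ := exists_crit hn hc hc1 hcβ
  have hm := main_crit V hn hθ hθ1 hc hcθ hβ₀ hcrit A hA hAp
  have hR : ∀ i, 1 ≤ rho θ (A i) := fun i => one_le_rho hθ1.le (hA i)
  have hR0 : ∀ i, 0 < rho θ (A i) := fun i => by have := hR i; linarith
  have hcard : ∀ i, (1:ℝ) ≤ (A i).card := fun i => by exact_mod_cast (hA i).card_pos
  have hPpos : (1:ℝ) ≤ (prodset A).card := by
    have := card_le_prodset V A hA hAp ⟨0, by omega⟩
    have h2 := (hA ⟨0, by omega⟩).card_pos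
    exact_mod_cast (by omega : 1 ≤ (prodset A).card)
  set P : ℝ := ((prodset A).card : ℝ) with hP
  have h2 := Real.rpow_le_rpow (Finset.prod_nonneg fun i _ => q_nonneg n β₀ (Nat.cast_nonneg _)
    (hR0 i).le) hm (show 0 ≤ (n:ℝ) * β₀ by positivity)
  rw [← Real.finsetProd_rpow _ _ (fun i _ => q_nonneg n β₀ (Nat.cast_nonneg _) (hR0 i).le)] at h2
  have e1 : ∀ i ∈ (Finset.univ : Finset (Fin n)),
      q n β₀ ((A i).card : ℝ) (rho θ (A i)) ^ ((n:ℝ) * β₀) =
        ((A i).card : ℝ) ^ (1 + β₀) / rho θ (A i) := by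
    intro i _
    have := hcard i
    exact q_rpow n hn1 hβ₀ (by linarith) (hR0 i)
  rw [Finset.prod_congr rfl e1, Finset.prod_div_distrib,
    div_le_iff₀ (Finset.prod_pos fun i _ => hR0 i)] at h2
  have h3 : ∏ i, ((A i).card : ℝ) ^ (β - β₀) ≤ P ^ ((n:ℝ) * (β - β₀)) := by
    calc ∏ i, ((A i).card : ℝ) ^ (β - β₀) ≤ ∏ _i : Fin n, P ^ (β - β₀) := by
          apply Finset.prod_le_prod
          · intro i _; have := hcard i; positivity
          · intro i _
            apply Real.rpow_le_rpow (by positivity) _ (by linarith)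
            rw [hP]
            exact_mod_cast card_le_prodset V A hA hAp i
      _ = _ := by
          rw [Finset.prod_const, Finset.card_univ, Fintype.card_fin, ← Real.rpow_natCast,
            ← Real.rpow_mul (by positivity), mul_comm]
  have e2 : ∏ i, ((A i).card : ℝ) ^ (1 + β) =
      (∏ i, ((A i).card : ℝ) ^ (1 + β₀)) * ∏ i, ((A i).card : ℝ) ^ (β - β₀) := by
    rw [← Finset.prod_mul_distrib]
    refine Finset.prod_congr rfl fun i _ => ?_
    have := hcard i
    rw [← Real.rpow_add (by linarith)]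
    congr 1; ring
  have e3 : P ^ ((n:ℝ) * β) = P ^ ((n:ℝ) * β₀) * P ^ ((n:ℝ) * (β - β₀)) := by
    rw [← Real.rpow_add (by linarith)]; congr 1; ring
  rw [e2, e3]
  calc _ ≤ (P ^ ((n:ℝ) * β₀) * ∏ i, rho θ (A i)) * P ^ ((n:ℝ) * (β - β₀)) := by
        apply mul_le_mul h2 h3
        · exact Finset.prod_nonneg fun i _ => by have := hcard i; positivity
        · have : 0 ≤ ∏ i, rho θ (A i) := Finset.prod_nonneg fun i _ => (hR0 i).le
          positivity
    _ = _ := by ring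

variable {G : Type*} [AddCommGroup G] [DecidableEq G]

/-- the isoperimetric inequality for families, partners in a larger group -/
theorem emb_family (j : R →+ G) (hj : Function.Injective j) {n : ℕ} (hn : 2 ≤ n) {θ c β : ℝ}
    (hθ : 1 / 2 ≤ θ) (hθ1 : θ < 1) (hc : 0 < c) (hcθ : c ≤ 2 ^ (1 - θ) - 1)
    (hcβ : 1 / c ≤ ((n : ℝ) - (n - 1) * c) ^ β)
    (A : Fin n → Finset R) (hA : ∀ i, (A i).Nonempty) (hAp : ∀ i, ∀ a ∈ A i, a ∈ V.S)
    (X : Fin n → Finset G) :
    ∏ i, (((A i).card : ℝ) ^ (1 + β) * ((X i).card : ℝ) ^ θ) ≤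
      (∏ i, (((A i).image j + X i).card : ℝ)) * ((prodset A).card : ℝ) ^ ((n : ℝ) * β) := by
  have h4 := rho_family V hn hθ hθ1 hc hcθ hcβ A hA hAp
  set P : ℝ := ((prodset A).card : ℝ) with hP
  have hR : ∀ i, 0 ≤ rho θ (A i) := fun i => rho_nonneg θ (A i)
  rw [Finset.prod_mul_distrib]
  have hPn : 0 ≤ P ^ ((n:ℝ) * β) := by positivity
  calc (∏ i, ((A i).card : ℝ) ^ (1 + β)) * ∏ i, ((X i).card : ℝ) ^ θ
      ≤ (P ^ ((n:ℝ) * β) * ∏ i, rho θ (A i)) * ∏ i, ((X i).card : ℝ) ^ θ :=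
        mul_le_mul_of_nonneg_right h4 (Finset.prod_nonneg fun i _ => by positivity)
    _ = P ^ ((n:ℝ) * β) * ∏ i, (rho θ (A i) * ((X i).card : ℝ) ^ θ) := by
        rw [Finset.prod_mul_distrib]; ring
    _ ≤ P ^ ((n:ℝ) * β) * ∏ i, (((A i).image j + X i).card : ℝ) := by
        apply mul_le_mul_of_nonneg_left _ hPn
        apply Finset.prod_le_prod
        · intro i _; have := hR i; positivity
        · intro i _; exact rho_emb j hj (by linarith) hθ1.le (A i) (X i)
    _ = _ := mul_comm _ _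

/-- the isoperimetric inequality for one set, partners in a larger group -/
theorem emb_one (j : R →+ G) (hj : Function.Injective j) {n : ℕ} (hn : 2 ≤ n) {θ c β : ℝ}
    (hθ : 1 / 2 ≤ θ) (hθ1 : θ < 1) (hc : 0 < c) (hcθ : c ≤ 2 ^ (1 - θ) - 1)
    (hcβ : 1 / c ≤ ((n : ℝ) - (n - 1) * c) ^ β)
    (A : Finset R) (hA : A.Nonempty) (hAp : ∀ a ∈ A, a ∈ V.S) (X : Finset G) :
    (A.card : ℝ) ^ (1 + β) * (X.card : ℝ) ^ θ ≤
      ((A.image j + X).card : ℝ) * ((prodset fun _ : Fin n => A).card : ℝ) ^ β := by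
  have hn0 : (0:ℝ) < n := by exact_mod_cast (show 0 < n by omega)
  have h := emb_family V j hj hn hθ hθ1 hc hcθ hcβ (fun _ => A) (fun _ => hA) (fun _ => hAp)
    (fun _ => X)
  rw [Finset.prod_const, Finset.prod_const, Finset.card_univ, Fintype.card_fin] at h
  have e : ((prodset fun _ : Fin n => A).card : ℝ) ^ ((n : ℝ) * β) =
      (((prodset fun _ : Fin n => A).card : ℝ) ^ β) ^ n := by
    rw [← Real.rpow_natCast, ← Real.rpow_mul (Nat.cast_nonneg _), mul_comm]
  rw [e, ← mul_pow] at h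
  exact le_of_pow_le_pow_left₀ (by omega) (by positivity) h

variable {H : Type*} [CommGroup H] [DecidableEq H]

lemma prod_mem_pow' {H : Type*} [CommGroup H] [DecidableEq H] (B : Finset H) :
    ∀ (n : ℕ) (f : Fin n → H), (∀ i, f i ∈ B) → ∏ i, f i ∈ B ^ n := by
  intro n
  induction n with
  | zero => intro f _; simp
  | succ n ih =>
    intro f hf
    rw [Fin.prod_univ_succ, pow_succ']
    exact Finset.mul_mem_mul (hf 0) (ih _ fun i => hf _)

variable {V} in
/-- the product set in a group which contains `S` multiplicatively -/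
lemma prodset_le (φ : R → H) (hφ : ∀ a ∈ V.S, ∀ b ∈ V.S, φ (a * b) = φ a * φ b)
    (hi : ∀ a ∈ V.S, ∀ b ∈ V.S, φ a = φ b → a = b) {A : Finset R} (hAp : ∀ a ∈ A, a ∈ V.S)
    (n : ℕ) : (prodset fun _ : Fin n => A).card ≤ ((A.image φ) ^ n).card := by
  have h1 : φ 1 = 1 := by
    have := hφ 1 V.one_mem 1 V.one_mem
    rw [mul_one] at this
    exact (left_eq_mul.1 this)
  have hprod : ∀ (s : Finset (Fin n)) (f : Fin n → R), (∀ i, f i ∈ V.S) →
      φ (∏ i ∈ s, f i) = ∏ i ∈ s, φ (f i) := by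
    intro s f hf
    classical
    induction s using Finset.induction_on with
    | empty => simpa using h1
    | insert a s ha ih =>
      rw [Finset.prod_insert ha, Finset.prod_insert ha, hφ _ (hf a) _ (prod_memS s f hf), ih]
  apply Finset.card_le_card_of_injOn φ
  · intro x hx
    obtain ⟨f, hf, rfl⟩ := (mem_prodset _ _).1 hx
    rw [hprod _ f fun i => hAp _ (hf i)]
    exact prod_mem_pow' _ n _ fun i => Finset.mem_image_of_mem φ (hf i)
  · intro x hx y hy hxy
    obtain ⟨f, hf, rfl⟩ := (mem_prodset _ _).1 hx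
    obtain ⟨g, hg, rfl⟩ := (mem_prodset _ _).1 hy
    exact hi _ (prod_memS _ f fun i => hAp _ (hf i)) _ (prod_memS _ g fun i => hAp _ (hg i)) hxy

variable {V} in
/-- Plünnecke's inequality with a partner -/
lemma prodset_partner (φ : R → H) (hφ : ∀ a ∈ V.S, ∀ b ∈ V.S, φ (a * b) = φ a * φ b)
    (hi : ∀ a ∈ V.S, ∀ b ∈ V.S, φ a = φ b → a = b) {A : Finset R} (hAp : ∀ a ∈ A, a ∈ V.S)
    {Y : Finset H} (hY : Y.Nonempty) (n : ℕ) :
    ((prodset fun _ : Fin n => A).card : ℝ) ≤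
      (((A.image φ * Y).card : ℝ) / Y.card) ^ n * Y.card := by
  have h1 := prodset_le φ hφ hi hAp n
  have h2 := Finset.pluennecke_ruzsa_inequality_pow_mul hY (A.image φ) n
  have h3 : (((A.image φ) ^ n).card : ℝ) ≤ (((Y * A.image φ).card : ℝ) / Y.card) ^ n * Y.card := by
    have h4 := (NNRat.cast_le (K := ℝ)).2 h2
    push_cast at h4
    exact h4
  rw [mul_comm Y] at h3
  refine le_trans ?_ h3
  exact_mod_cast h1

/-- the inequality with two partners -/
theorem two_partners (j : R →+ G) (hj : Function.Injective j)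
    (φ : R → H) (hφ : ∀ a ∈ V.S, ∀ b ∈ V.S, φ (a * b) = φ a * φ b)
    (hi : ∀ a ∈ V.S, ∀ b ∈ V.S, φ a = φ b → a = b) {n : ℕ} (hn : 2 ≤ n) {θ c β : ℝ}
    (hθ : 1 / 2 ≤ θ) (hθ1 : θ < 1) (hc : 0 < c) (hcθ : c ≤ 2 ^ (1 - θ) - 1) (hβ : 0 ≤ β)
    (hcβ : 1 / c ≤ ((n : ℝ) - (n - 1) * c) ^ β)
    (A : Finset R) (hA : A.Nonempty) (hAp : ∀ a ∈ A, a ∈ V.S) (X : Finset G) {Y : Finset H}
    (hY : Y.Nonempty) :
    (A.card : ℝ) ^ (1 + β) * (X.card : ℝ) ^ θ ≤
      ((A.image j + X).card : ℝ) *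
        ((((A.image φ * Y).card : ℝ) / Y.card) ^ n * Y.card) ^ β := by
  refine (emb_one V j hj hn hθ hθ1 hc hcθ hcβ A hA hAp X).trans ?_
  apply mul_le_mul_of_nonneg_left _ (Nat.cast_nonneg _)
  exact Real.rpow_le_rpow (Nat.cast_nonneg _) (prodset_partner φ hφ hi hAp hY n) hβ

end

end Pool.Agent.N811.IS
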