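import Pool.Agent.N811.IS.Part
import Pool.Agent.N811.IS.Low

set_option autoImplicit false

/-! Exponents: full growth with every partner, or growth of the products; two partners. -/

namespace Pool.Agent.N811.IS

open Finset
open scoped Pointwise

universe u

lemma two_rpow_ge (x : ℝ) : x * Real.log 2 ≤ 2 ^ x - 1 := by
  rw [Real.rpow_def_of_pos (by norm_num)]
  have := Real.add_one_le_exp (Real.log 2 * x)
  linarith

lemma two_rpow_le {x : ℝ} (h0 : 0 ≤ x) (h : x ≤ 1) : (2:ℝ) ^ x ≤ 1 + x := by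
  have h1 := Real.geom_mean_le_arith_mean2_weighted (w₁ := x) (w₂ := 1 - x) (p₁ := 2) (p₂ := 1)
    h0 (by linarith) (by norm_num) (by norm_num) (by ring)
  rw [Real.one_rpow] at h1
  linarith

lemma two_33 : (2:ℝ) ^ (33 / 50 : ℝ) ≤ 1.581 := by
  have h1 : ((2:ℝ) ^ (33 / 50 : ℝ)) ^ 50 ≤ (1.581:ℝ) ^ 50 := by
    have e : ((2:ℝ) ^ (33 / 50 : ℝ)) ^ 50 = 2 ^ 33 := by
      rw [← Real.rpow_natCast, ← Real.rpow_mul (by norm_num)]
      norm_num
    rw [e]; norm_num
  exact le_of_pow_le_pow_left₀ (by norm_num) (by norm_num) h1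

/-- `n ^ 0.66 ≤ n - (n - 1) c` -/
lemma n_ge {n : ℕ} (hn : 2 ≤ n) {c : ℝ} (hc : c ≤ 0.4143) :
    (n:ℝ) ^ (33 / 50 : ℝ) ≤ (n:ℝ) - (n - 1) * c := by
  have hn2 : (2:ℝ) ≤ n := by exact_mod_cast hn
  have h1 := Real.geom_mean_le_arith_mean2_weighted (w₁ := 33 / 50) (w₂ := 17 / 50)
    (p₁ := (n:ℝ) / 2) (p₂ := 1) (by norm_num) (by norm_num) (by positivity) (by norm_num)
    (by norm_num)
  rw [Real.one_rpow, mul_one] at h1
  have e : (n:ℝ) ^ (33 / 50 : ℝ) = 2 ^ (33 / 50 : ℝ) * ((n:ℝ) / 2) ^ (33 / 50 : ℝ) := by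
    rw [← Real.mul_rpow (by norm_num) (by positivity)]
    congr 1; ring
  have h2 := two_33
  have h3 : (0:ℝ) ≤ 33 / 50 * (n / 2) + 17 / 50 * 1 := by positivity
  have h4 : (n:ℝ) ^ (33 / 50 : ℝ) ≤ 1.581 * (33 / 50 * (n / 2) + 17 / 50 * 1) := by
    rw [e]
    exact mul_le_mul h2 h1 (by positivity) (by norm_num)
  nlinarith

section
variable {R : Type u} [CommRing R] [DecidableEq R] (V : VR R)
  {G : Type*} [AddCommGroup G] [DecidableEq G]

/-- growth of the products or full growth with every partner -/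
theorem alternatives (j : R →+ G) (hj : Function.Injective j) {n : ℕ} (hn : 2 ≤ n) {b η : ℝ}
    (hb : 1 ≤ b) (hη : 0 < η) (hη1 : η ≤ 1) (A : Finset R) (hA : A.Nonempty)
    (hAp : ∀ a ∈ A, a ∈ V.S) :
    (A.card : ℝ) ^ (1 + η * Real.log n / (4 * Real.log (3 * b / η))) ≤
        ((prodset fun _ : Fin n => A).card : ℝ) ∨
      ∀ X : Finset G, (X.card : ℝ) ≤ (A.card : ℝ) ^ b →
        (A.card : ℝ) ^ (1 - η) * X.card ≤ ((A.image j + X).card : ℝ) := by
  rw [or_iff_not_imp_left]
  intro hlt X hX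
  push Not at hlt
  have hcard : (1:ℝ) ≤ A.card := by exact_mod_cast hA.card_pos
  rcases X.eq_empty_or_nonempty with rfl | hXne
  · simp
  have hXc : (1:ℝ) ≤ X.card := by exact_mod_cast hXne.card_pos
  have hn2 : (2:ℝ) ≤ n := by exact_mod_cast hn
  have hlogn : 0 < Real.log n := Real.log_pos (by linarith)
  set t : ℝ := 2 * b / η with ht
  have ht2 : 2 ≤ t := by rw [ht, le_div_iff₀ hη]; nlinarith
  have ht0 : 0 < t := by linarith
  have h1t : 1 / t ≤ 1 / 2 := one_div_le_one_div_of_le (by norm_num) ht2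
  have h1t0 : 0 < 1 / t := by positivity
  set c : ℝ := 2 ^ (1 / t) - 1 with hc
  have hL1 := Real.log_two_gt_d9
  have hc0 : 1 / t * Real.log 2 ≤ c := two_rpow_ge (1 / t)
  have hcpos : 0 < c := lt_of_lt_of_le (by positivity) hc0
  have hc1 : c ≤ 0.4143 := by
    have h1 : (2:ℝ) ^ (1 / t) ≤ 2 ^ (1 / 2 : ℝ) :=
      Real.rpow_le_rpow_of_exponent_le (by norm_num) h1t
    rw [← Real.sqrt_eq_rpow] at h1
    have h2 : √2 ≤ 1.4143 := by
      rw [Real.sqrt_le_left (by norm_num)]; norm_num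
    rw [hc]; linarith
  set Q : ℝ := 3 * b / η with hQ
  have hQ3 : 3 ≤ Q := by rw [hQ, le_div_iff₀ hη]; nlinarith
  have hlogQ : 0 < Real.log Q := Real.log_pos (by linarith)
  have hcQ : 1 / c ≤ Q := by
    rw [div_le_iff₀ hcpos]
    have h1 : 1 ≤ Q * (1 / t * Real.log 2) := by
      have e : Q * (1 / t * Real.log 2) = 3 / 2 * Real.log 2 := by
        rw [hQ, ht]; field_simp
      rw [e]; linarith
    exact h1.trans (mul_le_mul_of_nonneg_left hc0 (by linarith))
  set β : ℝ := Real.log Q / (33 / 50 * Real.log n) with hβ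
  have hβ0 : 0 < β := by positivity
  have hcβ : 1 / c ≤ ((n : ℝ) - (n - 1) * c) ^ β := by
    refine hcQ.trans ?_
    have h1 := Real.rpow_le_rpow (by positivity) (n_ge hn hc1) hβ0.le
    refine le_trans (le_of_eq ?_) h1
    rw [← Real.rpow_mul (by positivity), Real.rpow_def_of_pos (by linarith)]
    have e : Real.log n * (33 / 50 * β) = Real.log Q := by rw [hβ]; field_simp
    rw [e, Real.exp_log (by linarith)]
  have hθ1 : 1 - 1 / t < 1 := by linarith
  have hcθ : c ≤ 2 ^ (1 - (1 - 1 / t)) - 1 := by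
    rw [hc]; apply le_of_eq; congr 2; ring
  have hm := emb_one V j hj hn (θ := 1 - 1 / t) (by linarith) hθ1 hcpos hcθ hcβ A hA hAp X
  set κ : ℝ := η * Real.log n / (4 * Real.log Q) with hκ
  have hκ0 : 0 ≤ κ := by positivity
  have hβκ : β * κ ≤ η / 2 := by
    have e : β * κ = η * (25 / 66) := by
      rw [hβ, hκ]; field_simp; norm_num
    rw [e]; linarith
  have hP0 : (0:ℝ) ≤ ((prodset fun _ : Fin n => A).card : ℝ) := Nat.cast_nonneg _
  have h2 : ((prodset fun _ : Fin n => A).card : ℝ) ^ β ≤ (A.card : ℝ) ^ ((1 + κ) * β) := by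
    rw [Real.rpow_mul (by linarith)]
    exact Real.rpow_le_rpow hP0 hlt.le hβ0.le
  have h3 : (A.card : ℝ) ^ (1 + β) * (X.card : ℝ) ^ (1 - 1 / t) ≤
      ((A.image j + X).card : ℝ) * (A.card : ℝ) ^ ((1 + κ) * β) :=
    hm.trans (mul_le_mul_of_nonneg_left h2 (Nat.cast_nonneg _))
  -- the partner
  have h4 : (A.card : ℝ) ^ (-(η / 2)) * X.card ≤ (X.card : ℝ) ^ (1 - 1 / t) := by
    have h5 : (X.card : ℝ) ^ (1 / t) ≤ (A.card : ℝ) ^ (η / 2) := by
      have := Real.rpow_le_rpow (by linarith) hX h1t0.le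
      rw [← Real.rpow_mul (by linarith)] at this
      have e : b * (1 / t) = η / 2 := by rw [ht]; field_simp
      rwa [e] at this
    have e2 : (X.card : ℝ) = (X.card : ℝ) ^ (1 - 1 / t) * (X.card : ℝ) ^ (1 / t) := by
      rw [← Real.rpow_add (by linarith)]; norm_num
    rw [Real.rpow_neg (by linarith)]
    have hp : 0 < (A.card : ℝ) ^ (η / 2) := Real.rpow_pos_of_pos (by linarith) _
    rw [inv_mul_le_iff₀ hp]
    calc (X.card : ℝ) = (X.card : ℝ) ^ (1 - 1 / t) * (X.card : ℝ) ^ (1 / t) := e2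
      _ ≤ (X.card : ℝ) ^ (1 - 1 / t) * (A.card : ℝ) ^ (η / 2) :=
          mul_le_mul_of_nonneg_left h5 (Real.rpow_nonneg (Nat.cast_nonneg _) _)
      _ = _ := mul_comm _ _
  have hD : 0 < (A.card : ℝ) ^ ((1 + κ) * β) := by positivity
  rw [← mul_le_mul_iff_left₀ hD]
  refine le_trans ?_ h3
  calc (A.card : ℝ) ^ (1 - η) * X.card * (A.card : ℝ) ^ ((1 + κ) * β)
      = ((A.card : ℝ) ^ (1 - η) * (A.card : ℝ) ^ ((1 + κ) * β) * (A.card : ℝ) ^ (η / 2)) *
          ((A.card : ℝ) ^ (-(η / 2)) * X.card) := by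
        have : (A.card : ℝ) ^ (η / 2) * (A.card : ℝ) ^ (-(η / 2)) = 1 := by
          rw [← Real.rpow_add (by linarith)]; simp
        calc _ = (A.card : ℝ) ^ (1 - η) * X.card * (A.card : ℝ) ^ ((1 + κ) * β) * 1 := by ring
          _ = _ := by rw [← this]; ring
    _ ≤ (A.card : ℝ) ^ (1 + β) * (X.card : ℝ) ^ (1 - 1 / t) := by
        apply mul_le_mul _ h4 (by positivity) (by positivity)
        rw [← Real.rpow_add (by linarith), ← Real.rpow_add (by linarith)]
        apply Real.rpow_le_rpow_of_exponent_le hcard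
        nlinarith

variable {H : Type*} [CommGroup H] [DecidableEq H]

/-- the exponent for two partners -/
theorem two_exp (j : R →+ G) (hj : Function.Injective j)
    (φ : R → H) (hφ : ∀ a ∈ V.S, ∀ b ∈ V.S, φ (a * b) = φ a * φ b)
    (hi : ∀ a ∈ V.S, ∀ b ∈ V.S, φ a = φ b → a = b) {b : ℝ} (hb : 2 ≤ b)
    (A : Finset R) (hA : A.Nonempty) (hAp : ∀ a ∈ A, a ∈ V.S) {X : Finset G} (hX : X.Nonempty)
    {Y : Finset H} (hY : Y.Nonempty) (hXb : (X.card : ℝ) ≤ (A.card : ℝ) ^ b)
    (hYb : (Y.card : ℝ) ≤ (A.card : ℝ) ^ b) :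
    (A.card : ℝ) ^ ((250 * (b * Real.log b)) ^ (-b)) ≤
      max (((A.image j + X).card : ℝ) / X.card) (((A.image φ * Y).card : ℝ) / Y.card) := by
  have hL1 := Real.log_two_gt_d9
  have hL2 := Real.log_two_lt_d9
  have hcard : (1:ℝ) ≤ A.card := by exact_mod_cast hA.card_pos
  have hXc : (1:ℝ) ≤ X.card := by exact_mod_cast hX.card_pos
  have hYc : (1:ℝ) ≤ Y.card := by exact_mod_cast hY.card_pos
  set l := Real.log b with hl
  have hl1 : 0.693 ≤ l := by
    have : Real.log 2 ≤ l := Real.log_le_log (by norm_num) hb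
    linarith
  have hl0 : 0 < l := by linarith
  have hb0 : 0 < b := by linarith
  set L := 1 + l with hL
  have hL0 : 0 < L := by linarith
  set t := 4 * b * L with ht
  have ht13 : 13.5 ≤ t := by rw [ht, hL]; nlinarith
  have ht0 : 0 < t := by linarith
  set c : ℝ := 2 ^ (1 / t) - 1 with hc
  have hc0 : 1 / t * Real.log 2 ≤ c := two_rpow_ge (1 / t)
  have hcpos : 0 < c := lt_of_lt_of_le (by positivity) hc0
  have h1t : 1 / t ≤ 1 / 13.5 := one_div_le_one_div_of_le (by norm_num) ht13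
  have hc1 : c ≤ 0.08 := by
    have := two_rpow_le (x := 1 / t) (by positivity) (by linarith)
    rw [hc]
    linarith
  set β : ℝ := (1 - 1 / (2 * L)) / b with hβ
  have h2L : 1 / (2 * L) ≤ 1 / 2 := by
    apply one_div_le_one_div_of_le (by norm_num); linarith
  have h2L0 : 0 < 1 / (2 * L) := by positivity
  have hβ0 : 0 < β := by rw [hβ]; apply div_pos (by linarith) hb0
  have hβ1 : β ≤ 1 / 2 := by rw [hβ, div_le_iff₀ hb0]; linarith
  set E : ℝ := (250 * (b * l)) ^ b with hE
  have hbase : 346 ≤ 250 * (b * l) := by nlinarith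
  have hE1 : 250 * (b * l) * (250 * (b * l)) ≤ E := by
    rw [hE]
    calc 250 * (b * l) * (250 * (b * l)) = (250 * (b * l)) ^ (2:ℝ) := by
          rw [Real.rpow_two]; ring
      _ ≤ _ := Real.rpow_le_rpow_of_exponent_le (by linarith) hb
  have hLbl : L ≤ 1.8 * (b * l) := by rw [hL]; nlinarith
  have hE8 : 8 * L ≤ E := by
    have : 8 * (1.8 * (b * l)) ≤ 250 * (b * l) * (250 * (b * l)) := by nlinarith
    linarith
  have hE0 : 0 < E := by positivity
  set n : ℕ := ⌊E / (4 * L)⌋₊ with hn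
  have hx2 : 2 ≤ E / (4 * L) := by rw [le_div_iff₀ (by positivity)]; linarith
  have hn2 : 2 ≤ n := by rw [hn]; exact Nat.le_floor (by exact_mod_cast hx2)
  have hnle : (n:ℝ) ≤ E / (4 * L) := Nat.floor_le (by positivity)
  have hnge : E / (8 * L) ≤ n := by
    have h1 : E / (4 * L) < n + 1 := Nat.lt_floor_add_one _
    have e : E / (4 * L) = 2 * (E / (8 * L)) := by field_simp; norm_num
    rw [e] at h1 hx2
    linarith
  have hn2' : (2:ℝ) ≤ n := by exact_mod_cast hn2
  -- the critical inequality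
  have hcβ : 1 / c ≤ ((n : ℝ) - (n - 1) * c) ^ β := by
    have h1 : 1 / c ≤ 5.78 * b * L := by
      rw [div_le_iff₀ hcpos]
      have e : 1 / t * Real.log 2 * (4 * b * L) = Real.log 2 := by rw [ht]; field_simp
      have h2 : 1 / t * Real.log 2 * (4 * b * L) ≤ c * (4 * b * L) :=
        mul_le_mul_of_nonneg_right hc0 (by positivity)
      rw [e] at h2
      have h3 : 5.78 * b * L * c = 1.445 * (c * (4 * b * L)) := by ring
      rw [h3]
      linarith
    have h2 : E / (9 * L) ≤ (n : ℝ) - (n - 1) * c := by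
      have h3 : (n:ℝ) * 0.92 ≤ (n : ℝ) - (n - 1) * c := by nlinarith
      have h4 : E / (9 * L) = (8 / 9) * (E / (8 * L)) := by field_simp
      rw [h4]
      linarith
    have hE9 : 0 < E / (9 * L) := by positivity
    refine h1.trans (le_trans ?_ (Real.rpow_le_rpow hE9.le h2 hβ0.le))
    rw [← Real.log_le_log_iff (by positivity) (by positivity), Real.log_rpow hE9,
      Real.log_div hE0.ne' (by positivity), hE, Real.log_rpow (by positivity),
      Real.log_mul (by positivity) hL0.ne', Real.log_mul (by norm_num) hb0.ne',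
      Real.log_mul (by norm_num) (by positivity), Real.log_mul hb0.ne' hl0.ne',
      Real.log_mul (by norm_num) hL0.ne', ← hl]
    -- numerical bounds
    have hlogL : Real.log L ≤ l := by
      have := Real.log_le_sub_one_of_pos hL0
      rw [hL] at this ⊢; linarith
    have hLl : Real.log L - Real.log l ≤ 0.894 := by
      rw [← Real.log_div hL0.ne' hl0.ne', Real.log_le_iff_le_exp (by positivity)]
      have h3 : L / l ≤ 2.4431 := by
        rw [div_le_iff₀ hl0, hL]; linarith
      have h4 := Real.sum_le_exp_of_nonneg (x := 0.894) (by norm_num) 8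
      simp only [Finset.sum_range_succ, Finset.sum_range_zero, Nat.factorial] at h4
      norm_num at h4
      norm_num at h3 ⊢
      linarith
    have h578 : Real.log 5.78 ≤ 1.755 := by
      rw [Real.log_le_iff_le_exp (by norm_num)]
      have h4 := Real.sum_le_exp_of_nonneg (x := 1.755) (by norm_num) 10
      simp only [Finset.sum_range_succ, Finset.sum_range_zero, Nat.factorial] at h4
      norm_num at h4
      norm_num
      linarith
    have h250 : 5.51 ≤ Real.log 250 := by
      have h3 : Real.log ((2:ℝ) ^ 199) ≤ Real.log ((250:ℝ) ^ 25) :=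
        Real.log_le_log (by norm_num) (by norm_num)
      rw [Real.log_pow, Real.log_pow] at h3
      push_cast at h3
      linarith
    have h9 : Real.log 9 ≤ 2.2 := by
      have h3 := log3
      have e : Real.log 9 = 2 * Real.log 3 := by
        have : (9:ℝ) = 3 ^ 2 := by norm_num
        rw [this, Real.log_pow]; norm_num
      rw [e]; linarith
    have hlb : l ≤ 0.37 * b := by
      have h3 : Real.log (0.37 * b) ≤ 0.37 * b - 1 := Real.log_le_sub_one_of_pos (by positivity)
      rw [Real.log_mul (by norm_num) hb0.ne', ← hl] at h3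
      have h4 : -1 ≤ Real.log 0.37 := by
        rw [Real.le_log_iff_exp_le (by norm_num)]
        have h5 := Real.exp_one_gt_d9
        rw [Real.exp_neg, inv_le_comm₀ (Real.exp_pos _) (by norm_num)]
        norm_num at h5 ⊢
        linarith
      linarith
    -- clear denominators
    have hβe : β = (1 + 2 * l) / (2 * L * b) := by
      rw [hβ, hL]; field_simp; ring
    rw [hβe, div_mul_eq_mul_div, le_div_iff₀ (by positivity)]
    set u := Real.log 250 with hu
    set v := Real.log l with hv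
    set w := Real.log L with hw
    set s := Real.log 5.78 with hs
    set r := Real.log 9 with hr
    -- goal: (s + l + w) * (2 * L * b) ≤ (1 + 2 * l) * (b * (u + (l + v)) - (r + w))
    have g1 : r + w ≤ 1.47 * b := by linarith
    have g2 : b * (u + (l + v)) - (r + w) ≥ b * (5.51 + l + (w - 0.894) - 1.47) := by nlinarith
    have g3 : (1 + 2 * l) * (b * (5.51 + l + (w - 0.894) - 1.47)) ≤
        (1 + 2 * l) * (b * (u + (l + v)) - (r + w)) :=
      mul_le_mul_of_nonneg_left g2 (by linarith)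
    refine le_trans ?_ g3
    have g4 : (s + l + w) * (2 * L) ≤ (1 + 2 * l) * (5.51 + l + (w - 0.894) - 1.47) := by
      rw [hL]
      nlinarith
    nlinarith
  have hθ1 : 1 - 1 / t < 1 := by have : 0 < 1 / t := by positivity
                                 linarith
  have hcθ : c ≤ 2 ^ (1 - (1 - 1 / t)) - 1 := by
    rw [hc]; apply le_of_eq; congr 2; ring
  have hm := two_partners V j hj φ hφ hi hn2 (θ := 1 - 1 / t) (by linarith) hθ1 hcpos hcθ
    hβ0.le hcβ A hA hAp X hY
  set M := max (((A.image j + X).card : ℝ) / X.card) (((A.image φ * Y).card : ℝ) / Y.card)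
    with hM
  have hM1 : 1 ≤ M := by
    apply le_max_of_le_left
    rw [le_div_iff₀ (by linarith), one_mul]
    exact_mod_cast Finset.card_le_card_add_left (hA.image j)
  have h1 : ((A.image j + X).card : ℝ) ≤ M * X.card := by
    rw [← div_le_iff₀ (by linarith)]; exact le_max_left _ _
  have h2 : ((((A.image φ * Y).card : ℝ) / Y.card) ^ n * Y.card) ^ β ≤
      M ^ (n * β) * (A.card : ℝ) ^ (b * β) := by
    have h3 : (((A.image φ * Y).card : ℝ) / Y.card) ^ n * Y.card ≤ M ^ n * (A.card : ℝ) ^ b := by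
      apply mul_le_mul _ hYb (by positivity) (by positivity)
      exact pow_le_pow_left₀ (by positivity) (le_max_right _ _) n
    refine (Real.rpow_le_rpow (by positivity) h3 hβ0.le).trans (le_of_eq ?_)
    rw [Real.mul_rpow (by positivity) (by positivity), ← Real.rpow_natCast,
      ← Real.rpow_mul (by linarith), ← Real.rpow_mul (by linarith)]
  have h3 : (X.card : ℝ) ≤ (X.card : ℝ) ^ (1 - 1 / t) * (A.card : ℝ) ^ (b / t) := by
    have h5 : (X.card : ℝ) ^ (1 / t) ≤ (A.card : ℝ) ^ (b / t) := by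
      have := Real.rpow_le_rpow (by linarith) hXb (show 0 ≤ 1 / t by positivity)
      rw [← Real.rpow_mul (by linarith)] at this
      have e : b * (1 / t) = b / t := by ring
      rwa [e] at this
    calc (X.card : ℝ) = (X.card : ℝ) ^ (1 - 1 / t) * (X.card : ℝ) ^ (1 / t) := by
          rw [← Real.rpow_add (by linarith)]; norm_num
      _ ≤ _ := mul_le_mul_of_nonneg_left h5 (by positivity)
  -- combine
  have h4 : (A.card : ℝ) ^ (1 + β) * (X.card : ℝ) ^ (1 - 1 / t) ≤
      (M * ((X.card : ℝ) ^ (1 - 1 / t) * (A.card : ℝ) ^ (b / t))) *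
        (M ^ (n * β) * (A.card : ℝ) ^ (b * β)) := by
    refine hm.trans (mul_le_mul (h1.trans (mul_le_mul_of_nonneg_left h3 (by linarith))) h2
      (by positivity) (by positivity))
  have hXp : 0 < (X.card : ℝ) ^ (1 - 1 / t) := by positivity
  have h5 : (A.card : ℝ) ^ (1 + β) ≤ M ^ (1 + n * β) * (A.card : ℝ) ^ (b / t + b * β) := by
    rw [← mul_le_mul_iff_left₀ hXp]
    refine h4.trans (le_of_eq ?_)
    rw [Real.rpow_add (by linarith : 0 < M), Real.rpow_add (by linarith : (0:ℝ) < A.card),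
      Real.rpow_one]
    ring
  have e1 : b / t = 1 / (4 * L) := by rw [ht]; field_simp
  have e2 : b * β = 1 - 1 / (2 * L) := by rw [hβ]; field_simp
  have e3 : 1 / (2 * L) = 2 * (1 / (4 * L)) := by field_simp; norm_num
  have h6 : (A.card : ℝ) ^ (1 / (4 * L)) ≤ M ^ (1 + n * β) := by
    have hp : 0 < (A.card : ℝ) ^ (b / t + b * β) := by positivity
    rw [← mul_le_mul_iff_left₀ hp]
    refine le_trans ?_ h5
    rw [← Real.rpow_add (by linarith)]
    apply Real.rpow_le_rpow_of_exponent_le hcard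
    rw [e1, e2, e3]
    linarith
  have h7 : M ^ (1 + n * β) ≤ M ^ (n:ℝ) :=
    Real.rpow_le_rpow_of_exponent_le hM1 (by nlinarith)
  have h8 : ((A.card : ℝ) ^ ((250 * (b * l)) ^ (-b))) ^ (n:ℝ) ≤ M ^ (n:ℝ) := by
    refine le_trans ?_ (h6.trans h7)
    rw [← Real.rpow_mul (by linarith)]
    apply Real.rpow_le_rpow_of_exponent_le hcard
    rw [Real.rpow_neg (by positivity), ← hE, inv_mul_le_iff₀ hE0]
    refine hnle.trans (le_of_eq ?_)
    ring
  exact (Real.rpow_le_rpow_iff (by positivity) (by linarith) (by linarith)).1 h8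

end

end Pool.Agent.N811.IS
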