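import Pool.Agent.N811.IS.PartE

set_option autoImplicit false

/-! Two partners for finite sets of rational numbers. -/

namespace Pool.Agent.N811.IS

open Finset
open scoped Pointwise

section
variable {F : Type*} [Field F] [CharZero F] [DecidableEq F]

/-- nonzero integers as units -/
noncomputable def toUnit (z : ℤ) : Fˣ :=
  open Classical in if h : (z : F) = 0 then 1 else Units.mk0 (z : F) h

lemma toUnit_val {z : ℤ} (hz : 0 < z) : ((toUnit z : Fˣ) : F) = z := by
  have h : (z : F) ≠ 0 := by exact_mod_cast hz.ne'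
  unfold toUnit
  rw [dif_neg h]; rfl

theorem rat_pos {b : ℝ} (hb : 2 ≤ b) (A : Finset ℚ) (hA : A.Nonempty) (hp : ∀ a ∈ A, 0 < a)
    (X Y : Finset F) (hX : X.Nonempty) (hY : Y.Nonempty) (h0 : (0:F) ∉ Y)
    (hXb : (X.card : ℝ) ≤ (A.card : ℝ) ^ b) (hYb : (Y.card : ℝ) ≤ (A.card : ℝ) ^ b) :
    (A.card : ℝ) ^ ((250 * (b * Real.log b)) ^ (-b)) ≤
      max (((A.image (fun a : ℚ => (a : F)) + X).card : ℝ) / X.card)
        (((A.image (fun a : ℚ => (a : F)) * Y).card : ℝ) / Y.card) := by
  classical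
  set D : ℚ := ∏ a ∈ A, (a.den : ℚ) with hD
  have hD0 : 0 < D := Finset.prod_pos fun a _ => by exact_mod_cast a.den_pos
  have hDF : (D : F) ≠ 0 := by exact_mod_cast hD0.ne'
  have hg : ∀ a ∈ A, (((a * D).num : ℤ) : ℚ) = a * D := by
    intro a ha
    have h1 : a * D = ((a.num * ∏ x ∈ A.erase a, (x.den : ℤ) : ℤ) : ℚ) := by
      rw [hD, ← Finset.mul_prod_erase A _ ha]
      push_cast
      rw [← mul_assoc, Rat.mul_den_eq_num]
    rw [h1, Rat.num_intCast]
  set g : ℚ → ℤ := fun a => (a * D).num with hgd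
  have hgp : ∀ a ∈ A, 0 < g a := by
    intro a ha
    have h1 : (0:ℚ) < (g a : ℤ) := by rw [hg a ha]; exact mul_pos (hp a ha) hD0
    exact_mod_cast h1
  have hginj : Set.InjOn g A := by
    intro a ha a' ha' h
    have h1 := hg a ha
    have h2 := hg a' ha'
    have h3 : ((g a : ℤ) : ℚ) = ((g a' : ℤ) : ℚ) := by rw [h]
    rw [hgd] at h3
    rw [h1, h2] at h3
    exact mul_right_cancel₀ hD0.ne' h3
  have hgF : ∀ a ∈ A, ((g a : ℤ) : F) = (a : F) * D := by
    intro a ha
    have h1 := congrArg (fun x : ℚ => (x : F)) (hg a ha)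
    simp only [Rat.cast_intCast, Rat.cast_mul] at h1
    exact h1
  set B : Finset ℤ := A.image g with hB
  have hBc : B.card = A.card := Finset.card_image_of_injOn hginj
  have hBp : ∀ z ∈ B, 0 < z := by
    intro z hz
    obtain ⟨a, ha, rfl⟩ := Finset.mem_image.1 hz
    exact hgp a ha
  set j : ℤ →+ F := (Int.castRingHom F).toAddMonoidHom with hj
  have hj' : ∀ z, j z = (z : F) := fun z => rfl
  have hjinj : Function.Injective j := fun x y h => by
    rw [hj', hj'] at h; exact_mod_cast h
  have hmulinj : Function.Injective fun x : F => x * (D:F) := mul_left_injective₀ hDF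
  -- the sum
  set X' : Finset F := X.image fun x => x * (D:F) with hX'
  have hX'c : X'.card = X.card := Finset.card_image_of_injective _ hmulinj
  have hsum : B.image j + X' = (A.image (fun a : ℚ => (a : F)) + X).image fun x => x * (D:F) := by
    ext z
    simp only [Finset.mem_add, Finset.mem_image, hB, hX']
    constructor
    · rintro ⟨_, ⟨_, ⟨a, ha, rfl⟩, rfl⟩, _, ⟨x, hx, rfl⟩, rfl⟩
      refine ⟨(a:F) + x, ⟨a, ⟨a, ha, rfl⟩, x, hx, rfl⟩, ?_⟩
      rw [hj', hgF a ha]; ring
    · rintro ⟨_, ⟨_, ⟨a, ha, rfl⟩, x, hx, rfl⟩, rfl⟩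
      refine ⟨j (g a), ⟨g a, ⟨a, ha, rfl⟩, rfl⟩, x * D, ⟨x, hx, rfl⟩, ?_⟩
      rw [hj', hgF a ha]; ring
  -- the product
  set Y' : Finset Fˣ := Y.preimage Units.val Units.val_injective.injOn with hY'
  have hY'm : ∀ y : Fˣ, y ∈ Y' ↔ (y : F) ∈ Y := fun y => by rw [hY', Finset.mem_preimage]
  have hY'i : Y'.image Units.val = Y := by
    ext y
    rw [Finset.mem_image]
    constructor
    · rintro ⟨u, hu, rfl⟩; exact (hY'm u).1 hu
    · intro hy
      have hy0 : y ≠ 0 := fun h => h0 (h ▸ hy)
      exact ⟨Units.mk0 y hy0, (hY'm _).2 hy, rfl⟩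
  have hY'c : Y'.card = Y.card := by
    rw [← hY'i, Finset.card_image_of_injective _ Units.val_injective]
  set φ : ℤ → Fˣ := toUnit with hφ
  have hprod : (B.image φ * Y').image Units.val =
      (A.image (fun a : ℚ => (a : F)) * Y).image fun x => x * (D:F) := by
    ext z
    simp only [Finset.mem_image, Finset.mem_mul, hB]
    constructor
    · rintro ⟨_, ⟨_, ⟨_, ⟨a, ha, rfl⟩, rfl⟩, u, hu, rfl⟩, rfl⟩
      refine ⟨(a:F) * u, ⟨a, ⟨a, ha, rfl⟩, u, (hY'm u).1 hu, rfl⟩, ?_⟩
      rw [Units.val_mul, hφ, toUnit_val (hgp a ha), hgF a ha]; ring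
    · rintro ⟨_, ⟨_, ⟨a, ha, rfl⟩, y, hy, rfl⟩, rfl⟩
      have hy0 : y ≠ 0 := fun h => h0 (h ▸ hy)
      refine ⟨φ (g a) * Units.mk0 y hy0, ⟨φ (g a), ⟨g a, ⟨a, ha, rfl⟩, rfl⟩,
        Units.mk0 y hy0, (hY'm _).2 hy, rfl⟩, ?_⟩
      rw [Units.val_mul, hφ, toUnit_val (hgp a ha), hgF a ha, Units.val_mk0]; ring
  have hmain := two_exp vrInt j hjinj φ
    (fun a ha b hb => by
      apply Units.ext
      rw [Units.val_mul, hφ, toUnit_val (mul_pos ha hb), toUnit_val ha, toUnit_val hb]
      push_cast; rfl)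
    (fun a ha b hb h => by
      have := congrArg Units.val h
      rw [hφ, toUnit_val ha, toUnit_val hb] at this
      exact_mod_cast this)
    hb B (hA.image g) hBp (X := X') (hX.image _) (Y := Y')
    (by rw [← Finset.card_pos, hY'c]; exact hY.card_pos)
    (by rw [hX'c, hBc]; exact hXb) (by rw [hY'c, hBc]; exact hYb)
  rw [hsum, Finset.card_image_of_injective _ hmulinj, hX'c, hY'c, hBc,
    ← Finset.card_image_of_injective (B.image φ * Y') Units.val_injective, hprod,
    Finset.card_image_of_injective _ hmulinj] at hmain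
  exact hmain

/-- finite sets of nonzero rational numbers -/
theorem rat_all {b : ℝ} (hb : 2 ≤ b) (A : Finset ℚ) (hA0 : (0:ℚ) ∉ A)
    (X Y : Finset F) (hX : X.Nonempty) (hY : Y.Nonempty) (h0 : (0:F) ∉ Y)
    (hXb : (X.card : ℝ) ≤ ((A.card : ℝ) / 2) ^ b) (hYb : (Y.card : ℝ) ≤ ((A.card : ℝ) / 2) ^ b) :
    ((A.card : ℝ) / 2) ^ ((250 * (b * Real.log b)) ^ (-b)) ≤
      max (((A.image (fun a : ℚ => (a : F)) + X).card : ℝ) / X.card)
        (((A.image (fun a : ℚ => (a : F)) * Y).card : ℝ) / Y.card) := by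
  classical
  have hτ : 0 ≤ (250 * (b * Real.log b)) ^ (-b) := by
    have : 0 ≤ Real.log b := Real.log_nonneg (by linarith)
    positivity
  have hA2 : (0:ℝ) < (A.card : ℝ) / 2 := by
    by_contra h
    have h1 : (A.card : ℝ) / 2 = 0 := le_antisymm (not_lt.1 h) (by positivity)
    rw [h1, Real.zero_rpow (by linarith)] at hXb
    have : (0:ℝ) < X.card := by exact_mod_cast hX.card_pos
    linarith
  -- a subset of one sign
  have key : ∀ (s : ℚ), (s = 1 ∨ s = -1) → ((A.card : ℝ) / 2) ≤ (A.filter fun a => 0 < s * a).card →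
      ((A.card : ℝ) / 2) ^ ((250 * (b * Real.log b)) ^ (-b)) ≤
      max (((A.image (fun a : ℚ => (a : F)) + X).card : ℝ) / X.card)
        (((A.image (fun a : ℚ => (a : F)) * Y).card : ℝ) / Y.card) := by
    intro s hs hle
    have hss : s * s = 1 := by rcases hs with rfl | rfl <;> norm_num
    have hs0 : s ≠ 0 := fun h => by rw [h] at hss; norm_num at hss
    have hssF : (s:F) * s = 1 := by exact_mod_cast hss
    have hsF : (s:F) ≠ 0 := by exact_mod_cast hs0
    set A₁ := A.filter fun a => 0 < s * a with hA₁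
    set B := A₁.image fun a => s * a with hB
    have hBc : B.card = A₁.card := Finset.card_image_of_injective _ (mul_right_injective₀ hs0)
    have hBne : B.Nonempty := by
      rw [← Finset.card_pos, hBc]
      have : (0:ℝ) < A₁.card := lt_of_lt_of_le hA2 hle
      exact_mod_cast this
    have hBp : ∀ a ∈ B, 0 < a := by
      intro z hz
      obtain ⟨a, ha, rfl⟩ := Finset.mem_image.1 hz
      exact (Finset.mem_filter.1 ha).2
    set X' := X.image fun x => (s:F) * x with hX'
    have hXc : X'.card = X.card := Finset.card_image_of_injective _ (mul_right_injective₀ hsF)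
    have hpow : ((A.card : ℝ) / 2) ^ b ≤ (B.card : ℝ) ^ b := by
      rw [hBc]; exact Real.rpow_le_rpow hA2.le hle (by linarith)
    have hm := rat_pos hb B hBne hBp X' Y (hX.image _) hY h0 (by rw [hXc]; exact hXb.trans hpow)
      (hYb.trans hpow)
    have c1 : (B.image (fun a : ℚ => (a : F)) + X').card ≤ (A.image (fun a : ℚ => (a : F)) + X).card := by
      rw [← Finset.card_image_of_injective (A.image (fun a : ℚ => (a : F)) + X)
        (mul_right_injective₀ hsF)]
      apply Finset.card_le_card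
      intro z hz
      obtain ⟨u, hu, v, hv, rfl⟩ := Finset.mem_add.1 hz
      obtain ⟨w, hw, rfl⟩ := Finset.mem_image.1 hu
      obtain ⟨a, ha, rfl⟩ := Finset.mem_image.1 hw
      obtain ⟨x, hx, rfl⟩ := Finset.mem_image.1 hv
      refine Finset.mem_image.2 ⟨(a:F) + x, Finset.add_mem_add
        (Finset.mem_image_of_mem _ (Finset.mem_filter.1 ha).1) hx, ?_⟩
      push_cast; ring
    have c2 : (B.image (fun a : ℚ => (a : F)) * Y).card ≤ (A.image (fun a : ℚ => (a : F)) * Y).card := by
      rw [← Finset.card_image_of_injective (A.image (fun a : ℚ => (a : F)) * Y)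
        (mul_right_injective₀ hsF)]
      apply Finset.card_le_card
      intro z hz
      obtain ⟨u, hu, v, hv, rfl⟩ := Finset.mem_mul.1 hz
      obtain ⟨w, hw, rfl⟩ := Finset.mem_image.1 hu
      obtain ⟨a, ha, rfl⟩ := Finset.mem_image.1 hw
      refine Finset.mem_image.2 ⟨(a:F) * v, Finset.mul_mem_mul
        (Finset.mem_image_of_mem _ (Finset.mem_filter.1 ha).1) hv, ?_⟩
      push_cast; ring
    have hXc0 : (0:ℝ) < X.card := by exact_mod_cast hX.card_pos
    have hYc0 : (0:ℝ) < Y.card := by exact_mod_cast hY.card_pos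
    calc ((A.card : ℝ) / 2) ^ ((250 * (b * Real.log b)) ^ (-b))
        ≤ (B.card : ℝ) ^ ((250 * (b * Real.log b)) ^ (-b)) := by
          rw [hBc]; exact Real.rpow_le_rpow hA2.le hle hτ
      _ ≤ _ := hm
      _ ≤ _ := by
          rw [hXc]
          apply max_le_max
          · apply div_le_div_of_nonneg_right _ hXc0.le
            exact_mod_cast c1
          · apply div_le_div_of_nonneg_right _ hYc0.le
            exact_mod_cast c2
  have hsplit : A.card = (A.filter fun a => 0 < 1 * a).card + (A.filter fun a => 0 < -1 * a).card := by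
    rw [← Finset.card_union_of_disjoint]
    · congr 1
      ext a
      simp only [Finset.mem_union, Finset.mem_filter]
      constructor
      · intro ha
        have : a ≠ 0 := fun h => hA0 (h ▸ ha)
        rcases lt_or_gt_of_ne this with h | h
        · right; exact ⟨ha, by linarith⟩
        · left; exact ⟨ha, by linarith⟩
      · rintro (h | h) <;> exact h.1
    · rw [Finset.disjoint_left]
      intro a h1 h2
      rw [Finset.mem_filter] at h1 h2
      linarith [h1.2, h2.2]
  have hsplit' : (A.card : ℝ) = (A.filter fun a => 0 < 1 * a).card +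
      (A.filter fun a => 0 < -1 * a).card := by exact_mod_cast hsplit
  rcases le_total ((A.card : ℝ) / 2) (A.filter fun a => 0 < 1 * a).card with h | h
  · exact key 1 (Or.inl rfl) h
  · exact key (-1) (Or.inr rfl) (by linarith)

end

end Pool.Agent.N811.IS
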