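import Pool.Agent.N811.IS.Kap
import Pool.Agent.N811.IS.Gp
import Pool.Agent.N811.IS.PartE

set_option autoImplicit false

/-! Examples: sharpness of the inequalities with partners. -/

namespace Pool.Agent.N811.IS

open Finset
open scoped Pointwise

/-- parameters of the example with two partners -/
lemma par_bounds {b : ℝ} (hb : 2 ≤ b) (h16 : 1 < b * Real.log b / 16) {M : ℕ}
    (hM : M = ⌈b * Real.log b / 4⌉₊) :
    4 ≤ (M:ℝ) ∧ b * Real.log b / 4 ≤ M ∧ (M:ℝ) < 4 ^ b ∧ (6:ℝ) ^ (M - 1) ≤ (M:ℝ) ^ (b + 1) := by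
  have hb0 : 0 < b := by linarith
  set l := Real.log b with hl
  have hl0 : 0 < l := Real.log_pos (by linarith)
  set T := b * l / 4 with hT
  have hT0 : 0 < T := by positivity
  have hT4 : 4 ≤ T := by rw [hT]; linarith
  have hb7 : 7 ≤ b := by
    by_contra hcon
    push Not at hcon
    have he : (7:ℝ) ≤ Real.exp 2 := by
      have h := Real.sum_le_exp_of_nonneg (x := 2) (by norm_num) 7
      simp only [Finset.sum_range_succ, Finset.sum_range_zero, Nat.factorial] at h
      norm_num at h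
      linarith
    have h1 : l ≤ 2 := by
      calc l ≤ Real.log (Real.exp 2) := Real.log_le_log hb0 (by linarith)
        _ = 2 := Real.log_exp 2
    rw [hT] at hT4
    nlinarith
  have hl1 : 1.94 ≤ l := log7.trans (Real.log_le_log (by norm_num) hb7)
  have hM1 : T ≤ M := by rw [hM]; exact Nat.le_ceil T
  have hM2 : (M:ℝ) < T + 1 := by rw [hM]; exact Nat.ceil_lt_add_one hT0.le
  have hM0 : (0:ℝ) < M := by linarith
  have hMn : 1 ≤ M := by
    have : 0 < M := by exact_mod_cast hM0
    omega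
  refine ⟨by linarith, hM1, ?_, ?_⟩
  · have h1 := Real.quadratic_le_exp_of_nonneg (x := b * 1.38) (by positivity)
    have h2 : Real.exp (b * 1.38) ≤ 4 ^ b := by
      rw [Real.rpow_def_of_pos (by norm_num)]
      apply Real.exp_le_exp.2
      have h3 : Real.log 4 = 2 * Real.log 2 := by
        have : (4:ℝ) = 2 ^ 2 := by norm_num
        rw [this, Real.log_pow]; norm_num
      have h4 := Real.log_two_gt_d9
      rw [h3]
      nlinarith
    have h5 : l ≤ b - 1 := Real.log_le_sub_one_of_pos hb0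
    have h6 : T ≤ b * (b - 1) / 4 := by
      rw [hT]
      have := mul_le_mul_of_nonneg_left h5 hb0.le
      linarith
    nlinarith
  · have hlogT : l + 1 - 4 / l ≤ Real.log T := by
      have h1 := Real.one_sub_inv_le_log_of_pos (show 0 < l / 4 by positivity)
      have e : T = b * (l / 4) := by rw [hT]; ring
      rw [e, Real.log_mul hb0.ne' (by positivity)]
      have e2 : (l / 4)⁻¹ = 4 / l := by field_simp
      rw [e2] at h1
      linarith
    have h2 : 4 / l ≤ 1 + 0.55205 * l := by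
      rw [div_le_iff₀ hl0]; nlinarith
    have h3 : 0.44795 * l ≤ Real.log M := by
      have := Real.log_le_log hT0 hM1
      linarith
    rw [← Real.log_le_log_iff (by positivity) (by positivity), Real.log_pow,
      Real.log_rpow hM0]
    have e : ((M - 1 : ℕ) : ℝ) = (M:ℝ) - 1 := by push_cast [Nat.cast_sub hMn]; ring
    rw [e]
    have h5 : ((M:ℝ) - 1) * Real.log 6 ≤ T * 1.7918 := by
      apply mul_le_mul (by linarith) log6 (by have := log6_pos; linarith) hT0.le
    have h6 : b * (0.44795 * l) ≤ (b + 1) * Real.log M := by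
      have : 0 ≤ Real.log M := Real.log_nonneg (by linarith)
      nlinarith
    rw [hT] at h5
    linarith

lemma ex_mul (M K : ℕ) (hM : 1 ≤ M) : ex M * ex K ⊆ ex (M + K - 1) := by
  intro z hz
  obtain ⟨a, ha, c, hc, rfl⟩ := Finset.mem_mul.1 hz
  unfold ex at ha hc ⊢
  obtain ⟨p, hp, rfl⟩ := Finset.mem_image.1 ha
  obtain ⟨q, hq, rfl⟩ := Finset.mem_image.1 hc
  rw [Finset.mem_product, Finset.mem_range, Finset.mem_range] at hp hq
  refine Finset.mem_image.2 ⟨(p.1 + q.1, p.2 + q.2), ?_, ?_⟩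
  · rw [Finset.mem_product, Finset.mem_range, Finset.mem_range]
    constructor
    · show p.1 + q.1 < _
      omega
    · show p.2 + q.2 < _
      omega
  · simp only; ring

/-- two partners: the exponent is sharp -/
theorem two_ex {b : ℝ} (hb : 2 ≤ b) :
    ∃ A X Y : Finset ℤ, 2 ≤ A.card ∧ (∀ a ∈ A, 0 < a) ∧ X.Nonempty ∧ Y.Nonempty ∧
      (∀ y ∈ Y, 0 < y) ∧ (X.card : ℝ) ≤ (A.card : ℝ) ^ b ∧ (Y.card : ℝ) ≤ (A.card : ℝ) ^ b ∧
      max (((A + X).card : ℝ) / X.card) (((A * Y).card : ℝ) / Y.card) <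
        (A.card : ℝ) ^ ((b * Real.log b / 16) ^ (-b)) := by
  have hb0 : 0 < b := by linarith
  have hl0 : 0 < Real.log b := Real.log_pos (by linarith)
  rcases le_or_gt (b * Real.log b / 16) 1 with h16 | h16
  · refine ⟨{1, 2}, {0, 1, 2, 3}, {1, 2, 4, 8}, by decide, by decide, by decide, by decide,
      by decide, ?_, ?_, ?_⟩
    · have h1 : (({0, 1, 2, 3} : Finset ℤ).card : ℝ) = 4 := by
        have : ({0, 1, 2, 3} : Finset ℤ).card = 4 := by decide
        rw [this]; norm_num
      have h2 : (({1, 2} : Finset ℤ).card : ℝ) = 2 := by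
        have : ({1, 2} : Finset ℤ).card = 2 := by decide
        rw [this]; norm_num
      rw [h1, h2]
      calc (4:ℝ) = 2 ^ (2:ℝ) := by norm_num
        _ ≤ 2 ^ b := Real.rpow_le_rpow_of_exponent_le (by norm_num) hb
    · have h1 : (({1, 2, 4, 8} : Finset ℤ).card : ℝ) = 4 := by
        have : ({1, 2, 4, 8} : Finset ℤ).card = 4 := by decide
        rw [this]; norm_num
      have h2 : (({1, 2} : Finset ℤ).card : ℝ) = 2 := by
        have : ({1, 2} : Finset ℤ).card = 2 := by decide
        rw [this]; norm_num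
      rw [h1, h2]
      calc (4:ℝ) = 2 ^ (2:ℝ) := by norm_num
        _ ≤ 2 ^ b := Real.rpow_le_rpow_of_exponent_le (by norm_num) hb
    · have h1 : (({0, 1, 2, 3} : Finset ℤ).card : ℝ) = 4 := by
        have : ({0, 1, 2, 3} : Finset ℤ).card = 4 := by decide
        rw [this]; norm_num
      have h1' : (({1, 2, 4, 8} : Finset ℤ).card : ℝ) = 4 := by
        have : ({1, 2, 4, 8} : Finset ℤ).card = 4 := by decide
        rw [this]; norm_num
      have h2 : (({1, 2} : Finset ℤ).card : ℝ) = 2 := by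
        have : ({1, 2} : Finset ℤ).card = 2 := by decide
        rw [this]; norm_num
      have h3 : ((({1, 2} : Finset ℤ) + {0, 1, 2, 3}).card : ℝ) = 5 := by
        have : (({1, 2} : Finset ℤ) + {0, 1, 2, 3}).card = 5 := by decide
        rw [this]; norm_num
      have h4 : ((({1, 2} : Finset ℤ) * {1, 2, 4, 8}).card : ℝ) = 5 := by
        have : (({1, 2} : Finset ℤ) * {1, 2, 4, 8}).card = 5 := by decide
        rw [this]; norm_num
      rw [h1, h1', h2, h3, h4, max_self]
      have h5 : (1:ℝ) ≤ (b * Real.log b / 16) ^ (-b) :=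
        Real.one_le_rpow_of_pos_of_le_one_of_nonpos (by positivity) h16 (by linarith)
      calc (5:ℝ) / 4 < 2 ^ (1:ℝ) := by norm_num
        _ ≤ _ := Real.rpow_le_rpow_of_exponent_le (by norm_num) h5
  · obtain ⟨M, hM⟩ : ∃ M, M = ⌈b * Real.log b / 4⌉₊ := ⟨_, rfl⟩
    obtain ⟨hM4, hMT, hM4b, hM6⟩ := par_bounds hb h16 hM
    have hM0 : (0:ℝ) < M := by linarith
    have hMn : 1 ≤ M := by
      have : 0 < M := by exact_mod_cast hM0
      omega
    have hcard : ((ex M).card : ℝ) = (M:ℝ) ^ 2 := by rw [ex_card]; push_cast; ring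
    set P : ℝ := (M:ℝ) ^ b with hP
    have hPM : (M:ℝ) ≤ P := by
      calc (M:ℝ) = (M:ℝ) ^ (1:ℝ) := (Real.rpow_one _).symm
        _ ≤ _ := Real.rpow_le_rpow_of_exponent_le (by linarith) (by linarith)
    have hP4 : 4 ≤ P := by linarith
    have hcb : ((ex M).card : ℝ) ^ b = P * P := by
      rw [hcard, ← Real.rpow_natCast, ← Real.rpow_mul hM0.le, hP, ← Real.rpow_add hM0]
      congr 1; push_cast; ring
    set K : ℕ := ⌊P⌋₊ with hK
    set N : ℕ := ⌊P * P⌋₊ with hN
    have hK1 : (K:ℝ) ≤ P := Nat.floor_le (by linarith)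
    have hK2 : P < K + 1 := Nat.lt_floor_add_one P
    have hN1 : (N:ℝ) ≤ P * P := Nat.floor_le (by positivity)
    have hN2 : P * P < N + 1 := Nat.lt_floor_add_one _
    have hK0 : (0:ℝ) < K := by linarith
    have hN0 : (0:ℝ) < N := by nlinarith
    have hKn : 1 ≤ K := by
      have : 0 < K := by exact_mod_cast hK0
      omega
    have hNn : 1 ≤ N := by
      have : 0 < N := by exact_mod_cast hN0
      omega
    have hXc : (Finset.Icc (1:ℤ) N).card = N := by rw [Int.card_Icc]; omega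
    have hMb : (M:ℝ) ^ (b + 1) = P * M := by rw [hP, Real.rpow_add hM0, Real.rpow_one]
    rw [hMb] at hM6
    -- the common bound for the ratios
    set r : ℝ := M / P with hr
    have hr0 : 0 < r := by positivity
    refine ⟨ex M, Finset.Icc 1 N, ex K, ?_, fun a ha => ex_pos ha, ?_, ?_,
      fun a ha => ex_pos ha, ?_, ?_, ?_⟩
    · rw [ex_card]
      have : 4 ≤ M := by exact_mod_cast hM4
      nlinarith
    · exact ⟨1, Finset.mem_Icc.2 ⟨le_refl _, by exact_mod_cast hNn⟩⟩
    · rw [← Finset.card_pos, ex_card]; positivity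
    · rw [hXc, hcb]; exact hN1
    · rw [ex_card, hcb]; push_cast; nlinarith
    · -- the ratios
      have s1 : ((ex M + Finset.Icc (1:ℤ) N).card : ℝ) ≤ N + 6 ^ (M - 1) := by
        have hsub : ex M + Finset.Icc (1:ℤ) N ⊆ Finset.Icc (1:ℤ) ((N + 6 ^ (M - 1) : ℕ) : ℤ) := by
          intro z hz
          obtain ⟨a, ha, x, hx, rfl⟩ := Finset.mem_add.1 hz
          rw [Finset.mem_Icc] at hx ⊢
          have h1 := ex_pos ha
          have h2 := ex_le ha
          push_cast
          constructor <;> linarith [hx.1, hx.2]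
        have := Finset.card_le_card hsub
        rw [Int.card_Icc] at this
        have h2 : (ex M + Finset.Icc (1:ℤ) N).card ≤ N + 6 ^ (M - 1) := by
          generalize 6 ^ (M - 1) = Z at *
          omega
        exact_mod_cast h2
      have s2 : ((ex M * ex K).card : ℝ) ≤ ((K:ℝ) + (M - 1)) ^ 2 := by
        have := Finset.card_le_card (ex_mul M K hMn)
        rw [ex_card] at this
        have h2 : ((ex M * ex K).card : ℝ) ≤ ((M + K - 1 : ℕ) : ℝ) ^ 2 := by exact_mod_cast this
        have h3 : ((M + K - 1 : ℕ) : ℝ) = (K:ℝ) + (M - 1) := by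
          rw [Nat.cast_sub (by omega)]; push_cast; ring
        rwa [h3] at h2
      have t1 : ((ex M + Finset.Icc (1:ℤ) N).card : ℝ) / N ≤ 1 + 2 * r := by
        rw [div_le_iff₀ hN0]
        have h1 : P * M ≤ 2 * r * N := by
          have e : 2 * r * N = (M / P) * (2 * N) := by rw [hr]; ring
          rw [e]
          have h2 : P * P ≤ 2 * N := by nlinarith
          calc P * M = (M / P) * (P * P) := by field_simp
            _ ≤ _ := mul_le_mul_of_nonneg_left h2 hr0.le
        linarith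
      have t2 : ((ex M * ex K).card : ℝ) / ((ex K).card : ℝ) ≤ (1 + r) ^ 2 := by
        rw [ex_card]
        push_cast
        rw [div_le_iff₀ (by positivity), ← mul_pow]
        refine s2.trans (pow_le_pow_left₀ (by linarith) ?_ 2)
        have h1 : (M:ℝ) - 1 ≤ r * K := by
          have h2 : (M:ℝ) - 1 ≤ r * (P - 1) := by
            have e : r * (P - 1) = M - r := by rw [hr]; field_simp
            rw [e]
            have : r ≤ 1 := by rw [hr, div_le_one (by linarith)]; exact hPM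
            linarith
          have h3 : r * (P - 1) ≤ r * K := mul_le_mul_of_nonneg_left (by linarith) hr0.le
          linarith
        linarith
      have t3 : max (((ex M + Finset.Icc (1:ℤ) N).card : ℝ) / (Finset.Icc (1:ℤ) N).card)
          (((ex M * ex K).card : ℝ) / (ex K).card) ≤ Real.exp (2 * r) := by
        rw [hXc]
        apply max_le
        · refine t1.trans ?_
          have := Real.add_one_le_exp (2 * r)
          linarith
        · refine t2.trans ?_
          have h1 := Real.add_one_le_exp r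
          have e : Real.exp (2 * r) = Real.exp r ^ 2 := by
            rw [← Real.exp_nat_mul]; norm_num
          rw [e]
          exact pow_le_pow_left₀ (by positivity) (by linarith) 2
      refine lt_of_le_of_lt t3 ?_
      rw [hcard, ← Real.rpow_natCast, ← Real.rpow_mul hM0.le, Real.rpow_def_of_pos hM0]
      apply Real.exp_lt_exp.2
      have hlogM : 1 ≤ Real.log M := by
        rw [Real.le_log_iff_exp_le hM0]
        have := Real.exp_one_lt_d9
        linarith
      have hτ : 4 ^ b / P ≤ (b * Real.log b / 16) ^ (-b) := by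
        rw [Real.rpow_neg (by positivity), div_le_iff₀ (by linarith), inv_mul_eq_div,
          le_div_iff₀ (by positivity)]
        have e : (4:ℝ) ^ b * (b * Real.log b / 16) ^ b = (b * Real.log b / 4) ^ b := by
          rw [← Real.mul_rpow (by norm_num) (by positivity)]; congr 1; ring
        rw [e]
        exact Real.rpow_le_rpow (by positivity) hMT hb0.le
      have h1 : r < 4 ^ b / P := by
        rw [hr]; exact div_lt_div_of_pos_right hM4b (by linarith)
      have h2 : r < (b * Real.log b / 16) ^ (-b) := lt_of_lt_of_le h1 hτ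
      have h3 : 0 < (b * Real.log b / 16) ^ (-b) := by positivity
      push_cast
      nlinarith

/-! the sharpness of the alternatives -/

lemma icc_card (M : ℕ) : (Finset.Icc (1:ℤ) (2 ^ (M - 1))).card = 2 ^ (M - 1) := by
  rw [Int.card_Icc]
  have : (2:ℤ) ^ (M - 1) + 1 - 1 = ((2 ^ (M - 1) : ℕ) : ℤ) := by push_cast; ring
  rw [this, Int.toNat_natCast]

lemma interval_sum (M : ℕ) (hM : 1 ≤ M) :
    (gp M + Finset.Icc (1:ℤ) (2 ^ (M - 1))).card < 2 ^ M := by
  have hsub : gp M + Finset.Icc (1:ℤ) (2 ^ (M - 1)) ⊆ Finset.Icc (2:ℤ) (2 ^ M) := by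
    intro z hz
    obtain ⟨a, ha, x, hx, rfl⟩ := Finset.mem_add.1 hz
    unfold gp at ha
    obtain ⟨i, hi, rfl⟩ := Finset.mem_image.1 ha
    rw [Finset.mem_range] at hi
    rw [Finset.mem_Icc] at hx ⊢
    have h1 : (1:ℤ) ≤ 2 ^ i := one_le_pow₀ (by norm_num)
    have h2 : (2:ℤ) ^ i ≤ 2 ^ (M - 1) := pow_le_pow_right₀ (by norm_num) (by omega)
    have h3 : (2:ℤ) ^ M = 2 ^ (M - 1) + 2 ^ (M - 1) := by
      obtain ⟨k, rfl⟩ : ∃ k, M = k + 1 := ⟨M - 1, by omega⟩
      rw [Nat.add_sub_cancel, pow_succ]; ring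
    constructor <;> linarith [hx.1, hx.2]
  have h := Finset.card_le_card hsub
  rw [Int.card_Icc] at h
  have h1 : (2:ℤ) ≤ 2 ^ M := by
    calc (2:ℤ) = 2 ^ 1 := by norm_num
      _ ≤ 2 ^ M := pow_le_pow_right₀ (by norm_num) hM
  have h2 : ((2:ℤ) ^ M + 1 - 2).toNat = 2 ^ M - 1 := by
    have : ((2 ^ M : ℕ) : ℤ) = (2:ℤ) ^ M := by push_cast; ring
    rw [← this]; omega
  rw [h2] at h
  have : 0 < 2 ^ M := by positivity
  omega

/-- the product of two sets of integers in `ℤ²` -/
def two (A B : Finset ℤ) : Finset (Fin 2 → ℤ) := Fintype.piFinset ![A, B]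

lemma two_card (A B : Finset ℤ) : (two A B).card = A.card * B.card := by
  unfold two
  rw [Fintype.card_piFinset, Fin.prod_univ_two]
  rfl

lemma two_add (A B C D : Finset ℤ) : two A B + two C D ⊆ two (A + C) (B + D) := by
  intro z hz
  obtain ⟨x, hx, y, hy, rfl⟩ := Finset.mem_add.1 hz
  unfold two at hx hy ⊢
  rw [Fintype.mem_piFinset] at hx hy ⊢
  intro i
  fin_cases i
  · exact Finset.add_mem_add (hx 0) (hy 0)
  · exact Finset.add_mem_add (hx 1) (hy 1)

lemma two_prod (A B : Finset ℤ) (n : ℕ) :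
    (prodset fun _ : Fin n => two A B) ⊆
      two (prodset fun _ : Fin n => A) (prodset fun _ : Fin n => B) := by
  intro z hz
  obtain ⟨f, hf, rfl⟩ := (mem_prodset _ _).1 hz
  unfold two at hf ⊢
  rw [Fintype.mem_piFinset]
  intro i
  fin_cases i
  · refine (mem_prodset _ _).2 ⟨fun k => f k 0, fun k => (Fintype.mem_piFinset.1 (hf k)) 0, ?_⟩
    simp
  · refine (mem_prodset _ _).2 ⟨fun k => f k 1, fun k => (Fintype.mem_piFinset.1 (hf k)) 1, ?_⟩
    simp

/-- the alternatives are sharp in all parameters -/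
theorem alt_ex {b η : ℝ} (hb : 1 ≤ b) (hη : 0 < η) (hη1 : η ≤ 1 / 4) :
    ∃ A X : Finset (Fin 2 → ℤ), A.Nonempty ∧ (∀ a ∈ A, ∀ i, 0 < a i) ∧ X.Nonempty ∧
      (X.card : ℝ) ≤ (A.card : ℝ) ^ b ∧
      ((A + X).card : ℝ) < (A.card : ℝ) ^ (1 - η) * X.card ∧
      ∀ n : ℕ, 1 ≤ n → ((prodset fun _ : Fin n => A).card : ℝ) ≤
        (A.card : ℝ) ^ (1 + 16 * (η * Real.log n / Real.log (b / η))) := by
  set q : ℕ := ⌊1 / (2 * η)⌋₊ with hq
  have hx2 : 2 ≤ 1 / (2 * η) := by rw [le_div_iff₀ (by positivity)]; linarith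
  have hq2 : 2 ≤ q := by rw [hq]; exact Nat.le_floor (by exact_mod_cast hx2)
  have hq2' : (2:ℝ) ≤ q := by exact_mod_cast hq2
  have hq0 : (0:ℝ) < q := by linarith
  have hqle : (q:ℝ) ≤ 1 / (2 * η) := Nat.floor_le (by positivity)
  have hqη : q * η ≤ 1 / 2 := by
    rw [le_div_iff₀ (by positivity)] at hqle; linarith
  have hqge : 1 / (4 * η) ≤ q := by
    have h1 : 1 / (2 * η) < q + 1 := Nat.lt_floor_add_one _
    have e : 1 / (2 * η) = 2 * (1 / (4 * η)) := by field_simp; norm_num
    rw [e] at h1 hx2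
    linarith
  obtain ⟨s, hs⟩ : ∃ s, q = s + 1 := ⟨q - 1, by omega⟩
  set Z : ℝ := q * b with hZ
  have hZ2 : 2 ≤ Z := by rw [hZ]; nlinarith
  set M : ℕ := max 5 ⌈Z⌉₊ with hM
  have hM5 : 5 ≤ M := le_max_left _ _
  have hM5' : (5:ℝ) ≤ M := by exact_mod_cast hM5
  have hMZ : Z ≤ M := (Nat.le_ceil Z).trans (by exact_mod_cast le_max_right _ _)
  have hM0 : (0:ℝ) < M := by linarith
  have hMs : 1 ≤ M ^ s := Nat.one_le_pow _ _ (by omega)
  set A := two (gp M) (gp (M ^ s)) with hA
  set X := two (Finset.Icc 1 (2 ^ (M - 1))) {0} with hX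
  have hAc : A.card = M ^ q := by
    rw [hA, two_card, gp_card, gp_card, hs, pow_succ, mul_comm]
  have hAc' : (A.card : ℝ) = (M:ℝ) ^ (q:ℝ) := by
    rw [hAc, Real.rpow_natCast]; push_cast; rfl
  have hXc : X.card = 2 ^ (M - 1) := by
    rw [hX, two_card, icc_card, Finset.card_singleton, mul_one]
  have hA1 : (1:ℝ) ≤ A.card := by
    rw [hAc]; exact_mod_cast Nat.one_le_pow _ _ (by omega)
  refine ⟨A, X, ?_, ?_, ?_, ?_, ?_, ?_⟩
  · rw [← Finset.card_pos, hAc]; positivity
  · intro a ha i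
    rw [hA] at ha
    unfold two at ha
    rw [Fintype.mem_piFinset] at ha
    fin_cases i
    · exact gp_pos (ha 0)
    · exact gp_pos (ha 1)
  · rw [← Finset.card_pos, hXc]; positivity
  · rw [hXc, hAc', ← Real.rpow_mul hM0.le, ← hZ]
    push_cast
    rcases le_or_gt Z 5 with h5 | h5
    · have hMe : M = 5 := by
        rw [hM]
        apply max_eq_left
        exact Nat.ceil_le.2 (by exact_mod_cast h5)
      rw [hMe]
      norm_num
      calc (16:ℝ) ≤ 5 ^ (2:ℝ) := by norm_num
        _ ≤ 5 ^ Z := Real.rpow_le_rpow_of_exponent_le (by norm_num) hZ2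
    · have h6 : (M:ℝ) < Z + 1 := by
        have h7 : M = ⌈Z⌉₊ := by
          rw [hM]
          apply max_eq_right
          have : (5:ℝ) < ⌈Z⌉₊ := lt_of_lt_of_le h5 (Nat.le_ceil Z)
          have : 5 < ⌈Z⌉₊ := by exact_mod_cast this
          omega
        rw [h7]; exact Nat.ceil_lt_add_one (by linarith)
      have e : ((M - 1 : ℕ) : ℝ) = (M:ℝ) - 1 := by
        rw [Nat.cast_sub (by omega)]; norm_num
      calc (2:ℝ) ^ (M - 1) = 2 ^ ((M - 1 : ℕ) : ℝ) := (Real.rpow_natCast _ _).symm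
        _ ≤ 2 ^ Z := Real.rpow_le_rpow_of_exponent_le (by norm_num) (by rw [e]; linarith)
        _ ≤ M ^ Z := Real.rpow_le_rpow (by norm_num) (by linarith) (by linarith)
  · have h1 : (A + X).card < 2 ^ M * M ^ s := by
      have h2 := Finset.card_le_card (two_add (gp M) (gp (M ^ s)) (Finset.Icc 1 (2 ^ (M - 1))) {0})
      rw [two_card, Finset.card_add_singleton, gp_card] at h2
      refine lt_of_le_of_lt h2 ?_
      exact Nat.mul_lt_mul_of_pos_right (interval_sum M (by omega)) (by omega)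
    have h1' : ((A + X).card : ℝ) < 2 ^ M * (M:ℝ) ^ s := by exact_mod_cast h1
    refine lt_of_lt_of_le h1' ?_
    rw [hXc, hAc', ← Real.rpow_mul hM0.le]
    push_cast
    have e1 : (2:ℝ) ^ M = 2 * 2 ^ (M - 1) := by
      rw [← pow_succ']; congr 1; omega
    have e2 : (M:ℝ) ^ ((q:ℝ) * (1 - η)) = (M:ℝ) ^ s * (M:ℝ) ^ (1 - q * η) := by
      rw [← Real.rpow_natCast, ← Real.rpow_add hM0]
      congr 1
      rw [hs]; push_cast; ring
    have h3 : (2:ℝ) ≤ (M:ℝ) ^ (1 - q * η) := by
      calc (2:ℝ) ≤ (M:ℝ) ^ (1 / 2 : ℝ) := by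
            rw [← Real.sqrt_eq_rpow]
            apply Real.le_sqrt_of_sq_le; linarith
        _ ≤ _ := Real.rpow_le_rpow_of_exponent_le (by linarith) (by linarith)
    rw [e1, e2]
    have h4 : (0:ℝ) < 2 ^ (M - 1) * (M:ℝ) ^ s := by positivity
    calc 2 * 2 ^ (M - 1) * (M:ℝ) ^ s = 2 * (2 ^ (M - 1) * (M:ℝ) ^ s) := by ring
      _ ≤ (M:ℝ) ^ (1 - q * η) * (2 ^ (M - 1) * (M:ℝ) ^ s) :=
          mul_le_mul_of_nonneg_right h3 h4.le
      _ = _ := by ring
  · intro n hn
    have hn' : (1:ℝ) ≤ n := by exact_mod_cast hn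
    have h1 : ((prodset fun _ : Fin n => A).card : ℝ) ≤ (n:ℝ) ^ 2 * A.card := by
      have h2 := Finset.card_le_card (two_prod (gp M) (gp (M ^ s)) n)
      rw [two_card] at h2
      have h3 : ∀ K : ℕ, 1 ≤ K → (prodset fun _ : Fin n => gp K).card ≤ n * K := by
        intro K hK
        refine (gp_prod K n hK).trans ?_
        obtain ⟨k, rfl⟩ : ∃ k, K = k + 1 := ⟨K - 1, by omega⟩
        rw [Nat.add_sub_cancel]
        nlinarith
      have h4 := h2.trans (Nat.mul_le_mul (h3 M (by omega)) (h3 (M ^ s) hMs))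
      have h5 : n * M * (n * M ^ s) = n ^ 2 * A.card := by
        rw [hAc, hs, pow_succ]; ring
      rw [h5] at h4
      exact_mod_cast h4
    refine h1.trans ?_
    have hlogM : 0 < Real.log M := Real.log_pos (by linarith)
    have hlogn : 0 ≤ Real.log n := Real.log_nonneg hn'
    have hbη : 4 ≤ b / η := by rw [le_div_iff₀ hη]; linarith
    have hlogb : 0 < Real.log (b / η) := Real.log_pos (by linarith)
    -- `log M ≥ log (b / η) / 2`
    have h6 : Real.log (b / η) ≤ 2 * Real.log M := by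
      have h7 : b / η ≤ (M:ℝ) ^ 2 := by
        have h8 : b / η ≤ 4 * M := by
          have h9 : b / η ≤ 4 * Z := by
            rw [hZ, div_le_iff₀ hη]
            have h10 : 1 ≤ 4 * η * q := by
              rw [div_le_iff₀ (by positivity)] at hqge; linarith
            nlinarith
          linarith
        nlinarith
      have := Real.log_le_log (by linarith) h7
      rwa [Real.log_pow] at this
    rw [Real.rpow_add (by linarith), Real.rpow_one, mul_comm]
    apply mul_le_mul_of_nonneg_left _ (by linarith)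
    rw [hAc', ← Real.rpow_mul hM0.le, Real.rpow_def_of_pos hM0]
    have e3 : (n:ℝ) ^ 2 = Real.exp (2 * Real.log n) := by
      rw [two_mul, Real.exp_add, Real.exp_log (by linarith), sq]
    rw [e3]
    apply Real.exp_le_exp.2
    -- `2 log n ≤ log M q 16 η log n / log (b / η)`
    have h8 : 1 ≤ 4 * η * q := by
      rw [div_le_iff₀ (by positivity)] at hqge; linarith
    have h9 : Real.log (b / η) ≤ Real.log M * (q * (8 * η)) := by nlinarith
    have e4 : Real.log M * (q * (16 * (η * Real.log n / Real.log (b / η)))) =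
        2 * Real.log n * (Real.log M * (q * (8 * η)) / Real.log (b / η)) := by ring
    rw [e4]
    have h10 : 1 ≤ Real.log M * (q * (8 * η)) / Real.log (b / η) := by
      rw [le_div_iff₀ hlogb]; linarith
    nlinarith

/-! the exponent in the isoperimetric inequality -/

lemma pw_add (m : ℕ) (A B : Finset ℤ) : pw m A + pw m B ⊆ pw m (A + B) := by
  intro z hz
  obtain ⟨x, hx, y, hy, rfl⟩ := Finset.mem_add.1 hz
  unfold pw at hx hy ⊢
  rw [Fintype.mem_piFinset] at hx hy ⊢
  intro i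
  exact Finset.add_mem_add (hx i) (hy i)

/-- a necessary condition in the rings `ℤ^m` -/
theorem nec {n : ℕ} (hn : 1 ≤ n) {t β C : ℝ} (ht : 1 ≤ t) (hβ : 0 ≤ β)
    (h : ∀ (m : ℕ) (A X : Finset (Fin m → ℤ)), A.Nonempty → (∀ a ∈ A, ∀ i, 0 < a i) →
      X.Nonempty → (A.card : ℝ) ^ (1 + β) * (X.card : ℝ) ^ (1 - 1 / t) ≤
        C * (((A + X).card : ℝ) * ((prodset fun _ : Fin n => A).card : ℝ) ^ β)) :
    t / 4 ≤ (n:ℝ) ^ β := by
  by_contra hcon
  push Not at hcon
  have hn' : (1:ℝ) ≤ n := by exact_mod_cast hn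
  set M : ℕ := ⌈t⌉₊ with hM
  have hMt : t ≤ M := Nat.le_ceil t
  have hMt2 : (M:ℝ) < t + 1 := Nat.ceil_lt_add_one (by linarith)
  have hM0 : (0:ℝ) < M := by linarith
  have hMn : 1 ≤ M := by
    have : 0 < M := by exact_mod_cast hM0
    omega
  have ht0 : 0 < t := by linarith
  set a : ℝ := (M:ℝ) ^ (1 + β) * ((2:ℝ) ^ (M - 1)) ^ (1 - 1 / t) with ha
  set d : ℝ := (2:ℝ) ^ M * ((n:ℝ) * M) ^ β with hd
  have hd0 : 0 < d := by positivity
  have hda : d < a := by
    have e1 : ((2:ℝ) ^ (M - 1)) ^ (1 - 1 / t) = 2 ^ (M - 1) * 2 ^ (-(((M:ℝ) - 1) / t)) := by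
      rw [Real.rpow_sub (by positivity), Real.rpow_one, ← Real.rpow_natCast,
        ← Real.rpow_mul (by norm_num), Real.rpow_neg (by norm_num), div_eq_mul_inv]
      congr 2
      rw [Nat.cast_sub hMn]; push_cast; congr 1; ring
    have e2 : (2:ℝ) ^ M = 2 * 2 ^ (M - 1) := by
      rw [← pow_succ']; congr 1; omega
    have h1 : (1:ℝ) / 2 ≤ 2 ^ (-(((M:ℝ) - 1) / t)) := by
      calc (1:ℝ) / 2 = 2 ^ (-(1:ℝ)) := by rw [Real.rpow_neg (by norm_num)]; norm_num
        _ ≤ _ := by
          apply Real.rpow_le_rpow_of_exponent_le (by norm_num)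
          have : ((M:ℝ) - 1) / t ≤ 1 := by rw [div_le_one ht0]; linarith
          linarith
    rw [ha, hd, e1, e2, Real.mul_rpow (by positivity) hM0.le, Real.rpow_add hM0, Real.rpow_one]
    have hMβ : 0 < (M:ℝ) ^ β := by positivity
    have h2p : (0:ℝ) < 2 ^ (M - 1) := by positivity
    have h3 : 2 * (n:ℝ) ^ β < M * 2 ^ (-(((M:ℝ) - 1) / t)) := by
      have : M * (1 / 2) ≤ M * (2:ℝ) ^ (-(((M:ℝ) - 1) / t)) :=
        mul_le_mul_of_nonneg_left h1 hM0.le
      linarith
    calc 2 * 2 ^ (M - 1) * ((n:ℝ) ^ β * (M:ℝ) ^ β)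
        = (2 * (n:ℝ) ^ β) * (2 ^ (M - 1) * (M:ℝ) ^ β) := by ring
      _ < (M * 2 ^ (-(((M:ℝ) - 1) / t))) * (2 ^ (M - 1) * (M:ℝ) ^ β) :=
          mul_lt_mul_of_pos_right h3 (by positivity)
      _ = _ := by ring
  have hgt : 1 < a / d := by rw [lt_div_iff₀ hd0]; linarith
  obtain ⟨m, hm⟩ := pow_unbounded_of_one_lt C hgt
  have hX := icc_card M
  have h1 := h m (pw m (gp M)) (pw m (Finset.Icc 1 (2 ^ (M - 1))))
    (by rw [← Finset.card_pos, pw_card, gp_card]; positivity)
    (fun a ha i => gp_pos (Fintype.mem_piFinset.1 ha i))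
    (by rw [← Finset.card_pos, pw_card, hX]; positivity)
  rw [pw_card, pw_card, gp_card, hX] at h1
  have h2 : ((pw m (gp M) + pw m (Finset.Icc 1 (2 ^ (M - 1)))).card : ℝ) ≤ ((2:ℝ) ^ M) ^ m := by
    have h3 := Finset.card_le_card (pw_add m (gp M) (Finset.Icc 1 (2 ^ (M - 1))))
    rw [pw_card] at h3
    have h4 := h3.trans (Nat.pow_le_pow_left (interval_sum M hMn).le m)
    exact_mod_cast h4
  have h3 : ((prodset fun _ : Fin n => pw m (gp M)).card : ℝ) ≤ ((n:ℝ) * M) ^ m := by
    have h4 : (prodset fun _ : Fin n => gp M).card ≤ n * M := by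
      refine (gp_prod M n hMn).trans ?_
      obtain ⟨k, hk⟩ : ∃ k, M = k + 1 := ⟨M - 1, by omega⟩
      rw [hk, Nat.add_sub_cancel]
      nlinarith
    have h5 := (pw_prod m n (gp M)).trans (Nat.pow_le_pow_left h4 m)
    exact_mod_cast h5
  have hC : 0 ≤ C := by
    by_contra hC
    push Not at hC
    have h6 : 0 < (((M ^ m : ℕ) : ℝ)) ^ (1 + β) * ((((2 ^ (M - 1)) ^ m : ℕ)) : ℝ) ^ (1 - 1 / t) := by
      positivity
    have h7 : 0 ≤ ((pw m (gp M) + pw m (Finset.Icc 1 (2 ^ (M - 1)))).card : ℝ) *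
        ((prodset fun _ : Fin n => pw m (gp M)).card : ℝ) ^ β := by positivity
    nlinarith
  have h4 : a ^ m ≤ C * d ^ m := by
    have e1 : a ^ m = (((M ^ m : ℕ) : ℝ)) ^ (1 + β) * ((((2 ^ (M - 1)) ^ m : ℕ)) : ℝ) ^ (1 - 1 / t) := by
      rw [ha, mul_pow]
      push_cast
      congr 1
      · rw [← Real.rpow_natCast, ← Real.rpow_natCast, ← Real.rpow_mul (by positivity),
          ← Real.rpow_mul (by positivity), mul_comm]
      · rw [← Real.rpow_natCast, ← Real.rpow_natCast (((2:ℝ) ^ (M - 1))) m,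
          ← Real.rpow_mul (by positivity), ← Real.rpow_mul (by positivity), mul_comm]
    rw [e1]
    refine h1.trans (mul_le_mul_of_nonneg_left ?_ hC)
    have e2 : d ^ m = ((2:ℝ) ^ M) ^ m * (((n:ℝ) * M) ^ m) ^ β := by
      rw [hd, mul_pow]
      congr 1
      rw [← Real.rpow_natCast, ← Real.rpow_natCast, ← Real.rpow_mul (by positivity),
        ← Real.rpow_mul (by positivity), mul_comm β (m:ℝ)]
    rw [e2]
    exact mul_le_mul h2 (Real.rpow_le_rpow (by positivity) h3 hβ) (by positivity) (by positivity)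
  rw [div_pow, lt_div_iff₀ (by positivity)] at hm
  linarith

end Pool.Agent.N811.IS
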