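import Mathlib

set_option autoImplicit false

/-! The real inequality behind the isoperimetric step. -/

namespace Pool.Agent.N811.IS

open Finset

/-- convexity of `z ↦ (b + z^p)^(1/p)` -/
lemma conv_norm {b p z₀ z₁ l : ℝ} (hb : 0 ≤ b) (hp : 1 ≤ p) (h0 : 0 ≤ z₀) (h1 : 0 ≤ z₁)
    (hl0 : 0 ≤ l) (hl1 : l ≤ 1) :
    (b + ((1 - l) * z₀ + l * z₁) ^ p) ^ (1 / p) ≤
      (1 - l) * (b + z₀ ^ p) ^ (1 / p) + l * (b + z₁ ^ p) ^ (1 / p) := by
  have hp0 : 0 < p := by linarith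
  set B := b ^ (1 / p) with hB
  have hB0 : 0 ≤ B := by positivity
  have hBp : B ^ p = b := by
    rw [hB, ← Real.rpow_mul hb]
    have : 1 / p * p = 1 := by field_simp
    rw [this, Real.rpow_one]
  have hl : 0 ≤ 1 - l := by linarith
  have hom : ∀ t : ℝ, 0 ≤ t → ∀ z : ℝ, 0 ≤ z →
      ((t * B) ^ p + (t * z) ^ p) ^ (1 / p) = t * (b + z ^ p) ^ (1 / p) := by
    intro t ht z hz
    rw [Real.mul_rpow ht hB0, Real.mul_rpow ht hz, hBp, ← mul_add,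
      Real.mul_rpow (by positivity) (by positivity), ← Real.rpow_mul ht]
    have : p * (1 / p) = 1 := by field_simp
    rw [this, Real.rpow_one]
  have h := Real.Lp_add_le_of_nonneg (Finset.univ : Finset (Fin 2))
    (f := ![(1 - l) * B, (1 - l) * z₀]) (g := ![l * B, l * z₁]) (p := p) hp
    (by intro i _; fin_cases i <;> simp <;> positivity)
    (by intro i _; fin_cases i <;> simp <;> positivity)
  simp only [Fin.sum_univ_two, Matrix.cons_val_zero, Matrix.cons_val_one] at h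
  rw [hom (1 - l) hl z₀ h0, hom l hl0 z₁ h1] at h
  have e : (1 - l) * B + l * B = B := by ring
  rw [e, hBp] at h
  exact h

/-- concavity of `z ↦ (b + z) / (A + c z)` against convexity of `φ` -/
lemma two_point {φ : ℝ → ℝ} {b A c z₀ z₁ l : ℝ} (hA : 0 < A) (hc : 0 ≤ c) (hbc : b * c ≤ A)
    (h0 : 0 ≤ z₀) (h1 : 0 ≤ z₁) (hl0 : 0 ≤ l) (hl1 : l ≤ 1)
    (hφ : φ ((1 - l) * z₀ + l * z₁) ≤ (1 - l) * φ z₀ + l * φ z₁)
    (e0 : φ z₀ * (A + c * z₀) ≤ b + z₀) (e1 : φ z₁ * (A + c * z₁) ≤ b + z₁) :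
    φ ((1 - l) * z₀ + l * z₁) * (A + c * ((1 - l) * z₀ + l * z₁)) ≤
      b + ((1 - l) * z₀ + l * z₁) := by
  have hl : 0 ≤ 1 - l := by linarith
  have hz : 0 ≤ (1 - l) * z₀ + l * z₁ := by positivity
  have p0 : 0 < A + c * z₀ := by positivity
  have p1 : 0 < A + c * z₁ := by positivity
  have pz : 0 < A + c * ((1 - l) * z₀ + l * z₁) := by positivity
  have f0 : φ z₀ ≤ (b + z₀) / (A + c * z₀) := by rwa [le_div_iff₀ p0]
  have f1 : φ z₁ ≤ (b + z₁) / (A + c * z₁) := by rwa [le_div_iff₀ p1]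
  have h2 : φ ((1 - l) * z₀ + l * z₁) ≤
      (1 - l) * ((b + z₀) / (A + c * z₀)) + l * ((b + z₁) / (A + c * z₁)) := by
    have := mul_le_mul_of_nonneg_left f0 hl
    have := mul_le_mul_of_nonneg_left f1 hl0
    linarith
  have h3 : (b + ((1 - l) * z₀ + l * z₁)) / (A + c * ((1 - l) * z₀ + l * z₁)) -
      ((1 - l) * ((b + z₀) / (A + c * z₀)) + l * ((b + z₁) / (A + c * z₁))) =
      l * (1 - l) * (A - b * c) * c * (z₁ - z₀) ^ 2 /
        ((A + c * ((1 - l) * z₀ + l * z₁)) * (A + c * z₀) * (A + c * z₁)) := by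
    field_simp
    ring
  have h4 : 0 ≤ l * (1 - l) * (A - b * c) * c * (z₁ - z₀) ^ 2 /
        ((A + c * ((1 - l) * z₀ + l * z₁)) * (A + c * z₀) * (A + c * z₁)) := by
    have : 0 ≤ A - b * c := by linarith
    positivity
  rw [← le_div_iff₀ pz]
  linarith

/-- the previous two combined, on an interval -/
lemma interval {θ b A c z₀ z₁ z : ℝ} (hθ0 : 0 < θ) (hθ1 : θ ≤ 1) (hb : 0 ≤ b) (hA : 0 < A)
    (hc : 0 ≤ c) (hbc : b * c ≤ A) (h0 : 0 ≤ z₀) (h01 : z₀ < z₁) (hz0 : z₀ ≤ z) (hz1 : z ≤ z₁)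
    (e0 : (b + z₀ ^ (1 / θ)) ^ θ * (A + c * z₀) ≤ b + z₀)
    (e1 : (b + z₁ ^ (1 / θ)) ^ θ * (A + c * z₁) ≤ b + z₁) :
    (b + z ^ (1 / θ)) ^ θ * (A + c * z) ≤ b + z := by
  set l := (z - z₀) / (z₁ - z₀) with hl
  have hd : 0 < z₁ - z₀ := by linarith
  have hl0 : 0 ≤ l := div_nonneg (by linarith) hd.le
  have hl1 : l ≤ 1 := by rw [hl, div_le_one hd]; linarith
  have hz : (1 - l) * z₀ + l * z₁ = z := by rw [hl]; field_simp; ring
  have hp : 1 ≤ 1 / θ := by rw [le_div_iff₀ hθ0]; linarith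
  have hconv := conv_norm (b := b) (p := 1 / θ) hb hp h0 (by linarith : 0 ≤ z₁) hl0 hl1
  have e : 1 / (1 / θ) = θ := by field_simp
  rw [e] at hconv
  have := two_point (φ := fun z => (b + z ^ (1 / θ)) ^ θ) (b := b) (A := A) (c := c) hA hc hbc h0
    (by linarith : 0 ≤ z₁) hl0 hl1 hconv e0 e1
  simp only [hz] at this
  exact this

/-! numerical facts at the threshold `5/2` -/

lemma amgm {l y : ℝ} (hl0 : 0 ≤ l) (hl1 : l ≤ 1) (hy : 0 ≤ y) : y ^ l ≤ (1 - l) + l * y := by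
  have := Real.geom_mean_le_arith_mean2_weighted (w₁ := 1 - l) (w₂ := l) (p₁ := 1) (p₂ := y)
    (by linarith) hl0 zero_le_one hy (by ring)
  rw [Real.one_rpow, one_mul, mul_one] at this
  exact this

lemma sqrt_bounds : (1.41421 : ℝ) < √2 ∧ √2 < 1.41422 := by
  constructor
  · rw [Real.lt_sqrt (by norm_num)]; norm_num
  · rw [Real.sqrt_lt' (by norm_num)]; norm_num

lemma pow_half {x a : ℝ} (hx : 0 ≤ x) : x ^ a = (√x) ^ (2 * a) := by
  rw [Real.rpow_mul (Real.sqrt_nonneg x), Real.rpow_two, Real.sq_sqrt hx]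

lemma num3 {a : ℝ} (h0 : 0 ≤ a) (h1 : a ≤ 1 / 2) : 1 ≤ (2 - (2:ℝ) ^ a) * 3 ^ a := by
  obtain ⟨s1, s2⟩ := sqrt_bounds
  have hl0 : 0 ≤ 2 * a := by linarith
  have hl1 : 2 * a ≤ 1 := by linarith
  have hX : (2:ℝ) ^ a ≤ (1 - 2 * a) + 2 * a * √2 := by
    rw [pow_half (by norm_num : (0:ℝ) ≤ 2)]
    exact amgm hl0 hl1 (Real.sqrt_nonneg 2)
  have h3 : (2 - √2) ^ (2 * a) ≤ 2 - (2:ℝ) ^ a := by
    have := amgm hl0 hl1 (show (0:ℝ) ≤ 2 - √2 by linarith)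
    linarith
  have h4 : (3:ℝ) ^ a = (√3) ^ (2 * a) := pow_half (by norm_num)
  have s3 : (1.732:ℝ) < √3 := by rw [Real.lt_sqrt (by norm_num)]; norm_num
  calc (1:ℝ) ≤ ((2 - √2) * √3) ^ (2 * a) := Real.one_le_rpow (by nlinarith) hl0
    _ = (2 - √2) ^ (2 * a) * (√3) ^ (2 * a) :=
        Real.mul_rpow (by linarith) (Real.sqrt_nonneg 3)
    _ ≤ _ := by
        rw [h4]
        exact mul_le_mul_of_nonneg_right h3 (by positivity)

lemma num2 {a : ℝ} (h0 : 0 ≤ a) (h1 : a ≤ 1 / 2) :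
    5 ≤ (2 - (2:ℝ) ^ a) * (4 + 2 ^ a) * (5 / 2) ^ a := by
  obtain ⟨s1, s2⟩ := sqrt_bounds
  have hl0 : 0 ≤ 2 * a := by linarith
  have hl1 : 2 * a ≤ 1 := by linarith
  have hX : (2:ℝ) ^ a ≤ (1 - 2 * a) + 2 * a * √2 := by
    rw [pow_half (by norm_num : (0:ℝ) ≤ 2)]
    exact amgm hl0 hl1 (Real.sqrt_nonneg 2)
  have hX2 : (2:ℝ) ^ a * 2 ^ a ≤ (1 - 2 * a) + 2 * a * 2 := by
    have e : (2:ℝ) ^ a * 2 ^ a = 2 ^ (2 * a) := by
      rw [← Real.rpow_add (by norm_num)]; congr 1; ring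
    rw [e]
    exact amgm hl0 hl1 (by norm_num)
  have hy0 : (0:ℝ) ≤ (6 - 2 * √2) / 5 := by linarith
  have h3 : 5 * ((6 - 2 * √2) / 5) ^ (2 * a) ≤ (2 - (2:ℝ) ^ a) * (4 + 2 ^ a) := by
    have := amgm hl0 hl1 hy0
    nlinarith
  have h4 : ((5:ℝ) / 2) ^ a = (√(5 / 2)) ^ (2 * a) := pow_half (by norm_num)
  have s3 : (1.5811:ℝ) < √(5 / 2) := by rw [Real.lt_sqrt (by norm_num)]; norm_num
  calc (5:ℝ) ≤ 5 * ((6 - 2 * √2) / 5 * √(5 / 2)) ^ (2 * a) := by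
        have : (1:ℝ) ≤ ((6 - 2 * √2) / 5 * √(5 / 2)) ^ (2 * a) :=
          Real.one_le_rpow (by nlinarith) hl0
        linarith
    _ = 5 * ((6 - 2 * √2) / 5) ^ (2 * a) * (√(5 / 2)) ^ (2 * a) := by
        rw [Real.mul_rpow hy0 (Real.sqrt_nonneg _), mul_assoc]
    _ ≤ _ := by
        rw [h4]
        exact mul_le_mul_of_nonneg_right h3 (by positivity)

lemma log54 : 9 / 28 * Real.log 2 ≤ Real.log (5 / 4) := by
  have h : Real.log ((2:ℝ) ^ 9) ≤ Real.log ((5 / 4 : ℝ) ^ 28) :=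
    Real.log_le_log (by norm_num) (by norm_num)
  rw [Real.log_pow, Real.log_pow] at h
  push_cast at h
  linarith

lemma num1 {a : ℝ} (h0 : 0 ≤ a) (h1 : a ≤ 1 / 2) :
    5 / 2 * ((2:ℝ) ^ a * (1 + 2 ^ a)) ≤ (4 + 2 ^ a) * (5 / 2) ^ a := by
  have hL1 := Real.log_two_gt_d9
  have hL2 := Real.log_two_lt_d9
  set y : ℝ := a * Real.log 2 with hy
  have hy0 : 0 ≤ y := by positivity
  have hy1 : y ≤ 0.3466 := by nlinarith
  have e2 : (2:ℝ) ^ a = Real.exp y := by rw [Real.rpow_def_of_pos (by norm_num), mul_comm]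
  have e5 : (5 / 4 : ℝ) ^ a = Real.exp (a * Real.log (5 / 4)) := by
    rw [Real.rpow_def_of_pos (by norm_num), mul_comm]
  have e52 : ((5:ℝ) / 2) ^ a = 2 ^ a * (5 / 4) ^ a := by
    rw [← Real.mul_rpow (by norm_num) (by norm_num)]; norm_num
  -- lower bounds
  have hw : 9 / 28 * y ≤ a * Real.log (5 / 4) := by
    have := mul_le_mul_of_nonneg_left log54 h0
    rw [hy]; linarith
  have hA : 1 + 9 / 28 * y + (9 / 28 * y) ^ 2 / 2 ≤ (5 / 4 : ℝ) ^ a := by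
    rw [e5]
    exact (Real.quadratic_le_exp_of_nonneg (by positivity)).trans (Real.exp_le_exp.2 hw)
  have hB : 1 + 37 / 28 * y + (37 / 28 * y) ^ 2 / 2 + (37 / 28 * y) ^ 3 / 6 ≤
      (5 / 4 : ℝ) ^ a * Real.exp y := by
    rw [e5, ← Real.exp_add]
    have h := Real.sum_le_exp_of_nonneg (x := 37 / 28 * y) (by positivity) 4
    simp only [Finset.sum_range_succ, Finset.sum_range_zero, Nat.factorial] at h
    norm_num at h
    refine le_trans ?_ (h.trans (Real.exp_le_exp.2 (by linarith)))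
    nlinarith
  -- upper bound
  have hC : Real.exp y ≤ 1 + y + y ^ 2 / 2 + 2 / 9 * y ^ 3 := by
    have h := Real.exp_bound' hy0 (by linarith : y ≤ 1) (n := 3) (by norm_num)
    simp only [Finset.sum_range_succ, Finset.sum_range_zero, Nat.factorial] at h
    norm_num at h
    linarith
  have hpos : 0 < Real.exp y := Real.exp_pos y
  rw [e52, e2]
  have key : 5 / 2 * (1 + Real.exp y) ≤ (4 + Real.exp y) * (5 / 4 : ℝ) ^ a := by
    have hD : 5 / 2 * (1 + (1 + y + y ^ 2 / 2 + 2 / 9 * y ^ 3)) ≤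
        4 * (1 + 9 / 28 * y + (9 / 28 * y) ^ 2 / 2) +
        (1 + 37 / 28 * y + (37 / 28 * y) ^ 2 / 2 + (37 / 28 * y) ^ 3 / 6) := by
      nlinarith [mul_nonneg hy0 (sub_nonneg.2 hy1), mul_nonneg (mul_nonneg hy0 hy0) (sub_nonneg.2 hy1)]
    nlinarith
  nlinarith

end Pool.Agent.N811.IS
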