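import Pool.Agent.N811.IS.Real

set_option autoImplicit false

/-! The real inequality behind the isoperimetric step, part 2. -/

namespace Pool.Agent.N811.IS

open Finset

/-- the minimal value of `∑ x_i^θ` given `∑ x_i = y`, `0 ≤ x_i ≤ 1` (for `y ≤ 2`; a lower bound for
`y > 2`) -/
noncomputable def psi (θ y : ℝ) : ℝ :=
  if y ≤ 1 then y ^ θ else if y ≤ 2 then 1 + (y - 1) ^ θ else y

lemma self_le {θ x : ℝ} (hθ1 : θ ≤ 1) (hx0 : 0 ≤ x) (hx1 : x ≤ 1) : x ≤ x ^ θ := by
  rcases hx0.eq_or_lt with h | h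
  · subst h
    exact Real.rpow_nonneg le_rfl θ
  · have := Real.rpow_le_rpow_of_exponent_ge h hx1 hθ1
    rwa [Real.rpow_one] at this

lemma major {θ x y : ℝ} (hθ0 : 0 ≤ θ) (hθ1 : θ ≤ 1) (hx1 : x ≤ 1) (hy1 : y ≤ 1)
    (hxy : 1 ≤ x + y) : 1 + (x + y - 1) ^ θ ≤ x ^ θ + y ^ θ := by
  set d := x + y - 1 with hd
  have hd0 : 0 ≤ d := by linarith
  have hd1 : d ≤ 1 := by linarith
  rcases hd1.eq_or_lt with h | h
  · have hx : x = 1 := by linarith
    have hy : y = 1 := by linarith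
    rw [h, hx, hy, Real.one_rpow]
  · have h1d : 0 < 1 - d := by linarith
    set l := (1 - y) / (1 - d) with hl
    have hl0 : 0 ≤ l := div_nonneg (by linarith) h1d.le
    have hl1 : l ≤ 1 := by rw [hl, div_le_one h1d]; linarith
    have hc := (Real.concaveOn_rpow hθ0 hθ1).2
    have c1 := hc (show d ∈ Set.Ici (0:ℝ) from hd0) (show (1:ℝ) ∈ Set.Ici (0:ℝ) by simp)
      (show 0 ≤ 1 - l by linarith) hl0 (by ring)
    have c2 := hc (show d ∈ Set.Ici (0:ℝ) from hd0) (show (1:ℝ) ∈ Set.Ici (0:ℝ) by simp)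
      hl0 (show 0 ≤ 1 - l by linarith) (by ring)
    simp only [smul_eq_mul, mul_one, Real.one_rpow] at c1 c2
    have e1 : (1 - l) * d + l = x := by
      have : l * (1 - d) = 1 - y := by rw [hl]; field_simp
      linarith
    have e2 : l * d + (1 - l) = y := by
      have : l * (1 - d) = 1 - y := by rw [hl]; field_simp
      linarith
    rw [e1] at c1
    rw [e2] at c2
    linarith

lemma psi_ge {θ y : ℝ} (hθ1 : θ ≤ 1) (hy : 0 ≤ y) : y ≤ psi θ y := by
  unfold psi
  split_ifs with h1 h2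
  · exact self_le hθ1 hy h1
  · have := self_le hθ1 (show 0 ≤ y - 1 by linarith) (by linarith)
    linarith
  · exact le_rfl

lemma psi_add {θ x y : ℝ} (hθ0 : 0 ≤ θ) (hθ1 : θ ≤ 1) (hx0 : 0 ≤ x) (hx1 : x ≤ 1) (hy : 0 ≤ y) :
    psi θ (y + x) ≤ psi θ y + x ^ θ := by
  have hxx := self_le hθ1 hx0 hx1
  have hyy := psi_ge (θ := θ) hθ1 hy
  by_cases h2 : y + x ≤ 2
  swap
  · have : psi θ (y + x) = y + x := by
      unfold psi; rw [if_neg (by linarith), if_neg h2]
    rw [this]; linarith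
  by_cases h1 : y + x ≤ 1
  · have e1 : psi θ (y + x) = (y + x) ^ θ := by unfold psi; rw [if_pos h1]
    have e2 : psi θ y = y ^ θ := by unfold psi; rw [if_pos (by linarith)]
    rw [e1, e2]
    exact Real.rpow_add_le_add_rpow hy hx0 hθ0 hθ1
  · have e1 : psi θ (y + x) = 1 + (y + x - 1) ^ θ := by
      unfold psi; rw [if_neg h1, if_pos h2]
    rw [e1]
    by_cases h3 : y ≤ 1
    · have e2 : psi θ y = y ^ θ := by unfold psi; rw [if_pos h3]
      rw [e2]
      exact major hθ0 hθ1 h3 hx1 (by linarith)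
    · have e2 : psi θ y = 1 + (y - 1) ^ θ := by
        unfold psi; rw [if_neg h3, if_pos (by linarith)]
      rw [e2]
      have := Real.rpow_add_le_add_rpow (show 0 ≤ y - 1 by linarith) hx0 hθ0 hθ1
      have e3 : y - 1 + x = y + x - 1 := by ring
      rw [e3] at this
      linarith

lemma sum_ge {ι : Type*} {θ : ℝ} (hθ0 : 0 < θ) (hθ1 : θ ≤ 1) (J : Finset ι) (x : ι → ℝ)
    (hx0 : ∀ i ∈ J, 0 ≤ x i) (hx1 : ∀ i ∈ J, x i ≤ 1) :
    psi θ (∑ i ∈ J, x i) ≤ ∑ i ∈ J, x i ^ θ := by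
  classical
  induction J using Finset.induction_on with
  | empty =>
    simp only [Finset.sum_empty]
    unfold psi
    rw [if_pos (by norm_num), Real.zero_rpow hθ0.ne']
  | insert a s ha ih =>
    rw [Finset.sum_insert ha, Finset.sum_insert ha]
    have h1 := ih (fun i hi => hx0 i (Finset.mem_insert_of_mem hi))
      (fun i hi => hx1 i (Finset.mem_insert_of_mem hi))
    have h2 := psi_add (θ := θ) (x := x a) (y := ∑ i ∈ s, x i) hθ0.le hθ1
      (hx0 a (Finset.mem_insert_self a s)) (hx1 a (Finset.mem_insert_self a s))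
      (Finset.sum_nonneg fun i hi => hx0 i (Finset.mem_insert_of_mem hi))
    have e : x a + ∑ i ∈ s, x i = ∑ i ∈ s, x i + x a := add_comm _ _
    rw [e]
    linarith

/-- alternatives -/
lemma alt {θ s Sg : ℝ} (hθ : 1 / 2 ≤ θ) (hθ1 : θ < 1) (hs : 1 ≤ s)
    (hS : 1 + psi θ (s - 1) ≤ Sg) :
    s ^ θ * (1 - (2 ^ (1 - θ) - 1) + (2 ^ (1 - θ) - 1) * Sg) ≤ Sg ∨
      s ^ θ ≤ (1 - (2 ^ (1 - θ) - 1)) * Sg := by
  set a : ℝ := 1 - θ with ha
  have ha0 : 0 < a := by linarith
  have ha1 : a ≤ 1 / 2 := by linarith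
  have hθ0 : 0 < θ := by linarith
  set X : ℝ := (2:ℝ) ^ a with hX
  have hX1 : 1 ≤ X := Real.one_le_rpow (by norm_num) ha0.le
  have n1 := num1 ha0.le ha1
  have n2 := num2 ha0.le ha1
  have n3 := num3 ha0.le ha1
  have hX2 : X < 2 := by
    have : (2:ℝ) ^ a < 2 ^ (1:ℝ) := Real.rpow_lt_rpow_of_exponent_lt (by norm_num) (by linarith)
    rwa [Real.rpow_one] at this
  have hc0 : 0 ≤ X - 1 := by linarith
  have hc1 : X - 1 < 1 := by linarith
  have hθa : θ = 1 - a := by rw [ha]; ring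
  have e2 : (2:ℝ) ^ θ * X = 2 := by
    rw [hX, ← Real.rpow_add (by norm_num), hθa]
    norm_num
  have ehalf : ((1:ℝ) / 2) ^ θ = X / 2 := by
    rw [Real.div_rpow (by norm_num) (by norm_num), Real.one_rpow]
    have : (0:ℝ) < 2 ^ θ := by positivity
    field_simp
    linarith
  have e52 : ((5:ℝ) / 2) ^ θ * (5 / 2) ^ a = 5 / 2 := by
    rw [← Real.rpow_add (by norm_num), hθa]
    norm_num
  have e3 : (3:ℝ) ^ θ * 3 ^ a = 3 := by
    rw [← Real.rpow_add (by norm_num), hθa]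
    norm_num
  have p52 : (0:ℝ) < (5 / 2) ^ a := by positivity
  have p3 : (0:ℝ) < 3 ^ a := by positivity
  have hs0 : 0 ≤ s := by linarith
  -- transfer of the first alternative to a larger sum
  have hI : ∀ S₀ : ℝ, 1 ≤ S₀ → S₀ ≤ Sg → s ^ θ * (1 - (X - 1) + (X - 1) * S₀) ≤ S₀ →
      s ^ θ * (1 - (X - 1) + (X - 1) * Sg) ≤ Sg := by
    intro S₀ h1 h2 h3
    have hp : 0 < 1 - (X - 1) + (X - 1) * S₀ := by nlinarith
    have hsp : 0 ≤ s ^ θ := by positivity
    have hk : (X - 1) * s ^ θ ≤ 1 := by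
      by_contra hcon
      push Not at hcon
      have h4 : s ^ θ * (1 - (X - 1)) + S₀ * ((X - 1) * s ^ θ) ≤ S₀ := by linarith
      have h5 : S₀ * 1 < S₀ * ((X - 1) * s ^ θ) := by
        apply mul_lt_mul_of_pos_left hcon (by linarith)
      have h6 : 0 ≤ s ^ θ * (1 - (X - 1)) := mul_nonneg hsp (by linarith)
      linarith
    have h7 : (X - 1) * s ^ θ * (Sg - S₀) ≤ 1 * (Sg - S₀) :=
      mul_le_mul_of_nonneg_right hk (by linarith)
    nlinarith
  rcases le_or_gt (s - 1) 1 with hy1 | hy1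
  · left
    have hpsi : psi θ (s - 1) = (s - 1) ^ θ := by unfold psi; rw [if_pos hy1]
    rw [hpsi] at hS
    set z := (s - 1) ^ θ with hz
    have hz0 : 0 ≤ z := Real.rpow_nonneg (by linarith) θ
    have hz1 : z ≤ 1 := Real.rpow_le_one (by linarith) hy1 hθ0.le
    have hzp : z ^ (1 / θ) = s - 1 := by
      rw [hz, ← Real.rpow_mul (by linarith)]
      have : θ * (1 / θ) = 1 := by field_simp
      rw [this, Real.rpow_one]
    have h := interval (θ := θ) (b := 1) (A := 1) (c := X - 1) (z₀ := 0) (z₁ := 1) (z := z)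
      hθ0 hθ1.le zero_le_one one_pos hc0 (by linarith) le_rfl one_pos hz0 hz1
      (by rw [Real.zero_rpow (by positivity)]; norm_num)
      (by
        rw [Real.one_rpow]
        have : (1 + 1 : ℝ) = 2 := by norm_num
        rw [this]
        have : (2:ℝ) ^ θ * (1 + (X - 1) * 1) = 2 ^ θ * X := by ring
        rw [this, e2])
    rw [hzp] at h
    refine hI (1 + z) (by linarith) hS ?_
    have e : 1 + (s - 1) = s := by ring
    rw [e] at h
    have e' : 1 - (X - 1) + (X - 1) * (1 + z) = 1 + (X - 1) * z := by ring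
    rw [e']
    exact h
  rcases le_or_gt (s - 1) (3 / 2) with hy2 | hy2
  · left
    have hpsi : psi θ (s - 1) = 1 + (s - 1 - 1) ^ θ := by
      unfold psi; rw [if_neg (by linarith), if_pos (by linarith)]
    rw [hpsi] at hS
    set z := (s - 1 - 1) ^ θ with hz
    have hz0 : 0 ≤ z := Real.rpow_nonneg (by linarith) θ
    have hz1 : z ≤ (1 / 2) ^ θ := Real.rpow_le_rpow (by linarith) (by linarith) hθ0.le
    have hzp : z ^ (1 / θ) = s - 1 - 1 := by
      rw [hz, ← Real.rpow_mul (by linarith)]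
      have : θ * (1 / θ) = 1 := by field_simp
      rw [this, Real.rpow_one]
    have hhalf : (((1:ℝ) / 2) ^ θ) ^ (1 / θ) = 1 / 2 := by
      rw [← Real.rpow_mul (by norm_num)]
      have : θ * (1 / θ) = 1 := by field_simp
      rw [this, Real.rpow_one]
    have h := interval (θ := θ) (b := 2) (A := X) (c := X - 1) (z₀ := 0) (z₁ := (1 / 2) ^ θ)
      (z := z) hθ0 hθ1.le (by norm_num) (by linarith) hc0 (by linarith) le_rfl (by positivity)
      hz0 hz1
      (by
        rw [Real.zero_rpow (by positivity)]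
        have : ((2:ℝ) + 0) ^ θ * (X + (X - 1) * 0) = 2 ^ θ * X := by rw [add_zero]; ring
        rw [this, e2]; norm_num)
      (by
        rw [hhalf, ehalf]
        have e5 : (2:ℝ) + 1 / 2 = 5 / 2 := by norm_num
        rw [e5]
        have e6 : ((5:ℝ) / 2) ^ θ = 5 / 2 / (5 / 2) ^ a := by
          rw [eq_div_iff p52.ne']; exact e52
        rw [e6, div_mul_eq_mul_div, div_le_iff₀ p52]
        nlinarith)
    rw [hzp] at h
    refine hI (2 + z) (by linarith) (by linarith) ?_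
    have e : 2 + (s - 1 - 1) = s := by ring
    rw [e] at h
    have e' : 1 - (X - 1) + (X - 1) * (2 + z) = X + (X - 1) * z := by ring
    rw [e']
    exact h
  rcases le_or_gt (s - 1) 2 with hy3 | hy3
  · right
    have hpsi : psi θ (s - 1) = 1 + (s - 1 - 1) ^ θ := by
      unfold psi; rw [if_neg (by linarith), if_pos hy3]
    rw [hpsi] at hS
    set z := (s - 1 - 1) ^ θ with hz
    have hz0 : (1 / 2) ^ θ ≤ z := Real.rpow_le_rpow (by norm_num) (by linarith) hθ0.le
    have hz1 : z ≤ 1 := Real.rpow_le_one (by linarith) (by linarith) hθ0.le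
    have hzp : z ^ (1 / θ) = s - 1 - 1 := by
      rw [hz, ← Real.rpow_mul (by linarith)]
      have : θ * (1 / θ) = 1 := by field_simp
      rw [this, Real.rpow_one]
    have hhalf : (((1:ℝ) / 2) ^ θ) ^ (1 / θ) = 1 / 2 := by
      rw [← Real.rpow_mul (by norm_num)]
      have : θ * (1 / θ) = 1 := by field_simp
      rw [this, Real.rpow_one]
    have hD : 0 < 2 - X := by linarith
    have h := interval (θ := θ) (b := 2) (A := 1 / (2 - X)) (c := 0) (z₀ := (1 / 2) ^ θ) (z₁ := 1)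
      (z := z) hθ0 hθ1.le (by norm_num) (by positivity) le_rfl (by rw [mul_zero]; positivity)
      (by positivity) (Real.rpow_lt_one (by norm_num) (by norm_num) hθ0) hz0 hz1
      (by
        rw [hhalf, ehalf]
        have e5 : (2:ℝ) + 1 / 2 = 5 / 2 := by norm_num
        rw [e5, zero_mul, add_zero, mul_one_div, div_le_iff₀ hD]
        have e6 : ((5:ℝ) / 2) ^ θ = 5 / 2 / (5 / 2) ^ a := by
          rw [eq_div_iff p52.ne']; exact e52
        rw [e6, div_le_iff₀ p52]
        nlinarith)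
      (by
        rw [Real.one_rpow]
        have e5 : (2:ℝ) + 1 = 3 := by norm_num
        rw [e5, zero_mul, add_zero, mul_one_div, div_le_iff₀ hD]
        have e6 : (3:ℝ) ^ θ = 3 / 3 ^ a := by
          rw [eq_div_iff p3.ne']; exact e3
        rw [e6, div_le_iff₀ p3]
        nlinarith)
    rw [hzp, zero_mul, add_zero, mul_one_div, div_le_iff₀ hD] at h
    have e : 2 + (s - 1 - 1) = s := by ring
    rw [e] at h
    have e' : 1 - (X - 1) = 2 - X := by ring
    rw [e']
    have : (2 + z) * (2 - X) ≤ Sg * (2 - X) := mul_le_mul_of_nonneg_right (by linarith) hD.le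
    linarith
  · right
    have hpsi : psi θ (s - 1) = s - 1 := by
      unfold psi; rw [if_neg (by linarith), if_neg (by linarith)]
    rw [hpsi] at hS
    have hD : 0 < 2 - X := by linarith
    have hsp : 0 < s := by linarith
    have e1 : s ^ θ * s ^ a = s := by
      rw [← Real.rpow_add hsp, hθa]
      norm_num
    have h3a : (3:ℝ) ^ a ≤ s ^ a := Real.rpow_le_rpow (by norm_num) (by linarith) ha0.le
    have psa : 0 < s ^ a := by positivity
    have h4 : 1 ≤ (2 - X) * s ^ a := n3.trans (mul_le_mul_of_nonneg_left h3a hD.le)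
    have h5 : s ^ θ ≤ (2 - X) * s := by
      calc s ^ θ = s ^ θ * 1 := (mul_one _).symm
        _ ≤ s ^ θ * ((2 - X) * s ^ a) := mul_le_mul_of_nonneg_left h4 (by positivity)
        _ = (2 - X) * (s ^ θ * s ^ a) := by ring
        _ = _ := by rw [e1]
    have e' : 1 - (X - 1) = 2 - X := by ring
    rw [e']
    exact h5.trans (mul_le_mul_of_nonneg_left (by linarith) hD.le)

/-- the real inequality of the isoperimetric step -/
theorem mix {ι : Type*} {θ : ℝ} (hθ : 1 / 2 ≤ θ) (hθ1 : θ < 1) (J : Finset ι) (x : ι → ℝ)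
    (hx0 : ∀ i ∈ J, 0 ≤ x i) (hx1 : ∀ i ∈ J, x i ≤ 1) {i₀ : ι} (hi : i₀ ∈ J) (hi1 : x i₀ = 1)
    {ρ σ M : ℝ} (hρ : 0 ≤ ρ) (hσ : 0 ≤ σ) (h1 : ρ + σ ≤ M) (h2 : ρ * ∑ i ∈ J, x i ^ θ ≤ M)
    (h3 : σ * (∑ i ∈ J, x i) ^ θ ≤ M) :
    (ρ + (2 ^ (1 - θ) - 1) * σ) * (∑ i ∈ J, x i) ^ θ ≤ M := by
  classical
  have hθ0 : 0 < θ := by linarith
  have e1 : ∑ i ∈ J, x i = 1 + ∑ i ∈ J.erase i₀, x i := by
    rw [← Finset.add_sum_erase J x hi, hi1]
  have e2 : ∑ i ∈ J, x i ^ θ = 1 + ∑ i ∈ J.erase i₀, x i ^ θ := by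
    rw [← Finset.add_sum_erase J (fun i => x i ^ θ) hi, hi1, Real.one_rpow]
  have hy0 : 0 ≤ ∑ i ∈ J.erase i₀, x i :=
    Finset.sum_nonneg fun i hi => hx0 i (Finset.mem_of_mem_erase hi)
  have hge := sum_ge hθ0 hθ1.le (J.erase i₀) x (fun i hi => hx0 i (Finset.mem_of_mem_erase hi))
    (fun i hi => hx1 i (Finset.mem_of_mem_erase hi))
  set s := ∑ i ∈ J, x i with hs
  set Sg := ∑ i ∈ J, x i ^ θ with hSg
  have hs1 : 1 ≤ s := by linarith
  have hS : 1 + psi θ (s - 1) ≤ Sg := by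
    rw [e2, e1]
    have : 1 + ∑ i ∈ J.erase i₀, x i - 1 = ∑ i ∈ J.erase i₀, x i := by ring
    rw [this]
    linarith
  have hSg1 : 1 ≤ Sg := by
    have := psi_ge (θ := θ) hθ1.le (show 0 ≤ s - 1 by linarith)
    linarith
  have hX1 : (1:ℝ) ≤ 2 ^ (1 - θ) := Real.one_le_rpow (by norm_num) (by linarith)
  have hX2 : (2:ℝ) ^ (1 - θ) < 2 := by
    have : (2:ℝ) ^ (1 - θ) < 2 ^ (1:ℝ) :=
      Real.rpow_lt_rpow_of_exponent_lt (by norm_num) (by linarith)
    rwa [Real.rpow_one] at this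
  have halt := alt hθ hθ1 hs1 hS
  set c : ℝ := 2 ^ (1 - θ) - 1 with hc
  have hc0 : 0 ≤ c := by linarith
  have hc1 : c < 1 := by linarith
  set T := s ^ θ with hT
  have hT0 : 0 ≤ T := by positivity
  have hM : 0 ≤ M := by linarith
  rcases halt with h | h
  · have hk : c * T ≤ 1 := by
      by_contra hcon
      push Not at hcon
      have h5 : Sg * 1 < Sg * (c * T) := mul_lt_mul_of_pos_left hcon (by linarith)
      have h6 : 0 ≤ T * (1 - c) := mul_nonneg hT0 (by linarith)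
      nlinarith
    have hk0 : 0 ≤ c * T := by positivity
    have h7 : c * T * (ρ + σ) ≤ c * T * M := mul_le_mul_of_nonneg_left h1 hk0
    have h8 : (1 - c * T) * (ρ * Sg) ≤ (1 - c * T) * M :=
      mul_le_mul_of_nonneg_left h2 (by linarith)
    have h9 : ρ * T ≤ ρ * (c * T + (1 - c * T) * Sg) := by
      apply mul_le_mul_of_nonneg_left _ hρ
      nlinarith
    nlinarith
  · have h7 : c * (σ * T) ≤ c * M := mul_le_mul_of_nonneg_left h3 hc0
    have h8 : (1 - c) * (ρ * Sg) ≤ (1 - c) * M := mul_le_mul_of_nonneg_left h2 (by linarith)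
    have h9 : ρ * T ≤ ρ * ((1 - c) * Sg) := mul_le_mul_of_nonneg_left h hρ
    nlinarith

end Pool.Agent.N811.IS
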