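import Pool.Agent.N811.IS.Real2

set_option autoImplicit false

/-! The isoperimetric constant of a finite set in an abelian group and its one-step inequality. -/

namespace Pool.Agent.N811.IS

open Finset
open scoped Pointwise

section
variable {G : Type*} [AddCommGroup G] [DecidableEq G]

/-- the best constant `r` with `r |X|^θ ≤ |A + X|` for all finite nonempty `X` -/
noncomputable def rho (θ : ℝ) (A : Finset G) : ℝ :=
  ⨅ X : {X : Finset G // X.Nonempty}, ((A + X.1).card : ℝ) / (X.1.card : ℝ) ^ θ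

lemma rho_bdd (θ : ℝ) (A : Finset G) : BddBelow (Set.range
    fun X : {X : Finset G // X.Nonempty} => ((A + X.1).card : ℝ) / (X.1.card : ℝ) ^ θ) :=
  ⟨0, by rintro _ ⟨X, rfl⟩; dsimp only; positivity⟩

instance : Nonempty {X : Finset G // X.Nonempty} := ⟨⟨{0}, Finset.singleton_nonempty 0⟩⟩

lemma rho_nonneg (θ : ℝ) (A : Finset G) : 0 ≤ rho θ A :=
  le_ciInf fun X => by positivity

lemma rho_mul_le (θ : ℝ) (A : Finset G) {X : Finset G} (hX : X.Nonempty) :
    rho θ A * (X.card : ℝ) ^ θ ≤ ((A + X).card : ℝ) := by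
  have h := ciInf_le (rho_bdd θ A) ⟨X, hX⟩
  have hc : (0:ℝ) < (X.card : ℝ) ^ θ := by
    have : (0:ℝ) < X.card := by exact_mod_cast hX.card_pos
    positivity
  rw [← le_div_iff₀ hc]
  exact h

lemma le_rho {θ : ℝ} {A : Finset G} {r : ℝ}
    (h : ∀ X : Finset G, X.Nonempty → r * (X.card : ℝ) ^ θ ≤ ((A + X).card : ℝ)) :
    r ≤ rho θ A := by
  refine le_ciInf fun X => ?_
  have hc : (0:ℝ) < (X.1.card : ℝ) ^ θ := by
    have : (0:ℝ) < X.1.card := by exact_mod_cast X.2.card_pos
    positivity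
  rw [le_div_iff₀ hc]
  exact h X.1 X.2

lemma one_le_rho {θ : ℝ} (hθ : θ ≤ 1) {A : Finset G} (hA : A.Nonempty) : 1 ≤ rho θ A := by
  refine le_rho fun X hX => ?_
  have h1 : (1:ℝ) ≤ X.card := by exact_mod_cast hX.card_pos
  have h2 : (X.card : ℝ) ^ θ ≤ X.card := by
    have := Real.rpow_le_rpow_of_exponent_le h1 hθ
    rwa [Real.rpow_one] at this
  have h3 : X.card ≤ (A + X).card := Finset.card_le_card_add_left hA
  have h4 : (X.card : ℝ) ≤ (A + X).card := by exact_mod_cast h3
  linarith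

lemma rho_mono (θ : ℝ) {A B : Finset G} (h : A ⊆ B) : rho θ A ≤ rho θ B := by
  refine le_rho fun X hX => ?_
  refine (rho_mul_le θ A hX).trans ?_
  exact_mod_cast Finset.card_le_card (Finset.add_subset_add_right h)

/-- the isoperimetric step -/
theorem rho_step {θ : ℝ} (hθ : 1 / 2 ≤ θ) (hθ1 : θ < 1) (H : AddSubgroup G) {A A₀ A₁ : Finset G}
    (h0 : A₀ ⊆ A) (h1 : A₁ ⊆ A) (hH0 : ∀ a ∈ A₀, a ∉ H) (hH1 : ∀ a ∈ A₁, a ∈ H) :
    rho θ A₁ + (2 ^ (1 - θ) - 1) * rho θ A₀ ≤ rho θ A := by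
  classical
  have hθ0 : 0 < θ := by linarith
  refine le_rho fun X hX => ?_
  set q : G → G ⧸ H := fun g => (QuotientAddGroup.mk g : G ⧸ H) with hq
  have hqadd : ∀ a b, q (a + b) = q a + q b := fun a b => rfl
  have hq0 : ∀ a, q a = 0 ↔ a ∈ H := fun a => by
    rw [hq]; exact QuotientAddGroup.eq_zero_iff a
  set J := X.image q with hJ
  set Y : G ⧸ H → Finset G := fun c => X.filter fun x => q x = c with hY
  have hYne : ∀ c ∈ J, (Y c).Nonempty := by
    intro c hc
    obtain ⟨x, hx, hxc⟩ := Finset.mem_image.1 hc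
    exact ⟨x, Finset.mem_filter.2 ⟨hx, hxc⟩⟩
  have hsum : X.card = ∑ c ∈ J, (Y c).card :=
    Finset.card_eq_sum_card_image q X
  obtain ⟨c₀, hc₀, hmax⟩ := Finset.exists_max_image J (fun c => (Y c).card) (hX.image q)
  set m : ℝ := ((Y c₀).card : ℝ) with hm
  have hm0 : 0 < m := by
    rw [hm]; exact_mod_cast (hYne c₀ hc₀).card_pos
  have hmθ : 0 < m ^ θ := by positivity
  -- the three lower bounds
  have b1 : (rho θ A₁ + rho θ A₀) * m ^ θ ≤ ((A + X).card : ℝ) := by
    have e1 := rho_mul_le θ A₁ (hYne c₀ hc₀)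
    have e0 := rho_mul_le θ A₀ (hYne c₀ hc₀)
    have hd : Disjoint (A₁ + Y c₀) (A₀ + Y c₀) := by
      rw [Finset.disjoint_left]
      intro z hz hz'
      obtain ⟨a, ha, y, hy, rfl⟩ := Finset.mem_add.1 hz
      obtain ⟨a', ha', y', hy', hzz⟩ := Finset.mem_add.1 hz'
      have q1 : q (a + y) = c₀ := by
        rw [hqadd, (hq0 a).2 (hH1 a ha), zero_add]
        exact (Finset.mem_filter.1 hy).2
      have q2 : q (a' + y') = q a' + c₀ := by
        rw [hqadd, (Finset.mem_filter.1 hy').2]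
      rw [hzz, q1] at q2
      have : q a' = 0 := by
        have := q2.symm
        rwa [add_eq_right] at this
      exact hH0 a' ha' ((hq0 a').1 this)
    have hsub : (A₁ + Y c₀) ∪ (A₀ + Y c₀) ⊆ A + X := by
      apply Finset.union_subset
      · exact Finset.add_subset_add h1 (Finset.filter_subset _ _)
      · exact Finset.add_subset_add h0 (Finset.filter_subset _ _)
    have := Finset.card_le_card hsub
    rw [Finset.card_union_of_disjoint hd] at this
    have h2 : ((A₁ + Y c₀).card : ℝ) + ((A₀ + Y c₀).card : ℝ) ≤ (A + X).card := by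
      exact_mod_cast this
    rw [add_mul]
    linarith
  have b2 : rho θ A₁ * ∑ c ∈ J, ((Y c).card : ℝ) ^ θ ≤ ((A + X).card : ℝ) := by
    have hd : Set.PairwiseDisjoint (↑J) fun c => A₁ + Y c := by
      intro c _ d _ hcd
      simp only [Function.onFun]
      rw [Finset.disjoint_left]
      intro z hz hz'
      obtain ⟨a, ha, y, hy, rfl⟩ := Finset.mem_add.1 hz
      obtain ⟨a', ha', y', hy', hzz⟩ := Finset.mem_add.1 hz'
      apply hcd
      have q1 : q (a + y) = c := by
        rw [hqadd, (hq0 a).2 (hH1 a ha), zero_add]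
        exact (Finset.mem_filter.1 hy).2
      have q2 : q (a' + y') = d := by
        rw [hqadd, (hq0 a').2 (hH1 a' ha'), zero_add]
        exact (Finset.mem_filter.1 hy').2
      rw [← q1, ← q2, hzz]
    have hsub : J.biUnion (fun c => A₁ + Y c) ⊆ A + X := by
      intro z hz
      obtain ⟨c, _, hz⟩ := Finset.mem_biUnion.1 hz
      exact Finset.add_subset_add h1 (Finset.filter_subset _ _) hz
    have h2 := Finset.card_le_card hsub
    rw [Finset.card_biUnion hd] at h2
    have h3 : (∑ c ∈ J, ((A₁ + Y c).card : ℝ)) ≤ ((A + X).card : ℝ) := by exact_mod_cast h2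
    rw [Finset.mul_sum]
    exact (Finset.sum_le_sum fun c hc => rho_mul_le θ A₁ (hYne c hc)).trans h3
  have b3 : rho θ A₀ * (X.card : ℝ) ^ θ ≤ ((A + X).card : ℝ) := by
    refine (rho_mul_le θ A₀ hX).trans ?_
    exact_mod_cast Finset.card_le_card (Finset.add_subset_add_right h0)
  -- normalisation
  have hx := mix hθ hθ1 J (fun c => ((Y c).card : ℝ) / m) (fun c _ => by positivity)
    (fun c hc => by
      rw [div_le_one hm0, hm]
      exact_mod_cast hmax c hc) hc₀ (div_self hm0.ne')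
    (rho_nonneg θ A₁) (rho_nonneg θ A₀) (M := ((A + X).card : ℝ) / m ^ θ)
    (by rw [le_div_iff₀ hmθ]; exact b1)
    (by
      have : ∀ c ∈ J, (((Y c).card : ℝ) / m) ^ θ = ((Y c).card : ℝ) ^ θ / m ^ θ := fun c _ =>
        Real.div_rpow (Nat.cast_nonneg _) hm0.le θ
      rw [Finset.sum_congr rfl this, ← Finset.sum_div, ← mul_div_assoc]
      exact div_le_div_of_nonneg_right b2 hmθ.le)
    (by
      rw [← Finset.sum_div, Real.div_rpow (Finset.sum_nonneg fun c _ => Nat.cast_nonneg _) hm0.le,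
        ← mul_div_assoc]
      have : (∑ c ∈ J, ((Y c).card : ℝ)) = (X.card : ℝ) := by rw [hsum]; push_cast; rfl
      rw [this]
      exact div_le_div_of_nonneg_right b3 hmθ.le)
  have e : (∑ c ∈ J, ((Y c).card : ℝ) / m) = (X.card : ℝ) / m := by
    rw [← Finset.sum_div, hsum]; push_cast; rfl
  rw [e, Real.div_rpow (Nat.cast_nonneg _) hm0.le, ← mul_div_assoc, div_le_div_iff_of_pos_right hmθ] at hx
  exact hx

end

end Pool.Agent.N811.IS
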